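import Pool.Agent.R779.FJ.Hnn
import Pool.Agent.Y529.FJ.Ext
import Pool.Agent.Y961.FJ.Perm

/-!
# The criterion: conjugations which are locally realized in the class
-/

set_option autoImplicit false

namespace Pool.Agent.R779.FJ

open Pool.Agent.Y110.FJ
open Pool.Agent.Y462.SS (Closed)

section defs

variable {G : Type} [Group G] (g : G)

/-- conjugation -/
abbrev cj : G →* G := (MulAut.conj g).toMonoidHom

theorem cj_inj : Function.Injective (cj g) := (MulAut.conj g).injective

theorem cj_apply (x : G) : cj g x = g * x * g⁻¹ := rfl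

/-- the group generated by `A` and its conjugate -/
def KK (A : Subgroup G) : Subgroup G := A ⊔ A.map (cj g)

/-- `A` as a subgroup of `KK g A` -/
def AA (A : Subgroup G) : Subgroup (KK g A) := A.subgroupOf (KK g A)

/-- the conjugate as a subgroup of `KK g A` -/
def BB (A : Subgroup G) : Subgroup (KK g A) := (A.map (cj g)).subgroupOf (KK g A)

/-- conjugation as an isomorphism -/
noncomputable def ph (A : Subgroup G) : AA g A ≃* BB g A :=
  (Subgroup.subgroupOfEquivOfLe (le_sup_left : A ≤ KK g A)).trans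
    ((A.equivMapOfInjective (cj g) (cj_inj g)).trans
      (Subgroup.subgroupOfEquivOfLe (le_sup_right : A.map (cj g) ≤ KK g A)).symm)

theorem ph_coe (A : Subgroup G) (a : AA g A) :
    ((((ph g A a : BB g A) : KK g A)) : G) = g * ((a : KK g A) : G) * g⁻¹ := rfl

/-- the HNN extension -/
abbrev HN (A : Subgroup G) : Type := HNNExtension (KK g A) (AA g A) (BB g A) (ph g A)

theorem KK_mono {A A' : Subgroup G} (h : A ≤ A') : KK g A ≤ KK g A' :=
  sup_le_sup h (Subgroup.map_mono h)

/-- the maps between the HNN extensions -/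
noncomputable def mp {A A' : Subgroup G} (h : A ≤ A') : HN g A →* HN g A' :=
  HNNExtension.lift (HNNExtension.of.comp (Subgroup.inclusion (KK_mono g h))) HNNExtension.t (by
    intro a
    have h1 : Subgroup.inclusion (KK_mono g h) (a : KK g A) ∈ AA g A' := by
      show ((a : KK g A) : G) ∈ A'
      exact h a.2
    have h2 := HNNExtension.t_mul_of (φ := ph g A') ⟨_, h1⟩
    show HNNExtension.t * HNNExtension.of (Subgroup.inclusion (KK_mono g h) (a : KK g A)) =
      HNNExtension.of (Subgroup.inclusion (KK_mono g h) ((ph g A a : BB g A) : KK g A)) *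
        HNNExtension.t
    rw [show HNNExtension.t * HNNExtension.of (Subgroup.inclusion (KK_mono g h) (a : KK g A)) = _
      from h2]
    congr 1)

/-- the map to a subgroup -/
noncomputable def out {A : Subgroup G} (S : Subgroup G) (hA : KK g A ≤ S) (hg : g ∈ S) :
    HN g A →* S :=
  HNNExtension.lift (Subgroup.inclusion hA) ⟨g, hg⟩ (by
    intro a
    apply Subtype.ext
    show g * ((a : KK g A) : G) = (((ph g A a : BB g A) : KK g A) : G) * g
    rw [ph_coe]
    group)

theorem mp_of {A A' : Subgroup G} (h : A ≤ A') (x : KK g A) :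
    mp g h (HNNExtension.of x) = HNNExtension.of (Subgroup.inclusion (KK_mono g h) x) := by
  rw [mp, HNNExtension.lift_of]
  rfl

theorem mp_t {A A' : Subgroup G} (h : A ≤ A') :
    mp g h HNNExtension.t = HNNExtension.t := by
  rw [mp, HNNExtension.lift_t]

theorem out_of {A : Subgroup G} (S : Subgroup G) (hA : KK g A ≤ S) (hg : g ∈ S) (x : KK g A) :
    out g S hA hg (HNNExtension.of x) = Subgroup.inclusion hA x := by
  rw [out, HNNExtension.lift_of]

theorem out_t {A : Subgroup G} (S : Subgroup G) (hA : KK g A ≤ S) (hg : g ∈ S) :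
    out g S hA hg HNNExtension.t = ⟨g, hg⟩ := by
  rw [out, HNNExtension.lift_t]

theorem mp_refl {A : Subgroup G} (h : A ≤ A) (x : HN g A) : mp g h x = x := by
  have : mp g h = MonoidHom.id _ := by
    apply HNNExtension.hom_ext
    · ext y
      show mp g h (HNNExtension.of y) = HNNExtension.of y
      rw [mp_of]
      rfl
    · exact mp_t g h
  rw [this]
  rfl

theorem mp_mp {A A' A'' : Subgroup G} (h : A ≤ A') (h' : A' ≤ A'') (h'' : A ≤ A'') (x : HN g A) :
    mp g h' (mp g h x) = mp g h'' x := by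
  have : (mp g h').comp (mp g h) = mp g h'' := by
    apply HNNExtension.hom_ext
    · ext y
      show mp g h' (mp g h (HNNExtension.of y)) = mp g h'' (HNNExtension.of y)
      rw [mp_of, mp_of, mp_of]
      rfl
    · show mp g h' (mp g h HNNExtension.t) = mp g h'' HNNExtension.t
      rw [mp_t, mp_t, mp_t]
  exact DFunLike.congr_fun this x

theorem out_mp {A A' : Subgroup G} (S : Subgroup G) (h : A ≤ A') (hA : KK g A ≤ S)
    (hA' : KK g A' ≤ S) (hg : g ∈ S) (x : HN g A) :
    out g S hA' hg (mp g h x) = out g S hA hg x := by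
  have : (out g S hA' hg).comp (mp g h) = out g S hA hg := by
    apply HNNExtension.hom_ext
    · ext y
      show ((out g S hA' hg (mp g h (HNNExtension.of y)) : S) : G) =
        ((out g S hA hg (HNNExtension.of y) : S) : G)
      rw [mp_of, out_of, out_of]
      rfl
    · show out g S hA' hg (mp g h HNNExtension.t) = out g S hA hg HNNExtension.t
      rw [mp_t, out_t, out_t]
  exact DFunLike.congr_fun this x

end defs

/-- the index set -/
abbrev Ix {G : Type} [Group G] (N : Subgroup G) : Type := {E : Set G // E.Finite ∧ E ⊆ N}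

theorem cl_le {G : Type} [Group G] {N : Subgroup G} (i : Ix N) : Subgroup.closure i.1 ≤ N :=
  (Subgroup.closure_le N).2 i.2.2

theorem KK_le {G : Type} [Group G] (g : G) {N : Subgroup G} [hN : N.Normal] {A : Subgroup G}
    (hA : A ≤ N) : KK g A ≤ N := by
  refine sup_le hA ?_
  rintro _ ⟨a, ha, rfl⟩
  exact hN.conj_mem a (hA ha) g

theorem cl_mono {G : Type} [Group G] {N : Subgroup G} {i j : Ix N} (h : i ≤ j) :
    Subgroup.closure i.1 ≤ Subgroup.closure j.1 := Subgroup.closure_mono h

/-- the enlarged finite set -/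
def enl {G : Type} [Group G] {N : Subgroup G} (i : Ix N) (x y : G) (hx : x ∈ N) (hy : y ∈ N) :
    Ix N :=
  ⟨i.1 ∪ {x, y}, i.2.1.union (by simp), Set.union_subset i.2.2 (by
    intro z hz
    rcases hz with rfl | rfl
    · exact hx
    · exact hy)⟩

theorem le_enl {G : Type} [Group G] {N : Subgroup G} (i : Ix N) (x y : G) (hx : x ∈ N)
    (hy : y ∈ N) : i ≤ enl i x y hx hy := Set.subset_union_left

theorem t_mul_of' {G : Type} [Group G] (g : G) (A : Subgroup G) (x y : KK g A)
    (hx : (x : G) ∈ A) (hy : (y : G) = g * x * g⁻¹) :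
    (HNNExtension.t : HN g A) * HNNExtension.of x = HNNExtension.of y * HNNExtension.t := by
  have h := HNNExtension.t_mul_of (φ := ph g A) ⟨x, hx⟩
  have h2 : ((ph g A ⟨x, hx⟩ : BB g A) : KK g A) = y := Subtype.ext hy.symm
  rw [h2] at h
  exact h

/-- locally every element has the form `m t ^ k` -/
theorem loc {G : Type} [Group G] (g : G) {N : Subgroup G} [hN : N.Normal] (i : Ix N)
    (x : HN g (Subgroup.closure i.1)) :
    ∃ (j : Ix N) (h : i ≤ j) (m : KK g (Subgroup.closure j.1)) (k : ℤ),
      mp g (cl_mono h) x = HNNExtension.of m * HNNExtension.t ^ k := by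
  have hx : x ∈ Subgroup.closure (Set.range (HNNExtension.of :
      KK g (Subgroup.closure i.1) →* HN g (Subgroup.closure i.1)) ∪ {HNNExtension.t}) := by
    induction x using HNNExtension.induction_on with
    | of y => exact Subgroup.subset_closure (Or.inl ⟨y, rfl⟩)
    | t => exact Subgroup.subset_closure (Or.inr rfl)
    | mul x y hx hy => exact Subgroup.mul_mem _ hx hy
    | inv x hx => exact Subgroup.inv_mem _ hx
  induction hx using Subgroup.closure_induction_left with
  | one => exact ⟨i, le_rfl, 1, 0, by simp⟩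
  | mul_left a ha y hy ih =>
    obtain ⟨j, h, m, k, hm⟩ := ih
    rcases ha with ⟨b, rfl⟩ | ha
    · refine ⟨j, h, Subgroup.inclusion (KK_mono g (cl_mono h)) b * m, k, ?_⟩
      rw [map_mul, hm, mp_of, map_mul, mul_assoc]
    · have ha' : a = HNNExtension.t := ha
      subst ha'
      have hmN : (m : G) ∈ N := KK_le g (cl_le j) m.2
      let j' : Ix N := enl j (m : G) (m : G) hmN hmN
      have hj : j ≤ j' := le_enl j _ _ _ _
      have hm1 : (m : G) ∈ Subgroup.closure j'.1 :=
        Subgroup.subset_closure (Or.inr (Or.inl rfl))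
      have hm2 : g * (m : G) * g⁻¹ ∈ KK g (Subgroup.closure j'.1) :=
        (le_sup_right : (Subgroup.closure j'.1).map (cj g) ≤ _) ⟨_, hm1, rfl⟩
      refine ⟨j', h.trans hj, ⟨_, hm2⟩, k + 1, ?_⟩
      rw [← mp_mp g (cl_mono h) (cl_mono hj), map_mul, hm, mp_t, map_mul, mp_t, map_mul, mp_of,
        map_zpow, mp_t, ← mul_assoc, t_mul_of' g _ _ ⟨_, hm2⟩ hm1 rfl, mul_assoc, zpow_add,
        zpow_one]
      congr 1
      exact (Commute.refl _).zpow_right k
  | inv_mul_cancel a ha y hy ih =>
    obtain ⟨j, h, m, k, hm⟩ := ih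
    rcases ha with ⟨b, rfl⟩ | ha
    · refine ⟨j, h, (Subgroup.inclusion (KK_mono g (cl_mono h)) b)⁻¹ * m, k, ?_⟩
      rw [map_mul, hm, map_inv, mp_of, map_mul, map_inv, mul_assoc]
    · have ha' : a = HNNExtension.t := ha
      subst ha'
      have hmN : (m : G) ∈ N := KK_le g (cl_le j) m.2
      have hmN' : g⁻¹ * (m : G) * g ∈ N := by
        have := hN.conj_mem _ hmN g⁻¹
        rwa [inv_inv] at this
      let j' : Ix N := enl j (g⁻¹ * (m : G) * g) (m : G) hmN' hmN
      have hj : j ≤ j' := le_enl j _ _ _ _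
      have hm1 : g⁻¹ * (m : G) * g ∈ Subgroup.closure j'.1 :=
        Subgroup.subset_closure (Or.inr (Or.inl rfl))
      have hm2 : g⁻¹ * (m : G) * g ∈ KK g (Subgroup.closure j'.1) :=
        (le_sup_left : Subgroup.closure j'.1 ≤ _) hm1
      refine ⟨j', h.trans hj, ⟨_, hm2⟩, k - 1, ?_⟩
      have h1 := t_mul_of' g (Subgroup.closure j'.1) ⟨_, hm2⟩
        (Subgroup.inclusion (KK_mono g (cl_mono hj)) m) hm1 (by
          show (m : G) = g * (g⁻¹ * (m : G) * g) * g⁻¹
          group)
      have h2 : (HNNExtension.t : HN g (Subgroup.closure j'.1))⁻¹ *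
          HNNExtension.of (Subgroup.inclusion (KK_mono g (cl_mono hj)) m) =
          HNNExtension.of ⟨_, hm2⟩ * HNNExtension.t⁻¹ := by
        rw [inv_mul_eq_iff_eq_mul, ← mul_assoc, h1, mul_assoc, mul_inv_cancel, mul_one]
      rw [← mp_mp g (cl_mono h) (cl_mono hj), map_mul, hm, map_inv, mp_t, map_mul, map_inv, mp_t,
        map_mul, mp_of, map_zpow, mp_t, ← mul_assoc, h2, mul_assoc, sub_eq_add_neg, add_comm, zpow_add,
        zpow_neg_one]

/-- the part of the criterion for one element -/
theorem t_col (hperm : S_PERM) : S_COL := by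
  intro C hC G _ N hN g hg hR
  have hS : ∀ i : Ix N, KK g (Subgroup.closure i.1) ≤ N ⊔ Subgroup.zpowers g := fun i =>
    (KK_le g (cl_le i)).trans le_sup_left
  have hgS : g ∈ N ⊔ Subgroup.zpowers g :=
    (le_sup_right : Subgroup.zpowers g ≤ _) (Subgroup.mem_zpowers g)
  have : Nonempty (Ix N) := ⟨⟨∅, Set.finite_empty, Set.empty_subset _⟩⟩
  refine hC.base.colim (Ix N)
    (fun i j => ⟨⟨i.1 ∪ j.1, i.2.1.union j.2.1, Set.union_subset i.2.2 j.2.2⟩,
      Set.subset_union_left, Set.subset_union_right⟩)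
    (fun i => HN g (Subgroup.closure i.1)) (fun i j h => mp g (cl_mono h))
    ↥(N ⊔ Subgroup.zpowers g) (fun i => out g _ (hS i) hgS) ?_ ?_ ?_ ?_ ?_ ?_
  · intro i h x
    exact mp_refl g _ x
  · intro i j k h h' x
    exact mp_mp g _ _ _ x
  · intro i j h x
    exact out_mp g _ _ _ _ _ x
  · rintro ⟨y, hy⟩
    rw [← SetLike.mem_coe, Subgroup.normal_mul] at hy
    obtain ⟨n, hn, z, ⟨k, rfl⟩, rfl⟩ := hy
    let i : Ix N := ⟨{n}, Set.finite_singleton n, by simpa using hn⟩
    have hni : n ∈ KK g (Subgroup.closure i.1) :=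
      (le_sup_left : Subgroup.closure i.1 ≤ _) (Subgroup.subset_closure rfl)
    refine ⟨i, HNNExtension.of ⟨n, hni⟩ * HNNExtension.t ^ k, ?_⟩
    rw [map_mul, map_zpow, out_of, out_t]
    apply Subtype.ext
    rfl
  · intro i x hx
    obtain ⟨j, h, m, k, hm⟩ := loc g i x
    refine ⟨j, h, ?_⟩
    have h1 := out_mp g _ (cl_mono h) (hS i) (hS j) hgS x
    rw [hm, hx, map_mul, map_zpow, out_of, out_t] at h1
    have h2 : (m : G) * g ^ k = 1 := congrArg Subtype.val h1
    have hmN : (m : G) ∈ N := KK_le g (cl_le j) m.2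
    have h3 : g ^ k ∈ N := by
      rw [eq_inv_of_mul_eq_one_right h2]
      exact N.inv_mem hmN
    have hk : k = 0 := by
      by_contra hk
      rcases lt_or_gt_of_ne hk with hk' | hk'
      · refine hg (-k).toNat (by omega) ?_
        rw [← zpow_natCast, Int.toNat_of_nonneg (by omega), zpow_neg]
        exact N.inv_mem h3
      · refine hg k.toNat (by omega) ?_
        rw [← zpow_natCast, Int.toNat_of_nonneg (by omega)]
        exact h3
    subst hk
    rw [zpow_zero, mul_one] at h2
    rw [hm, zpow_zero, mul_one]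
    have : m = 1 := Subtype.ext h2
    rw [this, map_one]
  · intro i
    obtain ⟨P, _, f, p, hCP, hf, hfp⟩ := hR i.1 i.2.1 i.2.2
    have hle : KK g (Subgroup.closure i.1) ≤
        Subgroup.closure (i.1 ∪ (fun x => g * x * g⁻¹) '' i.1) := by
      rw [Subgroup.closure_union]
      refine sup_le_sup le_rfl ?_
      rw [MonoidHom.map_closure]
      exact Subgroup.closure_mono (le_of_eq rfl)
    have hex : ∀ a (ha : a ∈ Subgroup.closure i.1)
        (h1 : a ∈ Subgroup.closure (i.1 ∪ (fun x => g * x * g⁻¹) '' i.1))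
        (h2 : g * a * g⁻¹ ∈ Subgroup.closure (i.1 ∪ (fun x => g * x * g⁻¹) '' i.1)),
        f ⟨g * a * g⁻¹, h2⟩ = p * f ⟨a, h1⟩ * p⁻¹ := by
      have hA : ∀ a, a ∈ Subgroup.closure i.1 →
          a ∈ Subgroup.closure (i.1 ∪ (fun x => g * x * g⁻¹) '' i.1) := fun a ha =>
        Subgroup.closure_mono Set.subset_union_left ha
      have hB : ∀ a, a ∈ Subgroup.closure i.1 →
          g * a * g⁻¹ ∈ Subgroup.closure (i.1 ∪ (fun x => g * x * g⁻¹) '' i.1) := by
        intro a ha
        refine hle ?_
        exact (le_sup_right : (Subgroup.closure i.1).map (cj g) ≤ _) ⟨a, ha, rfl⟩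
      intro a ha
      induction ha using Subgroup.closure_induction with
      | mem x hx =>
        intro h1 h2
        exact hfp ⟨x, h1⟩ ⟨_, h2⟩ hx rfl
      | one =>
        intro h1 h2
        have e1 : (⟨g * 1 * g⁻¹, h2⟩ : ↥(Subgroup.closure (i.1 ∪ (fun x => g * x * g⁻¹) '' i.1))) = 1 := by
          apply Subtype.ext
          show g * 1 * g⁻¹ = 1
          group
        have e2 : (⟨1, h1⟩ : ↥(Subgroup.closure (i.1 ∪ (fun x => g * x * g⁻¹) '' i.1))) = 1 := rfl
        rw [e1, e2, map_one]
        group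
      | mul x y hx hy ihx ihy =>
        intro h1 h2
        have e1 : (⟨g * (x * y) * g⁻¹, h2⟩ : ↥(Subgroup.closure (i.1 ∪ (fun x => g * x * g⁻¹) '' i.1)))
            = ⟨g * x * g⁻¹, hB x hx⟩ * ⟨g * y * g⁻¹, hB y hy⟩ := by
          apply Subtype.ext
          show g * (x * y) * g⁻¹ = g * x * g⁻¹ * (g * y * g⁻¹)
          group
        have e2 : (⟨x * y, h1⟩ : ↥(Subgroup.closure (i.1 ∪ (fun x => g * x * g⁻¹) '' i.1)))
            = ⟨x, hA x hx⟩ * ⟨y, hA y hy⟩ := rfl
        rw [e1, e2, map_mul, map_mul, ihx (hA x hx) (hB x hx), ihy (hA y hy) (hB y hy)]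
        group
      | inv x hx ihx =>
        intro h1 h2
        have e1 : (⟨g * x⁻¹ * g⁻¹, h2⟩ : ↥(Subgroup.closure (i.1 ∪ (fun x => g * x * g⁻¹) '' i.1)))
            = ⟨g * x * g⁻¹, hB x hx⟩⁻¹ := by
          apply Subtype.ext
          show g * x⁻¹ * g⁻¹ = (g * x * g⁻¹)⁻¹
          group
        have e2 : (⟨x⁻¹, h1⟩ : ↥(Subgroup.closure (i.1 ∪ (fun x => g * x * g⁻¹) '' i.1)))
            = ⟨x, hA x hx⟩⁻¹ := rfl
        rw [e1, e2, map_inv, map_inv, ihx (hA x hx) (hB x hx)]
        group
    refine t_hnn hperm C hC (KK g (Subgroup.closure i.1)) P _ _ _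
      (HNNExtension.lift (f.comp (Subgroup.inclusion hle)) p ?_) ?_ hCP
    · intro a
      show p * f (Subgroup.inclusion hle (a : KK g (Subgroup.closure i.1))) =
        f (Subgroup.inclusion hle ((ph g _ a : BB g _) : KK g (Subgroup.closure i.1))) * p
      have h1 := hex (((a : KK g (Subgroup.closure i.1)) : G)) a.2 (hle a.1.2)
        (hle ((ph g _ a : BB g _) : KK g (Subgroup.closure i.1)).2)
      have h2 : f (Subgroup.inclusion hle ((ph g _ a : BB g _) : KK g (Subgroup.closure i.1))) =
        p * f (Subgroup.inclusion hle (a : KK g (Subgroup.closure i.1))) * p⁻¹ := h1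
      rw [h2]
      group
    · intro x y hxy
      have h1 : f (Subgroup.inclusion hle x) = f (Subgroup.inclusion hle y) := by
        simpa only [MonoidHom.comp_apply, HNNExtension.lift_of] using hxy
      exact Subgroup.inclusion_injective hle (hf h1)

/-- **the criterion** -/
theorem t_crit (hext : S_EXT) (hperm : S_PERM) : S_CRIT := by
  intro C hC G _ N _ hQ hR
  have hCN : C N := by
    have key : ∀ E : Set G, E.Finite → E ⊆ N → C ↥(Subgroup.closure E) := by
      intro E hE hEN
      obtain ⟨P, _, f, p, hCP, hf, hfp⟩ := hR 1 E hE hEN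
      refine hC.base.of_injective _ P (f.comp (Subgroup.inclusion
        (Subgroup.closure_mono Set.subset_union_left))) ?_ hCP
      exact hf.comp (Subgroup.inclusion_injective _)
    refine Pool.Agent.Y430.SS.of_directed hC.base N (Finset N) (fun i j => ?_)
      (fun s => Subgroup.closure (s : Set N))
      (fun s t h => Subgroup.closure_mono (by exact_mod_cast h))
      (fun g => ⟨{g}, Subgroup.subset_closure (by simp)⟩) (fun s => ?_)
    · classical
      exact ⟨i ∪ j, Finset.subset_union_left, Finset.subset_union_right⟩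
    · have h1 := key ((N.subtype) '' (s : Set N)) (s.finite_toSet.image _) (by
        rintro _ ⟨x, -, rfl⟩
        exact x.2)
      rw [← MonoidHom.map_closure] at h1
      exact hC.base.of_injective _ _ ((Subgroup.closure (s : Set N)).equivMapOfInjective N.subtype
        N.subtype_injective).toMonoidHom (MulEquiv.injective _) h1
  exact hext C hC G N hCN hQ fun g hg => t_col hperm C hC G N g hg (hR g)

end Pool.Agent.R779.FJ
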