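import Pool.Agent.Y417.FJ.Am

/-!
# HNN extensions with a homomorphism to a group in the class which is injective on the base
-/

set_option autoImplicit false

namespace Pool.Agent.R779.FJ

open Pool.Agent.Y110.FJ
open Pool.Agent.Y417.FJ
open Pool.Agent.Y462.SS (Closed)

section hnn

variable {M P : Type} [Group M] [Group P] (A B : Subgroup M) (φ : A ≃* B)
  (f : HNNExtension M A B φ →* P)

/-- the cosets of the image of `A` -/
abbrev HX : Type := P ⧸ A.map (f.comp HNNExtension.of)

/-- the coset of `1` -/
def hx1 : HX A B φ f := ((1 : P) : P ⧸ A.map (f.comp HNNExtension.of))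

/-- the first letter -/
def fst (e : ℤˣ) : HX A B φ f × Bool :=
  if e = 1 then (f HNNExtension.t • hx1 A B φ f, true) else (hx1 A B φ f, false)

theorem hx1_iff (p : P) : p • hx1 A B φ f = hx1 A B φ f ↔ p ∈ A.map (f.comp HNNExtension.of) := by
  show ((p * 1 : P) : P ⧸ A.map (f.comp HNNExtension.of)) =
    ((1 : P) : P ⧸ A.map (f.comp HNNExtension.of)) ↔ _
  rw [mul_one, eq_comm, QuotientGroup.eq]
  simp

/-- the stable letter in the semidirect product -/
noncomputable def tt : FreeGroup (HX A B φ f) ⋊[permAut (HX A B φ f) P] P :=
  SemidirectProduct.inr (f HNNExtension.t) *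
    SemidirectProduct.inl (FreeGroup.of (hx1 A B φ f))

theorem permAut_of' {X : Type} [MulAction P X] (p : P) (x : X) :
    permAut X P p (FreeGroup.of x) = FreeGroup.of (p • x) := by
  simp [permAut]

theorem tt_comm (a : A) :
    tt A B φ f * SemidirectProduct.inr (f (HNNExtension.of (a : M))) =
      SemidirectProduct.inr (f (HNNExtension.of ((φ a : B) : M))) * tt A B φ f := by
  have h1 : f (HNNExtension.of (a : M)) • hx1 A B φ f = hx1 A B φ f :=
    (hx1_iff A B φ f _).2 ⟨a, a.2, rfl⟩
  have h2 : f (HNNExtension.t) * f (HNNExtension.of (a : M)) =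
      f (HNNExtension.of ((φ a : B) : M)) * f HNNExtension.t := by
    rw [← map_mul, ← map_mul, HNNExtension.t_mul_of]
  have h3 : (SemidirectProduct.inr (f (HNNExtension.of (a : M))) :
      FreeGroup (HX A B φ f) ⋊[permAut (HX A B φ f) P] P) *
      SemidirectProduct.inl (FreeGroup.of (hx1 A B φ f)) =
      SemidirectProduct.inl (FreeGroup.of (hx1 A B φ f)) *
        SemidirectProduct.inr (f (HNNExtension.of (a : M))) := by
    apply SemidirectProduct.ext
    · simp [SemidirectProduct.mul_left, permAut_of', h1]
    · simp
  rw [tt, mul_assoc, ← h3, ← mul_assoc, ← map_mul, h2, map_mul, mul_assoc]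

/-- the homomorphism to the semidirect product -/
noncomputable def Th : HNNExtension M A B φ →* FreeGroup (HX A B φ f) ⋊[permAut (HX A B φ f) P] P :=
  HNNExtension.lift (SemidirectProduct.inr.comp (f.comp HNNExtension.of)) (tt A B φ f)
    (tt_comm A B φ f)

theorem Th_of (m : M) : Th A B φ f (HNNExtension.of m) =
    SemidirectProduct.inr (f (HNNExtension.of m)) := by
  rw [Th, HNNExtension.lift_of]
  rfl

theorem Th_t : Th A B φ f HNNExtension.t = tt A B φ f := by
  rw [Th, HNNExtension.lift_t]

theorem Th_right (g : HNNExtension M A B φ) : (Th A B φ f g).right = f g := by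
  have : (SemidirectProduct.rightHom.comp (Th A B φ f)) = f := by
    apply HNNExtension.hom_ext
    · ext m
      show (Th A B φ f (HNNExtension.of m)).right = _
      rw [Th_of]
      rfl
    · show (Th A B φ f HNNExtension.t).right = _
      rw [Th_t, tt]
      simp
  exact DFunLike.congr_fun this g

theorem Th_left_mul (g h : HNNExtension M A B φ) : (Th A B φ f (g * h)).left =
    (Th A B φ f g).left * permAut _ P (f g) (Th A B φ f h).left := by
  rw [map_mul, SemidirectProduct.mul_left, Th_right]

theorem Th_left_of (m : M) : (Th A B φ f (HNNExtension.of m)).left = 1 := by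
  rw [Th_of]
  rfl

theorem Th_left_t (e : ℤˣ) : (Th A B φ f (HNNExtension.t ^ (e : ℤ))).left =
    FreeGroup.mk [fst A B φ f e] := by
  rcases Int.units_eq_one_or e with rfl | rfl
  · rw [fst, if_pos rfl, Units.val_one, zpow_one, Th_t, tt]
    simp [SemidirectProduct.mul_left, permAut_of']
    rfl
  · have h1 : (-1 : ℤˣ) ≠ 1 := by decide
    rw [fst, if_neg h1]
    have h2 : (HNNExtension.t : HNNExtension M A B φ) ^ ((-1 : ℤˣ) : ℤ) = HNNExtension.t⁻¹ := by
      simp
    rw [h2, map_inv, Th_t, tt, SemidirectProduct.inv_left]
    have h3 : (MulEquiv.symm ((permAut (HX A B φ f) P) (f HNNExtension.t)))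
        (FreeGroup.of (f HNNExtension.t • hx1 A B φ f)) = FreeGroup.of (hx1 A B φ f) := by
      rw [MulEquiv.symm_apply_eq, permAut_of']
    simp [SemidirectProduct.mul_left, permAut_of', h3]
    rw [FreeGroup.of, FreeGroup.inv_mk]
    rfl

/-- reduced words have reduced images -/
theorem main (hf : Function.Injective (f.comp HNNExtension.of)) (l : List (ℤˣ × M))
    (hl : l.IsChain (fun a b => a.2 ∈ HNNExtension.toSubgroup A B a.1 → a.1 = b.1)) :
    ∃ L : List (HX A B φ f × Bool), FreeGroup.IsReduced L ∧
      (Th A B φ f (l.map (fun x => HNNExtension.t ^ (x.1 : ℤ) * HNNExtension.of x.2)).prod).left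
        = FreeGroup.mk L ∧
      (∀ x ∈ l.head?, ∃ L', L = fst A B φ f x.1 :: L') ∧ (l = [] → L = []) := by
  induction l with
  | nil =>
    refine ⟨[], ?_, ?_, ?_, fun _ => rfl⟩
    · exact FreeGroup.IsReduced.nil
    · simp
      rfl
    · simp
  | cons a l ih =>
    obtain ⟨L, hL, hLm, hh, hn⟩ := ih (List.isChain_cons.1 hl).2
    refine ⟨fst A B φ f a.1 :: L.map (fun q => ((f (HNNExtension.t ^ (a.1 : ℤ) *
      HNNExtension.of a.2)) • q.1, q.2)), ?_, ?_, ?_, ?_⟩
    · cases l with
      | nil =>
        rw [hn rfl]
        exact FreeGroup.IsReduced.singleton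
      | cons b l =>
        obtain ⟨L', hL'⟩ := hh b (by simp)
        subst hL'
        rw [List.map_cons, FreeGroup.isReduced_cons_cons]
        refine ⟨?_, ?_⟩
        · intro h
          have hch : a.2 ∈ HNNExtension.toSubgroup A B a.1 → a.1 = b.1 :=
            (List.isChain_cons_cons.1 hl).1
          -- the case analysis
          rcases Int.units_eq_one_or a.1 with ha | ha <;>
            rcases Int.units_eq_one_or b.1 with hb | hb
          · simp [fst, ha, hb]
          · exfalso
            have h1 : (-1 : ℤˣ) ≠ 1 := by decide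
            rw [ha, hb] at h
            simp only [fst, if_neg h1, if_true] at h
            rw [Units.val_one, zpow_one, map_mul, mul_smul] at h
            have h2 := MulAction.injective _ h
            have h3 := (hx1_iff A B φ f _).1 h2.symm
            obtain ⟨a', ha', hfa⟩ := h3
            have h4 : a' = a.2 := hf hfa
            subst h4
            have h5 := hch (by rw [ha]; exact ha')
            rw [ha, hb] at h5
            exact h1 h5.symm
          · exfalso
            have h1 : (-1 : ℤˣ) ≠ 1 := by decide
            rw [ha, hb] at h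
            simp only [fst, if_neg h1, if_true] at h
            have h2 : (HNNExtension.t : HNNExtension M A B φ) ^ ((-1 : ℤˣ) : ℤ) =
              HNNExtension.t⁻¹ := by simp
            rw [h2, smul_smul] at h
            have h3 := (hx1_iff A B φ f _).1 h.symm
            obtain ⟨a', ha', hfa⟩ := h3
            have h4 : f (HNNExtension.of ((φ ⟨a', ha'⟩ : B) : M)) = f (HNNExtension.of a.2) := by
              have h6 := HNNExtension.t_mul_of (φ := φ) ⟨a', ha'⟩
              have h7 : f (HNNExtension.of a') = f (HNNExtension.t⁻¹ * HNNExtension.of a.2) *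
                f HNNExtension.t := hfa
              have h8 := congrArg f h6
              rw [map_mul, map_mul] at h8
              rw [map_mul, map_inv] at h7
              have h9 : f HNNExtension.t * f (HNNExtension.of a') =
                f (HNNExtension.of a.2) * f HNNExtension.t := by
                rw [h7]; group
              have h10 := h8.symm.trans h9
              exact mul_right_cancel h10
            have h5 : ((φ ⟨a', ha'⟩ : B) : M) = a.2 := hf h4
            have h6 := hch (by rw [ha, ← h5]; exact (φ ⟨a', ha'⟩).2)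
            rw [ha, hb] at h6
            exact h1 h6
          · simp [fst, ha, hb]
        · have := reduced_map (f (HNNExtension.t ^ (a.1 : ℤ) * HNNExtension.of a.2)) _ hL
          rwa [List.map_cons] at this
    · rw [List.map_cons, List.prod_cons, Th_left_mul, hLm, permAut_mk, Th_left_mul, Th_left_of,
        map_one, mul_one, Th_left_t, FreeGroup.mul_mk]
      rfl
    · intro x hx
      simp at hx
      subst hx
      exact ⟨_, rfl⟩
    · intro h
      simp at h

theorem Th_injective (hf : Function.Injective (f.comp HNNExtension.of)) :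
    Function.Injective (Th A B φ f) := by
  rw [injective_iff_map_eq_one]
  intro g hg
  obtain ⟨d⟩ := HNNExtension.NormalWord.TransversalPair.nonempty M A B
  obtain ⟨w, rfl⟩ : ∃ w : HNNExtension.NormalWord d, w.prod φ = g :=
    ⟨_, (HNNExtension.NormalWord.equiv φ d).symm_apply_apply g⟩
  obtain ⟨L, hL, hLm, hh, hn⟩ := main A B φ f hf w.toList w.chain
  have h1 : (Th A B φ f (w.prod φ)).left =
      permAut _ P (f (HNNExtension.of w.head)) (FreeGroup.mk L) := by
    rw [← hLm, HNNExtension.NormalWord.ReducedWord.prod, Th_left_mul, Th_left_of, one_mul]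
  have h2 : L = [] := by
    rw [hg] at h1
    have h3 : FreeGroup.mk L = 1 := by
      have h4 : permAut _ P (f (HNNExtension.of w.head)) (FreeGroup.mk L) = 1 := h1.symm
      rwa [MulEquiv.map_eq_one_iff] at h4
    classical
    have h5 : (FreeGroup.mk L).toWord = L := by
      rw [FreeGroup.toWord_mk]
      exact hL.reduce_eq
    rw [← h5, h3]
    simp
  have h3 : w.toList = [] := by
    cases h : w.toList with
    | nil => rfl
    | cons a l =>
      obtain ⟨L', hL'⟩ := hh a (by rw [h]; rfl)
      rw [h2] at hL'
      simp at hL'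
  have h4 : w.prod φ = HNNExtension.of w.head := by
    rw [HNNExtension.NormalWord.ReducedWord.prod, h3]
    simp
  rw [h4] at hg ⊢
  have h5 := Th_right A B φ f (HNNExtension.of w.head)
  rw [hg] at h5
  have h6 : (f.comp HNNExtension.of) w.head = (f.comp HNNExtension.of) 1 := by
    rw [map_one]
    exact h5.symm
  rw [hf h6, map_one]

end hnn

theorem t_hnn (hperm : S_PERM) : S_HNN := by
  intro C hC M P _ _ A B φ f hf hCP
  exact hC.base.of_injective _ _ (Th A B φ f) (Th_injective A B φ f hf)
    (hperm C hC _ P hCP)

end Pool.Agent.R779.FJ
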