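import Pool.Agent.R779.FJ.Hnn
import Pool.Agent.Y430.SS.Lf

/-!
# Even Artin groups
-/

set_option autoImplicit false

namespace Pool.Agent.R779.FJ.Ea

open Pool.Agent.Y110.FJ
open Pool.Agent.Y462.SS (Closed)

variable {V : Type} {k : V → V → ℕ}

/-- the relations `(x_v x_w) ^ k = (x_w x_v) ^ k`, `k = k v w` (no relation if `k v w = 0`) -/
def rels (k : V → V → ℕ) : Set (FreeGroup V) :=
  {r | ∃ v w : V, v ≠ w ∧ r = (FreeGroup.of v * FreeGroup.of w) ^ k v w *
    ((FreeGroup.of w * FreeGroup.of v) ^ k v w)⁻¹}

/-- the even Artin group with the labels `2 k v w` (`∞` if `k v w = 0`) -/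
abbrev EArt (k : V → V → ℕ) : Type := PresentedGroup (rels k)

/-- the generator of the vertex `v` -/
def gen (k : V → V → ℕ) (v : V) : EArt k := PresentedGroup.of v

theorem rel {v w : V} (h : v ≠ w) :
    (gen k v * gen k w) ^ k v w = (gen k w * gen k v) ^ k v w := by
  have h1 : (PresentedGroup.mk (rels k)) ((FreeGroup.of v * FreeGroup.of w) ^ k v w *
    ((FreeGroup.of w * FreeGroup.of v) ^ k v w)⁻¹) = 1 :=
    PresentedGroup.one_of_mem ⟨v, w, h, rfl⟩
  rw [map_mul, map_inv, mul_inv_eq_one, map_pow, map_pow, map_mul, map_mul] at h1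
  exact h1

theorem aux_rel {H : Type} [Group H] (f : V → H)
    (hf : ∀ v w, v ≠ w → (f v * f w) ^ k v w = (f w * f v) ^ k v w) :
    ∀ r ∈ rels k, FreeGroup.lift f r = 1 := by
  rintro _ ⟨v, w, h, rfl⟩
  rw [map_mul, map_inv, mul_inv_eq_one, map_pow, map_pow, map_mul, map_mul,
    FreeGroup.lift_apply_of, FreeGroup.lift_apply_of]
  exact hf v w h

/-- homomorphisms out of an even Artin group -/
def lift {H : Type} [Group H] (f : V → H)
    (hf : ∀ v w, v ≠ w → (f v * f w) ^ k v w = (f w * f v) ^ k v w) : EArt k →* H :=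
  PresentedGroup.toGroup (aux_rel f hf)

theorem lift_gen {H : Type} [Group H] (f : V → H)
    (hf : ∀ v w, v ≠ w → (f v * f w) ^ k v w = (f w * f v) ^ k v w) (v : V) :
    lift f hf (gen k v) = f v :=
  PresentedGroup.toGroup.of (aux_rel f hf)

/-- the subgroup generated by some vertices -/
def sub (k : V → V → ℕ) (U : Set V) : Subgroup (EArt k) :=
  Subgroup.closure (gen k '' U)

theorem gen_mem {U : Set V} {v : V} (hv : v ∈ U) : gen k v ∈ sub k U :=
  Subgroup.subset_closure ⟨v, hv, rfl⟩

theorem sub_mono {U U' : Set V} (h : U ⊆ U') : sub k U ≤ sub k U' :=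
  Subgroup.closure_mono (Set.image_mono h)

theorem sub_univ : sub k Set.univ = ⊤ := by
  rw [sub, Set.image_univ]
  exact PresentedGroup.closure_range_of (rels k)

theorem exists_fin (x : EArt k) : ∃ U : Finset V, x ∈ sub k (U : Set V) := by
  classical
  have hx : x ∈ sub k Set.univ := by rw [sub_univ]; trivial
  induction hx using Subgroup.closure_induction with
  | mem x hx =>
    obtain ⟨v, -, rfl⟩ := hx
    exact ⟨{v}, gen_mem (by simp)⟩
  | one => exact ⟨∅, Subgroup.one_mem _⟩
  | mul x y _ _ hx hy =>
    obtain ⟨U, hU⟩ := hx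
    obtain ⟨U', hU'⟩ := hy
    refine ⟨U ∪ U', Subgroup.mul_mem _ (sub_mono ?_ hU) (sub_mono ?_ hU')⟩
    · simp
    · simp
  | inv x _ hx =>
    obtain ⟨U, hU⟩ := hx
    exact ⟨U, Subgroup.inv_mem _ hU⟩

theorem eqOn {H : Type} [Group H] {f g : EArt k →* H} {U : Set V}
    (h : ∀ v ∈ U, f (gen k v) = g (gen k v)) (x : EArt k) (hx : x ∈ sub k U) : f x = g x := by
  induction hx using Subgroup.closure_induction with
  | mem x hx =>
    obtain ⟨v, hv, rfl⟩ := hx
    exact h v hv
  | one => rw [map_one, map_one]
  | mul x y _ _ hx hy => rw [map_mul, map_mul, hx, hy]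
  | inv x _ hx => rw [map_inv, map_inv, hx]

theorem hom_ext {H : Type} [Group H] {f g : EArt k →* H}
    (h : ∀ v, f (gen k v) = g (gen k v)) : f = g :=
  MonoidHom.ext fun x => eqOn (U := Set.univ) (fun v _ => h v) x (by rw [sub_univ]; trivial)

theorem map_mem {H : Type} [Group H] {f : EArt k →* H} {U : Set V} {K : Subgroup H}
    (h : ∀ v ∈ U, f (gen k v) ∈ K) (x : EArt k) (hx : x ∈ sub k U) : f x ∈ K := by
  have h1 : sub k U ≤ K.comap f := by
    rw [sub, Subgroup.closure_le]
    rintro _ ⟨v, hv, rfl⟩
    exact h v hv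
  exact h1 hx

open Classical in
/-- the retraction -/
noncomputable def ret (k : V → V → ℕ) (U : Set V) : EArt k →* EArt k :=
  lift (fun v => if v ∈ U then gen k v else 1) (by
    intro v w h
    by_cases hv : v ∈ U
    · by_cases hw : w ∈ U
      · rw [if_pos hv, if_pos hw]
        exact rel h
      · rw [if_neg hw, mul_one, one_mul]
    · rw [if_neg hv, mul_one, one_mul])

theorem ret_of_mem {U : Set V} {v : V} (hv : v ∈ U) : ret k U (gen k v) = gen k v := by
  rw [ret, lift_gen, if_pos hv]

theorem ret_of_not_mem {U : Set V} {v : V} (hv : v ∉ U) : ret k U (gen k v) = 1 := by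
  rw [ret, lift_gen, if_neg hv]

theorem ret_mem (U : Set V) (x : EArt k) : ret k U x ∈ sub k U := by
  refine map_mem (U := Set.univ) ?_ x (by rw [sub_univ]; trivial)
  intro v _
  by_cases hv : v ∈ U
  · rw [ret_of_mem hv]
    exact gen_mem hv
  · rw [ret_of_not_mem hv]
    exact Subgroup.one_mem _

theorem ret_eq {U : Set V} {x : EArt k} (hx : x ∈ sub k U) : ret k U x = x :=
  eqOn (f := ret k U) (g := MonoidHom.id _) (fun _ hv => ret_of_mem hv) x hx

theorem ret_one {U U' : Set V} (h : Disjoint U U') {x : EArt k} (hx : x ∈ sub k U) :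
    ret k U' x = 1 :=
  eqOn (f := ret k U') (g := 1)
    (fun _ hv => ret_of_not_mem (fun h' => Set.disjoint_left.1 h hv h')) x hx

/-- the decomposition -/
theorem amg (hk : ∀ v w, k v w = k w v) (U : Set V) (v : V) (hv : v ∉ U) (L : Set V)
    (hL : L = {u | u ∈ U ∧ k v u ≠ 0}) :
    Amg ((sub k U).subgroupOf (sub k (insert v U)))
      ((sub k (insert v L)).subgroupOf (sub k (insert v U)))
      ((sub k L).subgroupOf (sub k (insert v U))) := by
  classical
  have hLU : L ⊆ U := by
    rw [hL]
    exact fun u hu => hu.1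
  refine ⟨?_, ?_, ?_, ?_⟩
  · exact Subgroup.comap_mono (sub_mono hLU)
  · exact Subgroup.comap_mono (sub_mono (Set.subset_insert v L))
  · rw [eq_top_iff]
    rintro ⟨x, hx⟩ -
    have : x ∈ ((sub k U).subgroupOf (sub k (insert v U)) ⊔
        (sub k (insert v L)).subgroupOf (sub k (insert v U))).map
          (sub k (insert v U)).subtype := by
      have h2 : sub k (insert v U) ≤ ((sub k U).subgroupOf
          (sub k (insert v U)) ⊔ (sub k (insert v L)).subgroupOf
            (sub k (insert v U))).map (sub k (insert v U)).subtype := by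
        conv_lhs => rw [sub]
        rw [Subgroup.closure_le]
        rintro _ ⟨u, hu, rfl⟩
        refine ⟨⟨gen k u, gen_mem hu⟩, ?_, rfl⟩
        rcases hu with rfl | hu
        · exact (le_sup_right : (sub k (insert u L)).subgroupOf
            (sub k (insert u U)) ≤ _) (gen_mem (Set.mem_insert u L))
        · exact (le_sup_left : (sub k U).subgroupOf
            (sub k (insert v U)) ≤ _) (gen_mem hu)
      exact h2 hx
    obtain ⟨y, hy, hyx⟩ := this
    have : y = ⟨x, hx⟩ := Subtype.ext hyx
    rwa [← this]
  · intro H _ f g hfg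
    have hU' : ∀ x : EArt k, ret k U x ∈ sub k (insert v U) := fun x =>
      sub_mono (Set.subset_insert v U) (ret_mem U x)
    have hLv : (insert v L : Set V) ⊆ insert v U := Set.insert_subset_insert hLU
    have hL' : ∀ x : EArt k, ret k (insert v L) x ∈ sub k (insert v U) :=
      fun x => sub_mono hLv (ret_mem _ x)
    let rU : EArt k →* ↥((sub k U).subgroupOf (sub k (insert v U))) :=
      ((ret k U).codRestrict (sub k (insert v U)) hU').codRestrict _ (fun x => ret_mem U x)
    let rL : EArt k →* ↥((sub k (insert v L)).subgroupOf (sub k (insert v U))) :=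
      ((ret k (insert v L)).codRestrict (sub k (insert v U)) hL').codRestrict _
        (fun x => ret_mem _ x)
    have hrU : ∀ (x : EArt k) (hx : x ∈ sub k U),
        rU x = ⟨⟨x, sub_mono (Set.subset_insert v U) hx⟩, hx⟩ := by
      intro x hx
      apply Subtype.ext
      apply Subtype.ext
      exact ret_eq hx
    have hrL : ∀ (x : EArt k) (hx : x ∈ sub k (insert v L)),
        rL x = ⟨⟨x, sub_mono hLv hx⟩, hx⟩ := by
      intro x hx
      apply Subtype.ext
      apply Subtype.ext
      exact ret_eq hx
    have hagree : ∀ x ∈ sub k L, f (rU x) = g (rL x) := by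
      intro x hx
      rw [hrU x (sub_mono hLU hx), hrL x (sub_mono (Set.subset_insert v L) hx)]
      exact hfg ⟨x, _⟩ hx
    have hout : ∀ u, u ∉ U → rU (gen k u) = 1 := by
      intro u hu
      apply Subtype.ext
      apply Subtype.ext
      exact ret_of_not_mem hu
    let fam : V → H := fun u => if u = v then g (rL (gen k u)) else f (rU (gen k u))
    have hfam1 : fam v = g (rL (gen k v)) := if_pos rfl
    have hfam2 : ∀ u, u ≠ v → fam u = f (rU (gen k u)) := fun u hu => if_neg hu
    have hcomm1 : ∀ w, v ≠ w → (fam v * fam w) ^ k v w = (fam w * fam v) ^ k v w := by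
      intro w h
      rw [hfam1, hfam2 w h.symm]
      by_cases hw : w ∈ U
      · by_cases h0 : k v w = 0
        · rw [h0, pow_zero, pow_zero]
        · have hwL : w ∈ L := by rw [hL]; exact ⟨hw, h0⟩
          rw [hagree _ (gen_mem hwL), ← map_mul, ← map_mul, ← map_mul, ← map_mul, ← map_pow,
            ← map_pow, ← map_pow, ← map_pow, rel h]
      · rw [hout w hw, map_one, mul_one, one_mul]
    let h0 : EArt k →* H := lift fam (by
      intro u w h
      by_cases hu : u = v
      · subst hu
        exact hcomm1 w h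
      · by_cases hw : w = v
        · subst hw
          rw [hk u w]
          exact (hcomm1 u h.symm).symm
        · rw [hfam2 u hu, hfam2 w hw, ← map_mul, ← map_mul, ← map_mul, ← map_mul, ← map_pow,
            ← map_pow, ← map_pow, ← map_pow, rel h])
    refine ⟨h0.comp (sub k (insert v U)).subtype, ?_, ?_⟩
    · rintro ⟨⟨x, hx⟩, hx'⟩
      have h1 : h0 x = (f.comp rU) x := by
        refine eqOn ?_ x hx'
        intro u hu
        have huv : u ≠ v := fun h => hv (h ▸ hu)
        show lift fam _ (gen k u) = _
        rw [lift_gen, hfam2 u huv]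
        rfl
      show h0 x = _
      rw [h1]
      show f (rU x) = _
      rw [hrU x hx']
    · rintro ⟨⟨x, hx⟩, hx'⟩
      have h1 : h0 x = (g.comp rL) x := by
        refine eqOn ?_ x hx'
        intro u hu
        show lift fam _ (gen k u) = _
        rw [lift_gen]
        rcases hu with rfl | hu
        · exact hfam1
        · have huv : u ≠ v := fun h => hv (h ▸ hLU hu)
          rw [hfam2 u huv, hagree _ (gen_mem hu)]
          rfl
      show h0 x = _
      rw [h1]
      show g (rL x) = _
      rw [hrL x hx']

/-- reduction to the complete subgraphs -/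
theorem fin_sub (ham : S_AM) {C : ∀ (G : Type) [Group G], Prop} (hC : ClosedE C)
    (hk : ∀ v w, k v w = k w v)
    (hcl : ∀ U : Finset V, (∀ u ∈ U, ∀ w ∈ U, u ≠ w → k u w ≠ 0) → C ↥(sub k (U : Set V))) :
    ∀ (n : ℕ) (U : Finset V), U.card = n → C ↥(sub k (U : Set V)) := by
  classical
  intro n
  induction n using Nat.strong_induction_on with
  | _ n ih =>
    intro U hU
    by_cases h : ∀ u ∈ U, ∀ w ∈ U, u ≠ w → k u w ≠ 0
    · exact hcl U h
    · push Not at h
      obtain ⟨v, hv, w, hw, hvw, h0⟩ := h
      let U' : Finset V := U.erase v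
      have hU' : U = insert v U' := (Finset.insert_erase hv).symm
      have hvU' : v ∉ (U' : Set V) := by simp [U']
      let L : Finset V := U'.filter fun u => k v u ≠ 0
      have hL : (L : Set V) = {u | u ∈ (U' : Set V) ∧ k v u ≠ 0} := by
        ext u
        simp [L]
      have hwU' : w ∈ U' := Finset.mem_erase.2 ⟨hvw.symm, hw⟩
      have hc1 : U'.card < n := by
        rw [← hU]
        exact Finset.card_erase_lt_of_mem hv
      have hc2 : (insert v L).card < n := by
        have h1 : L.card < U'.card := by
          apply Finset.card_lt_card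
          refine (Finset.ssubset_iff_of_subset (Finset.filter_subset _ _)).2 ⟨w, hwU', ?_⟩
          simp [L, h0]
        have h2 := Finset.card_insert_le v L
        omega
      have e1 := ih _ hc1 U' rfl
      have e2 := ih _ hc2 (insert v L) rfl
      rw [Finset.coe_insert] at e2
      have h3 := amg hk (U' : Set V) v hvU' (L : Set V) hL
      have h4 : (U : Set V) = insert v (U' : Set V) := by rw [hU', Finset.coe_insert]
      rw [h4]
      refine ham C hC _ (↥(sub k (U' : Set V)) × ↥(sub k (insert v (L : Set V)))) _ _ _ h3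
        ((((ret k (U' : Set V)).codRestrict (sub k (U' : Set V)) (ret_mem _)).prod
          ((ret k (insert v (L : Set V))).codRestrict (sub k (insert v (L : Set V)))
            (ret_mem _))).comp (sub k (insert v (U' : Set V))).subtype) ?_ ?_
        (hC.base.prod _ _ e1 e2)
      · rintro ⟨x, hx⟩ hx' h
        have h1 : ret k (U' : Set V) x = 1 := congrArg (fun z => (z.1 : EArt k)) h
        have h2 : ret k (U' : Set V) x = x := ret_eq hx'
        exact Subtype.ext (h2.symm.trans h1)
      · rintro ⟨x, hx⟩ hx' h
        have h1 : ret k (insert v (L : Set V)) x = 1 := congrArg (fun z => (z.2 : EArt k)) h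
        have h2 : ret k (insert v (L : Set V)) x = x := ret_eq hx'
        exact Subtype.ext (h2.symm.trans h1)

/-- the degree -/
noncomputable def deg (k : V → V → ℕ) : EArt k →* Multiplicative ℤ :=
  lift (fun _ => Multiplicative.ofAdd 1) (fun _ _ _ => rfl)

theorem single (C : ∀ (G : Type) [Group G], Prop) (hC : ClosedE C) (v : V) :
    C ↥(sub k ({v} : Set V)) := by
  refine hC.base.of_injective _ (Multiplicative ℤ) ((deg k).comp (sub k ({v} : Set V)).subtype) ?_
    hC.base.int
  rw [injective_iff_map_eq_one]
  rintro ⟨x, hx⟩ h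
  have h1 : x ∈ Subgroup.zpowers (gen k v) := by
    rw [sub, Set.image_singleton, ← Subgroup.zpowers_eq_closure] at hx
    exact hx
  obtain ⟨n, rfl⟩ := h1
  have h2 : deg k (gen k v ^ n) = 1 := h
  rw [map_zpow, deg, lift_gen] at h2
  have h3 : (n : ℤ) * 1 = 0 := by
    have := congrArg Multiplicative.toAdd h2
    simpa using this
  have h4 : n = 0 := by omega
  apply Subtype.ext
  show gen k v ^ n = 1
  rw [h4, zpow_zero]

section pair

/-- `<a, c | a c ^ n = c ^ n a>` -/
abbrev HD (n : ℕ) : Type :=
  HNNExtension (Multiplicative ℤ) (Subgroup.zpowers (Multiplicative.ofAdd (n : ℤ)))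
    (Subgroup.zpowers (Multiplicative.ofAdd (n : ℤ))) (MulEquiv.refl _)

theorem hd_mem (hhnn : S_HNN) {C : ∀ (G : Type) [Group G], Prop} (hC : ClosedE C) (n : ℕ) :
    C (HD n) := by
  let f : HD n →* Multiplicative ℤ := HNNExtension.lift (MonoidHom.id _) 1 (by
    intro a
    simp)
  refine hhnn C hC _ _ _ _ _ f ?_ hC.base.int
  intro x y h
  have h1 : ∀ z, (f.comp HNNExtension.of) z = z := by
    intro z
    show f (HNNExtension.of z) = z
    simp only [f, HNNExtension.lift_of]
    rfl
  rwa [h1, h1] at h

theorem hd_rel (n : ℕ) : (HNNExtension.t : HD n) *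
    HNNExtension.of (Multiplicative.ofAdd (n : ℤ)) =
      HNNExtension.of (Multiplicative.ofAdd (n : ℤ)) * HNNExtension.t := by
  have := HNNExtension.t_mul_of (φ := (MulEquiv.refl
    (Subgroup.zpowers (Multiplicative.ofAdd (n : ℤ))))) ⟨_, Subgroup.mem_zpowers _⟩
  exact this

theorem pair (hhnn : S_HNN) {C : ∀ (G : Type) [Group G], Prop} (hC : ClosedE C)
    (hk : ∀ v w, k v w = k w v) {v w : V} (hvw : v ≠ w) :
    C ↥(sub k ({v, w} : Set V)) := by
  classical
  let c : HD (k v w) := HNNExtension.of (Multiplicative.ofAdd 1)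
  let t : HD (k v w) := HNNExtension.t
  have hcn : c ^ k v w = HNNExtension.of (Multiplicative.ofAdd ((k v w : ℕ) : ℤ)) := by
    show HNNExtension.of (Multiplicative.ofAdd 1) ^ k v w = _
    rw [← map_pow, ← ofAdd_nsmul]
    simp
  have htc : t * c ^ k v w = c ^ k v w * t := by
    rw [hcn]
    exact hd_rel _
  have key : (t * (t⁻¹ * c)) ^ k v w = (t⁻¹ * c * t) ^ k v w := by
    rw [mul_inv_cancel_left]
    have h1 : (t⁻¹ * c * t) = t⁻¹ * c * t⁻¹⁻¹ := by rw [inv_inv]
    rw [h1, conj_pow, inv_inv, mul_assoc, ← htc, inv_mul_cancel_left]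
  let f : V → HD (k v w) := fun u => if u = v then t else if u = w then t⁻¹ * c else 1
  have f1 : f v = t := if_pos rfl
  have f2 : f w = t⁻¹ * c := by
    show (if w = v then t else if w = w then t⁻¹ * c else 1) = _
    rw [if_neg hvw.symm, if_pos rfl]
  have f3 : ∀ u, u ≠ v → u ≠ w → f u = 1 := by
    intro u h1 h2
    show (if u = v then t else if u = w then t⁻¹ * c else 1) = _
    rw [if_neg h1, if_neg h2]
  let F : EArt k →* HD (k v w) := lift f (by
    intro a b hab
    by_cases ha : a = v
    · by_cases hb : b = w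
      · rw [ha, hb, f1, f2]
        exact key
      · rw [f3 b (fun h => hab (ha.trans h.symm)) hb, mul_one, one_mul]
    · by_cases ha' : a = w
      · by_cases hb : b = v
        · rw [ha', hb, f1, f2, hk w v]
          exact key.symm
        · rw [f3 b hb (fun h => hab (ha'.trans h.symm)), mul_one, one_mul]
      · rw [f3 a ha ha', mul_one, one_mul])
  have hz : ∀ x ∈ Subgroup.zpowers (Multiplicative.ofAdd ((k v w : ℕ) : ℤ)),
      gen k v * (zpowersHom (EArt k) (gen k v * gen k w)) x =
        (zpowersHom (EArt k) (gen k v * gen k w)) x * gen k v := by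
    rintro _ ⟨i, rfl⟩
    have h1 : Commute (gen k v) ((gen k v * gen k w) ^ k v w) := by
      show gen k v * (gen k v * gen k w) ^ k v w = (gen k v * gen k w) ^ k v w * gen k v
      have h2 : (gen k w * gen k v) ^ k v w =
          (gen k v)⁻¹ * (gen k v * gen k w) ^ k v w * (gen k v)⁻¹⁻¹ := by
        rw [← conj_pow]
        congr 1
        group
      have h3 := (rel (k := k) hvw).trans h2
      rw [inv_inv] at h3
      calc gen k v * (gen k v * gen k w) ^ k v w =
          gen k v * ((gen k v)⁻¹ * (gen k v * gen k w) ^ k v w * gen k v) := by rw [← h3]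
        _ = _ := by group
    have h4 : (zpowersHom (EArt k) (gen k v * gen k w))
        ((Multiplicative.ofAdd ((k v w : ℕ) : ℤ)) ^ i) =
        ((gen k v * gen k w) ^ k v w) ^ i := by
      rw [map_zpow, zpowersHom_apply]
      simp
    show gen k v * (zpowersHom (EArt k) (gen k v * gen k w))
        ((Multiplicative.ofAdd ((k v w : ℕ) : ℤ)) ^ i) =
      (zpowersHom (EArt k) (gen k v * gen k w))
        ((Multiplicative.ofAdd ((k v w : ℕ) : ℤ)) ^ i) * gen k v
    rw [h4]
    exact (h1.zpow_right i)
  let B : HD (k v w) →* EArt k := HNNExtension.lift (zpowersHom (EArt k) (gen k v * gen k w))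
    (gen k v) (fun a => hz a.1 a.2)
  have hB : ∀ x ∈ sub k ({v, w} : Set V), B (F x) = x := by
    intro x hx
    refine eqOn (f := B.comp F) (g := MonoidHom.id _) ?_ x hx
    intro u hu
    have hBt : B t = gen k v := by
      exact HNNExtension.lift_t _ _ _
    have hBc : B c = gen k v * gen k w := by
      refine (HNNExtension.lift_of _ _ _ _).trans ?_
      rw [zpowersHom_apply]
      simp
    rcases hu with rfl | hu
    · show B (F (gen k u)) = gen k u
      have : F (gen k u) = t := by
        show lift f _ (gen k u) = t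
        rw [lift_gen, f1]
      rw [this, hBt]
    · have hu' : u = w := hu
      subst hu'
      show B (F (gen k u)) = gen k u
      have : F (gen k u) = t⁻¹ * c := by
        show lift f _ (gen k u) = _
        rw [lift_gen, f2]
      rw [this, map_mul, map_inv, hBt, hBc]
      group
  refine hC.base.of_injective _ (HD (k v w)) (F.comp (sub k ({v, w} : Set V)).subtype) ?_
    (hd_mem hhnn hC _)
  rintro ⟨x, hx⟩ ⟨y, hy⟩ h
  have h1 : F x = F y := h
  have h2 := congrArg B h1
  rw [hB x hx, hB y hy] at h2
  exact Subtype.ext h2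

end pair

/-- direct products -/
theorem dprod {C : ∀ (G : Type) [Group G], Prop} (hC : ClosedE C) (U₁ U₂ : Set V)
    (hd : Disjoint U₁ U₂) (h : ∀ v ∈ U₁, ∀ w ∈ U₂, k v w = 1)
    (h1 : C ↥(sub k U₁)) (h2 : C ↥(sub k U₂)) : C ↥(sub k (U₁ ∪ U₂)) := by
  have hcomm1 : ∀ v ∈ U₁, ∀ w ∈ U₂, Commute (gen k v) (gen k w) := by
    intro v hv w hw
    have hne : v ≠ w := fun hh => Set.disjoint_left.1 hd hv (hh ▸ hw)
    have := rel (k := k) hne
    rw [h v hv w hw, pow_one, pow_one] at this
    exact this
  have hcomm2 : ∀ v ∈ U₁, ∀ y ∈ sub k U₂, Commute (gen k v) y := by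
    intro v hv y hy
    induction hy using Subgroup.closure_induction with
    | mem y hy =>
      obtain ⟨u, hu, rfl⟩ := hy
      exact hcomm1 v hv u hu
    | one => exact Commute.one_right _
    | mul y z _ _ hy hz => exact hy.mul_right hz
    | inv y _ hy => exact hy.inv_right
  have hcomm : ∀ x ∈ sub k U₁, ∀ y ∈ sub k U₂, Commute x y := by
    intro x hx y hy
    induction hx using Subgroup.closure_induction with
    | mem x hx =>
      obtain ⟨u, hu, rfl⟩ := hx
      exact hcomm2 u hu y hy
    | one => exact Commute.one_left _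
    | mul x z _ _ hx hz => exact hx.mul_left hz
    | inv x _ hx => exact hx.inv_left
  have hfac : ∀ x ∈ sub k (U₁ ∪ U₂), ∃ a ∈ sub k U₁, ∃ b ∈ sub k U₂, x = a * b := by
    intro x hx
    induction hx using Subgroup.closure_induction with
    | mem x hx =>
      obtain ⟨u, hu, rfl⟩ := hx
      rcases hu with hu | hu
      · exact ⟨_, gen_mem hu, 1, Subgroup.one_mem _, (mul_one _).symm⟩
      · exact ⟨1, Subgroup.one_mem _, _, gen_mem hu, (one_mul _).symm⟩
    | one => exact ⟨1, Subgroup.one_mem _, 1, Subgroup.one_mem _, (mul_one _).symm⟩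
    | mul x y _ _ hx hy =>
      obtain ⟨a, ha, b, hb, rfl⟩ := hx
      obtain ⟨a', ha', b', hb', rfl⟩ := hy
      refine ⟨a * a', Subgroup.mul_mem _ ha ha', b * b', Subgroup.mul_mem _ hb hb', ?_⟩
      have := (hcomm a' ha' b hb).eq
      calc a * b * (a' * b') = a * (b * a') * b' := by group
        _ = a * (a' * b) * b' := by rw [this]
        _ = _ := by group
    | inv x _ hx =>
      obtain ⟨a, ha, b, hb, rfl⟩ := hx
      refine ⟨a⁻¹, Subgroup.inv_mem _ ha, b⁻¹, Subgroup.inv_mem _ hb, ?_⟩
      rw [mul_inv_rev]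
      exact ((hcomm a ha b hb).inv_inv).eq.symm
  refine hC.base.of_injective _ (↥(sub k U₁) × ↥(sub k U₂))
    ((((ret k U₁).codRestrict (sub k U₁) (ret_mem _)).prod
      ((ret k U₂).codRestrict (sub k U₂) (ret_mem _))).comp (sub k (U₁ ∪ U₂)).subtype) ?_
      (hC.base.prod _ _ h1 h2)
  rw [injective_iff_map_eq_one]
  rintro ⟨x, hx⟩ he
  obtain ⟨a, ha, b, hb, rfl⟩ := hfac x hx
  have e1 : ret k U₁ (a * b) = 1 := congrArg (fun z => (z.1 : EArt k)) he
  have e2 : ret k U₂ (a * b) = 1 := congrArg (fun z => (z.2 : EArt k)) he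
  rw [map_mul, ret_eq ha, ret_one hd.symm hb, mul_one] at e1
  rw [map_mul, ret_eq hb, ret_one hd ha, one_mul] at e2
  apply Subtype.ext
  show a * b = 1
  rw [e1, e2, mul_one]

/-- complete graphs of type FC -/
theorem clique (hhnn : S_HNN) {C : ∀ (G : Type) [Group G], Prop} (hC : ClosedE C)
    (hk : ∀ v w, k v w = k w v) :
    ∀ (n : ℕ) (U : Finset V), U.card = n → (∀ u ∈ U, ∀ w ∈ U, u ≠ w → k u w ≠ 0) →
      (∀ u ∈ U, ∀ v ∈ U, ∀ w ∈ U, u ≠ v → v ≠ w → u ≠ w → k u v = 1 ∨ k v w = 1) →
      C ↥(sub k (U : Set V)) := by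
  classical
  intro n
  induction n using Nat.strong_induction_on with
  | _ n ih =>
    intro U hU hcl hfc
    rcases U.eq_empty_or_nonempty with rfl | ⟨v, hv⟩
    · have : sub k ((∅ : Finset V) : Set V) = ⊥ := by
        rw [eq_bot_iff, sub, Subgroup.closure_le]
        rintro _ ⟨v, hv, -⟩
        simp at hv
      rw [this]
      exact Pool.Agent.Y430.SS.of_finite hC.base _ inferInstance
    · by_cases h1 : ∀ u ∈ U, u ≠ v → k v u = 1
      · have e : (U : Set V) = {v} ∪ ((U.erase v : Finset V) : Set V) := by
          ext u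
          simp only [Finset.mem_coe, Set.mem_union, Set.mem_singleton_iff, Finset.mem_erase]
          constructor
          · intro h
            by_cases huv : u = v
            · exact Or.inl huv
            · exact Or.inr ⟨huv, h⟩
          · rintro (rfl | h)
            · exact hv
            · exact h.2
        rw [e]
        refine dprod hC _ _ ?_ ?_ (single C hC v) ?_
        · rw [Set.disjoint_singleton_left]
          simp
        · rintro a ha w hw
          have ha' : a = v := ha
          subst ha'
          exact h1 w (Finset.mem_of_mem_erase hw) (Finset.ne_of_mem_erase hw)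
        · refine ih _ ?_ (U.erase v) rfl ?_ ?_
          · rw [← hU]
            exact Finset.card_erase_lt_of_mem hv
          · exact fun u hu w hw => hcl u (Finset.mem_of_mem_erase hu) w (Finset.mem_of_mem_erase hw)
          · exact fun u hu x hx w hw => hfc u (Finset.mem_of_mem_erase hu) x
              (Finset.mem_of_mem_erase hx) w (Finset.mem_of_mem_erase hw)
      · push Not at h1
        obtain ⟨w, hw, hwv, hkw⟩ := h1
        let U' : Finset V := (U.erase v).erase w
        have e : (U : Set V) = {v, w} ∪ (U' : Set V) := by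
          ext u
          simp only [Finset.mem_coe, Set.mem_union, Set.mem_insert_iff, Set.mem_singleton_iff,
            U', Finset.mem_erase]
          constructor
          · intro h
            by_cases huv : u = v
            · exact Or.inl (Or.inl huv)
            · by_cases huw : u = w
              · exact Or.inl (Or.inr huw)
              · exact Or.inr ⟨huw, huv, h⟩
          · rintro ((rfl | rfl) | h)
            · exact hv
            · exact hw
            · exact h.2.2
        have hsub : ∀ u ∈ U', u ∈ U ∧ u ≠ v ∧ u ≠ w := by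
          intro u hu
          simp only [U', Finset.mem_erase] at hu
          exact ⟨hu.2.2, hu.2.1, hu.1⟩
        rw [e]
        refine dprod hC _ _ ?_ ?_ (pair hhnn hC hk hwv.symm) ?_
        · rw [Set.disjoint_left]
          rintro a (rfl | ha) hb
          · exact (hsub _ hb).2.1 rfl
          · have ha' : a = w := ha
            exact (hsub _ hb).2.2 ha'
        · rintro a ha u hu
          obtain ⟨hu1, hu2, hu3⟩ := hsub u hu
          rcases ha with rfl | ha
          · rcases hfc w hw a hv u hu1 hwv hu2.symm hu3.symm with h | h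
            · exact absurd ((hk a w).trans h) hkw
            · exact h
          · have ha' : a = w := ha
            subst ha'
            rcases hfc v hv a hw u hu1 hwv.symm hu3.symm hu2.symm with h | h
            · exact absurd h hkw
            · exact h
        · refine ih _ ?_ U' rfl ?_ ?_
          · rw [← hU]
            refine lt_of_le_of_lt (Finset.card_le_card (Finset.erase_subset _ _)) ?_
            exact Finset.card_erase_lt_of_mem hv
          · exact fun u hu x hx => hcl u (hsub u hu).1 x (hsub x hx).1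
          · exact fun u hu x hx y hy => hfc u (hsub u hu).1 x (hsub x hx).1 y (hsub y hy).1

end Pool.Agent.R779.FJ.Ea
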