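import Mathlib

/-!
# Partial isomorphisms of finite labelled graphs extend to automorphisms of finite larger ones

A version which does not create new complete subgraphs: copies of the graph are glued cyclically.
-/

set_option autoImplicit false

namespace Pool.Agent.R779.FJ

theorem zmod_int_eq {n : ℕ} {a b : ℤ} (h : (a : ZMod n) = b) (h1 : a - b < n) (h2 : b - a < n) :
    a = b := by
  have h3 := (ZMod.intCast_eq_intCast_iff_dvd_sub a b n).1 h
  obtain ⟨c, hc⟩ := h3
  rcases lt_trichotomy c 0 with h4 | h4 | h4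
  · exfalso
    have : (n : ℤ) * c ≤ (n : ℤ) * (-1) := mul_le_mul_of_nonneg_left (by omega) (by positivity)
    omega
  · rw [h4, mul_zero] at hc
    omega
  · exfalso
    have : (n : ℤ) * 1 ≤ (n : ℤ) * c := mul_le_mul_of_nonneg_left (by omega) (by positivity)
    omega

section

variable {S : Type} {D : Set S} {g : S → S}

theorem iter_inj (hinj : ∀ x ∈ D, ∀ y ∈ D, g x = g y → x = y) :
    ∀ (d : ℕ) (x y : S), (∀ i < d, g^[i] x ∈ D) → (∀ i < d, g^[i] y ∈ D) →
      g^[d] x = g^[d] y → x = y := by
  intro d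
  induction d with
  | zero => intro x y _ _ h; exact h
  | succ d ih =>
    intro x y hx hy h
    rw [Function.iterate_succ_apply', Function.iterate_succ_apply'] at h
    exact ih x y (fun i hi => hx i (by omega)) (fun i hi => hy i (by omega))
      (hinj _ (hx d (by omega)) _ (hy d (by omega)) h)

theorem lab_iter {L : Type} {m : S → S → L}
    (hlab : ∀ x ∈ D, ∀ y ∈ D, m (g x) (g y) = m x y) :
    ∀ (d : ℕ) (x y : S), (∀ i < d, g^[i] x ∈ D) → (∀ i < d, g^[i] y ∈ D) →
      m (g^[d] x) (g^[d] y) = m x y := by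
  intro d
  induction d with
  | zero => intro x y _ _; rfl
  | succ d ih =>
    intro x y hx hy
    rw [Function.iterate_succ_apply', Function.iterate_succ_apply',
      hlab _ (hx d (by omega)) _ (hy d (by omega))]
    exact ih x y (fun i hi => hx i (by omega)) (fun i hi => hy i (by omega))

end

/-- cyclic gluing -/
theorem eppaC {L : Type} (l0 : L) (S : Type) (hS : Finite S) (m : S → S → L)
    (hm : ∀ x y, m x y = m y x) (D : Set S) (f : D → S) (hf : Function.Injective f)
    (hadj : ∀ x y : D, m (f x) (f y) = m x y) :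
    ∃ (T : Type) (_ : Finite T) (m' : T → T → L) (ι : S → T) (θ : Equiv.Perm T),
      (∀ x y, m' x y = m' y x) ∧ Function.Injective ι ∧ (∀ x y, m' (ι x) (ι y) = m x y) ∧
      (∀ x y, m' (θ x) (θ y) = m' x y) ∧ (∀ x : D, θ (ι x) = ι (f x)) ∧
      ∀ K : Set T, (∀ u ∈ K, ∀ v ∈ K, u ≠ v → m' u v ≠ l0) →
        ∃ t : ℕ, ∀ u ∈ K, ∃ x, θ^[t] u = ι x := by
  classical
  have : Fintype S := Fintype.ofFinite S
  let g : S → S := fun x => if h : x ∈ D then f ⟨x, h⟩ else x
  have hgD : ∀ (x : S) (h : x ∈ D), g x = f ⟨x, h⟩ := fun x h => dif_pos h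
  have hinj : ∀ x ∈ D, ∀ y ∈ D, g x = g y → x = y := by
    intro x hx y hy h
    rw [hgD x hx, hgD y hy] at h
    exact congrArg Subtype.val (hf h)
  have hlab : ∀ x ∈ D, ∀ y ∈ D, m (g x) (g y) = m x y := by
    intro x hx y hy
    rw [hgD x hx, hgD y hy]
    exact hadj ⟨x, hx⟩ ⟨y, hy⟩
  let Co : Set S := {x | ∀ i, g^[i] x ∈ D}
  have hCoD : ∀ x ∈ Co, x ∈ D := fun x hx => hx 0
  have hCog : ∀ x ∈ Co, g x ∈ Co := by
    intro x hx i
    have := hx (i + 1)
    rwa [Function.iterate_succ_apply] at this
  have hnc : ∀ x, x ∉ Co → ∃ i, g^[i] x ∉ D := by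
    intro x hx
    by_contra hcon
    push Not at hcon
    exact hx hcon
  -- the time to leave
  let τ : S → ℕ := fun x => if h : ∃ i, g^[i] x ∉ D then Nat.find h else 0
  have hτ1 : ∀ x, x ∉ Co → g^[τ x] x ∉ D := by
    intro x hx
    have h := hnc x hx
    show g^[if h : ∃ i, g^[i] x ∉ D then Nat.find h else 0] x ∉ D
    rw [dif_pos h]
    exact Nat.find_spec h
  have hτ2 : ∀ x, x ∉ Co → ∀ i < τ x, g^[i] x ∈ D := by
    intro x hx i hi
    have h := hnc x hx
    have hi' : i < if h : ∃ i, g^[i] x ∉ D then Nat.find h else 0 := hi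
    rw [dif_pos h] at hi'
    by_contra hcon
    exact Nat.find_min h hi' hcon
  have hτu : ∀ x, x ∉ Co → ∀ j, g^[j] x ∉ D → (∀ i < j, g^[i] x ∈ D) → τ x = j := by
    intro x hx j h1 h2
    rcases lt_trichotomy (τ x) j with h | h | h
    · exact absurd (h2 _ h) (hτ1 x hx)
    · exact h
    · exact absurd (hτ2 x hx j h) h1
  -- iterates of elements outside of the core
  have hnci : ∀ x, x ∉ Co → ∀ d ≤ τ x, g^[d] x ∉ Co ∧ τ (g^[d] x) = τ x - d ∧
      g^[τ (g^[d] x)] (g^[d] x) = g^[τ x] x := by
    intro x hx d hd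
    have h1 : g^[d] x ∉ Co := by
      intro h
      have := h (τ x - d)
      rw [← Function.iterate_add_apply, Nat.sub_add_cancel hd] at this
      exact hτ1 x hx this
    have h2 : τ (g^[d] x) = τ x - d := by
      apply hτu _ h1
      · rw [← Function.iterate_add_apply, Nat.sub_add_cancel hd]
        exact hτ1 x hx
      · intro i hi
        rw [← Function.iterate_add_apply]
        exact hτ2 x hx _ (by omega)
    refine ⟨h1, h2, ?_⟩
    rw [h2, ← Function.iterate_add_apply, Nat.sub_add_cancel hd]
  obtain ⟨N, hN⟩ : ∃ N : ℕ, ∀ x, τ x < N :=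
    ⟨(Finset.univ.sup τ) + 1, fun x => Nat.lt_succ_of_le (Finset.le_sup (Finset.mem_univ x))⟩
  -- the core
  let gc : Co → Co := fun x => ⟨g x.1, hCog x.1 x.2⟩
  have hgci : Function.Injective gc := by
    intro x y h
    exact Subtype.ext (hinj _ (hCoD _ x.2) _ (hCoD _ y.2) (congrArg Subtype.val h))
  let θc : Equiv.Perm Co := Equiv.ofBijective gc (Finite.injective_iff_bijective.1 hgci)
  have hθc : ∀ x, (θc x : S) = g x := fun x => rfl
  let n : ℕ := 4 * (N + 1) * orderOf θc
  have hord : 0 < orderOf θc := orderOf_pos θc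
  have hn4 : 4 * N < n := by
    have : 4 * (N + 1) * 1 ≤ 4 * (N + 1) * orderOf θc := Nat.mul_le_mul_left _ hord
    show 4 * N < 4 * (N + 1) * orderOf θc
    omega
  have hn0 : 0 < n := by omega
  haveI : NeZero n := ⟨hn0.ne'⟩
  let E : Type := {x : S // x ∉ D}
  let T : Type := Co ⊕ (E × ZMod n)
  let θ : Equiv.Perm T := Equiv.sumCongr θc (Equiv.prodCongr (Equiv.refl E) (Equiv.addRight 1))
  have hθl : ∀ (t : ℕ) (c : Co), θ^[t] (Sum.inl c) = Sum.inl ((θc ^ t) c) := by
    intro t c
    induction t with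
    | zero => rfl
    | succ t ih =>
      rw [Function.iterate_succ_apply', ih, pow_succ']
      rfl
  have hθr : ∀ (t : ℕ) (e : E) (i : ZMod n), θ^[t] (Sum.inr (e, i)) = Sum.inr (e, i + t) := by
    intro t e i
    induction t with
    | zero => simp
    | succ t ih =>
      rw [Function.iterate_succ_apply', ih]
      show (Sum.inr (e, i + (t : ZMod n) + 1) : T) = _
      rw [Nat.cast_succ, add_assoc]
  have hper : ∀ (s t : ℕ), (s : ZMod n) = t → ∀ u, θ^[s] u = θ^[t] u := by
    intro s t hst u
    rcases u with c | ⟨e, i⟩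
    · rw [hθl, hθl]
      have h1 : (s ≡ t [MOD n]) := (ZMod.natCast_eq_natCast_iff s t n).1 hst
      have h2 : (s ≡ t [MOD orderOf θc]) := h1.of_dvd ⟨4 * (N + 1), by ring⟩
      rw [(pow_eq_pow_iff_modEq (x := θc)).2 h2]
    · rw [hθr, hθr, hst]
  let ι : S → T := fun x => if h : x ∈ Co then Sum.inl ⟨x, h⟩ else
    Sum.inr (⟨g^[τ x] x, hτ1 x h⟩, -(τ x : ZMod n))
  have hιc : ∀ (x : S) (h : x ∈ Co), ι x = Sum.inl ⟨x, h⟩ := fun x h => dif_pos h
  have hιn : ∀ (x : S) (h : x ∉ Co), ι x = Sum.inr (⟨g^[τ x] x, hτ1 x h⟩, -(τ x : ZMod n)) :=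
    fun x h => dif_neg h
  have hιinj : Function.Injective ι := by
    intro x y hxy
    by_cases hx : x ∈ Co
    · by_cases hy : y ∈ Co
      · rw [hιc x hx, hιc y hy] at hxy
        exact congrArg Subtype.val (Sum.inl_injective hxy)
      · rw [hιc x hx, hιn y hy] at hxy
        exact absurd hxy Sum.inl_ne_inr
    · by_cases hy : y ∈ Co
      · rw [hιn x hx, hιc y hy] at hxy
        exact absurd hxy Sum.inr_ne_inl
      · rw [hιn x hx, hιn y hy] at hxy
        have h1 := Sum.inr_injective hxy
        have h2 : g^[τ x] x = g^[τ y] y := congrArg (fun z => (z.1 : S)) h1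
        have h3 : -(τ x : ZMod n) = -(τ y : ZMod n) := congrArg (fun z => z.2) h1
        have h4 : ((τ x : ℤ) : ZMod n) = ((τ y : ℤ) : ZMod n) := by
          push_cast
          exact neg_injective h3
        have h5 := zmod_int_eq h4 (by have := hN x; have := hN y; omega)
          (by have := hN x; have := hN y; omega)
        have h6 : τ x = τ y := by exact_mod_cast h5
        rw [← h6] at h2
        refine iter_inj hinj (τ x) x y (hτ2 x hx) ?_ h2
        rw [h6]
        exact hτ2 y hy
  have hθι : ∀ x ∈ D, θ (ι x) = ι (g x) := by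
    intro x hxD
    by_cases hx : x ∈ Co
    · rw [hιc x hx, hιc _ (hCog x hx)]
      rfl
    · have h0 : 1 ≤ τ x := by
        by_contra hcon
        have : τ x = 0 := by omega
        have h1 := hτ1 x hx
        rw [this] at h1
        exact h1 hxD
      obtain ⟨h1, h2, h3⟩ := hnci x hx 1 h0
      rw [Function.iterate_one] at h1 h2 h3
      rw [hιn x hx, hιn _ h1]
      show (Sum.inr ((⟨g^[τ x] x, hτ1 x hx⟩ : E), -(τ x : ZMod n) + 1) : T) = _
      congr 1
      refine Prod.ext (Subtype.ext h3.symm) ?_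
      show -(τ x : ZMod n) + 1 = -((τ (g x) : ℕ) : ZMod n)
      rw [h2, Nat.cast_sub h0]
      push_cast
      ring
  have hθιd : ∀ (d : ℕ) (x : S), (∀ i < d, g^[i] x ∈ D) → θ^[d] (ι x) = ι (g^[d] x) := by
    intro d
    induction d with
    | zero => intro x _; rfl
    | succ d ih =>
      intro x hx
      rw [Function.iterate_succ_apply', ih x (fun i hi => hx i (by omega)),
        hθι _ (hx d (by omega)), Function.iterate_succ_apply']
  -- the time difference for elements outside of the core
  have htime : ∀ (s : ℕ) (x x' : S), x ∉ Co → θ^[s] (ι x) = ι x' →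
      x' ∉ Co ∧ (s : ZMod n) = ((τ x : ℤ) - (τ x' : ℤ) : ℤ) := by
    intro s x x' hx h
    rw [hιn x hx, hθr] at h
    by_cases hx' : x' ∈ Co
    · rw [hιc x' hx'] at h
      exact absurd h Sum.inr_ne_inl
    · refine ⟨hx', ?_⟩
      rw [hιn x' hx'] at h
      have h1 := congrArg Prod.snd (Sum.inr_injective h)
      have h2 : -(τ x : ZMod n) + s = -(τ x' : ZMod n) := h1
      push_cast
      rw [eq_sub_iff_add_eq, ← sub_eq_zero]
      have h3 : -(τ x : ZMod n) + s + (τ x' : ZMod n) = 0 := by rw [h2]; ring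
      rw [← h3]
      ring
  have fwd : ∀ (s d : ℕ) (x x' : S), (s : ZMod n) = d → (∀ i < d, g^[i] x ∈ D) →
      θ^[s] (ι x) = ι x' → g^[d] x = x' := by
    intro s d x x' hsd hx h
    apply hιinj
    rw [← hθιd d x hx, ← hper s d hsd, h]
  have bwd : ∀ (s d : ℕ) (x x' : S), ((s + d : ℕ) : ZMod n) = (0 : ℕ) →
      (∀ i < d, g^[i] x' ∈ D) → θ^[s] (ι x) = ι x' → g^[d] x' = x := by
    intro s d x x' hsd hx h
    apply hιinj
    rw [← hθιd d x' hx, ← h, ← Function.iterate_add_apply, add_comm d s, hper _ _ hsd]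
    rfl
  -- well-definedness
  have hwd0 : ∀ (s : ℕ) (x y x' y' : S), x ∉ Co → θ^[s] (ι x) = ι x' → θ^[s] (ι y) = ι y' →
      m x y = m x' y' := by
    intro s x y x' y' hx h1 h2
    obtain ⟨hx', h3⟩ := htime s x x' hx h1
    rcases le_total (τ x') (τ x) with hle | hle
    · obtain ⟨d, hd⟩ : ∃ d, τ x = τ x' + d := ⟨τ x - τ x', by omega⟩
      have hsd : (s : ZMod n) = d := by
        rw [h3, hd]
        push_cast
        ring
      have hxi : ∀ i < d, g^[i] x ∈ D := fun i hi => hτ2 x hx i (by omega)
      have hyi : ∀ i < d, g^[i] y ∈ D := by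
        by_cases hy : y ∈ Co
        · exact fun i _ => hy i
        · obtain ⟨hy', h4⟩ := htime s y y' hy h2
          have h5 : ((d : ℤ) : ZMod n) = (((τ y : ℤ) - (τ y' : ℤ) : ℤ) : ZMod n) := by
            rw [← h4, hsd]
            push_cast
            rfl
          have := hN x
          have := hN y
          have := hN y'
          have := hN x'
          have h6 := zmod_int_eq h5 (by omega) (by omega)
          exact fun i hi => hτ2 y hy i (by omega)
      rw [← fwd s d x x' hsd hxi h1, ← fwd s d y y' hsd hyi h2]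
      exact (lab_iter hlab d x y hxi hyi).symm
    · obtain ⟨d, hd⟩ : ∃ d, τ x' = τ x + d := ⟨τ x' - τ x, by omega⟩
      have hsd : ((s + d : ℕ) : ZMod n) = (0 : ℕ) := by
        rw [Nat.cast_add, h3, hd]
        push_cast
        ring
      have hxi : ∀ i < d, g^[i] x' ∈ D := fun i hi => hτ2 x' hx' i (by omega)
      have hyi : ∀ i < d, g^[i] y' ∈ D := by
        by_cases hy : y ∈ Co
        · have hy' : y' ∈ Co := by
            by_contra hcon
            rw [hιc y hy, hθl, hιn y' hcon] at h2
            exact absurd h2 Sum.inl_ne_inr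
          exact fun i _ => hy' i
        · obtain ⟨hy', h4⟩ := htime s y y' hy h2
          have h5 : ((d : ℤ) : ZMod n) = (((τ y' : ℤ) - (τ y : ℤ) : ℤ) : ZMod n) := by
            have h7 : (d : ZMod n) = -(s : ZMod n) := by
              have : (s : ZMod n) + d = 0 := by
                rw [← Nat.cast_add, hsd, Nat.cast_zero]
              rw [eq_neg_iff_add_eq_zero, add_comm]
              exact this
            push_cast
            rw [h7, h4]
            push_cast
            ring
          have := hN x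
          have := hN y
          have := hN y'
          have := hN x'
          have h6 := zmod_int_eq h5 (by omega) (by omega)
          exact fun i hi => hτ2 y' hy' i (by omega)
      rw [← bwd s d x x' hsd hxi h1, ← bwd s d y y' hsd hyi h2]
      exact lab_iter hlab d x' y' hxi hyi
  have hwd1 : ∀ (s : ℕ) (x y x' y' : S), θ^[s] (ι x) = ι x' → θ^[s] (ι y) = ι y' →
      m x y = m x' y' := by
    intro s x y x' y' h1 h2
    by_cases hx : x ∈ Co
    · by_cases hy : y ∈ Co
      · rw [← fwd s s x x' rfl (fun i _ => hx i) h1, ← fwd s s y y' rfl (fun i _ => hy i) h2]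
        exact (lab_iter hlab s x y (fun i _ => hx i) (fun i _ => hy i)).symm
      · rw [hm x y, hm x' y']
        exact hwd0 s y x y' x' hy h2 h1
    · exact hwd0 s x y x' y' hx h1 h2
  have hwd : ∀ (u v : T) (t t' : ℕ) (x y x' y' : S), θ^[t] u = ι x → θ^[t] v = ι y →
      θ^[t'] u = ι x' → θ^[t'] v = ι y' → m x y = m x' y' := by
    intro u v t t' x y x' y' h1 h2 h3 h4
    rcases le_total t t' with hle | hle
    · obtain ⟨s, rfl⟩ := Nat.exists_eq_add_of_le' hle
      rw [Function.iterate_add_apply, h1] at h3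
      rw [Function.iterate_add_apply, h2] at h4
      exact hwd1 s x y x' y' h3 h4
    · obtain ⟨s, rfl⟩ := Nat.exists_eq_add_of_le' hle
      rw [Function.iterate_add_apply, h3] at h1
      rw [Function.iterate_add_apply, h4] at h2
      exact (hwd1 s x' y' x y h1 h2).symm
  -- the labels
  let W : T → T → L → Prop := fun u v l => ∃ (t : ℕ) (x y : S), θ^[t] u = ι x ∧ θ^[t] v = ι y ∧
    m x y = l
  have hWu : ∀ u v l l', W u v l → W u v l' → l = l' := by
    rintro u v l l' ⟨t, x, y, h1, h2, rfl⟩ ⟨t', x', y', h3, h4, rfl⟩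
    exact hwd u v t t' x y x' y' h1 h2 h3 h4
  let m' : T → T → L := fun u v => if h : ∃ l, W u v l then Classical.choose h else l0
  have hm'1 : ∀ u v l, W u v l → m' u v = l := by
    intro u v l h
    have hex : ∃ l, W u v l := ⟨l, h⟩
    show (if h : ∃ l, W u v l then Classical.choose h else l0) = l
    rw [dif_pos hex]
    exact hWu u v _ _ (Classical.choose_spec hex) h
  have hm'2 : ∀ u v, m' u v ≠ l0 → ∃ l, W u v l := by
    intro u v h
    by_contra hcon
    apply h
    show (if h : ∃ l, W u v l then Classical.choose h else l0) = l0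
    rw [dif_neg hcon]
  have hm'3 : ∀ u v u' v', (∀ l, W u v l ↔ W u' v' l) → m' u v = m' u' v' := by
    intro u v u' v' h
    by_cases hex : ∃ l, W u v l
    · obtain ⟨l, hl⟩ := hex
      rw [hm'1 u v l hl, hm'1 u' v' l ((h l).1 hl)]
    · by_contra hne
      by_cases h1 : m' u v = l0
      · obtain ⟨l, hl⟩ := hm'2 u' v' (fun h2 => hne (h1.trans h2.symm))
        exact hex ⟨l, (h l).2 hl⟩
      · exact hex (hm'2 u v h1)
  refine ⟨T, inferInstance, m', ι, θ, ?_, hιinj, ?_, ?_, ?_, ?_⟩
  · intro u v
    apply hm'3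
    intro l
    constructor
    · rintro ⟨t, x, y, h1, h2, h3⟩
      exact ⟨t, y, x, h2, h1, (hm y x).trans h3⟩
    · rintro ⟨t, x, y, h1, h2, h3⟩
      exact ⟨t, y, x, h2, h1, (hm y x).trans h3⟩
  · intro x y
    exact hm'1 _ _ _ ⟨0, x, y, rfl, rfl, rfl⟩
  · intro u v
    apply hm'3
    intro l
    constructor
    · rintro ⟨t, x, y, h1, h2, h3⟩
      refine ⟨t + 1, x, y, ?_, ?_, h3⟩
      · rw [Function.iterate_succ_apply]; exact h1
      · rw [Function.iterate_succ_apply]; exact h2
    · rintro ⟨t, x, y, h1, h2, h3⟩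
      have hh : ∀ w : T, θ^[t + (n - 1)] (θ w) = θ^[t] w := by
        intro w
        rw [← Function.iterate_succ_apply]
        apply hper
        have : (t + (n - 1)).succ = t + n := by omega
        rw [this]
        simp
      refine ⟨t + (n - 1), x, y, ?_, ?_, h3⟩
      · rw [hh]; exact h1
      · rw [hh]; exact h2
  · intro x
    rw [hθι x.1 x.2, hgD x.1 x.2]
  · intro K hK
    by_cases hK0 : ∃ u0 ∈ K, ∃ e0 i0, u0 = Sum.inr (e0, i0)
    · obtain ⟨u0, hu0, e0, i0, rfl⟩ := hK0
      -- co-presence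
      have hco : ∀ (e e' : E) (i i' : ZMod n), (Sum.inr (e, i) : T) ∈ K →
          (Sum.inr (e', i') : T) ∈ K → (Sum.inr (e, i) : T) ≠ Sum.inr (e', i') →
          ∃ x x' : S, x ∉ Co ∧ x' ∉ Co ∧ g^[τ x] x = e ∧ g^[τ x'] x' = e' ∧
            i' - i = ((τ x : ℤ) - (τ x' : ℤ) : ℤ) := by
        intro e e' i i' h1 h2 hne
        obtain ⟨l, t, x, x', h3, h4, -⟩ := hm'2 _ _ (hK _ h1 _ h2 hne)
        rw [hθr] at h3 h4
        have hx : x ∉ Co := by
          intro hx
          rw [hιc x hx] at h3
          exact Sum.inr_ne_inl h3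
        have hx' : x' ∉ Co := by
          intro hx
          rw [hιc x' hx] at h4
          exact Sum.inr_ne_inl h4
        rw [hιn x hx] at h3
        rw [hιn x' hx'] at h4
        have h5 := Sum.inr_injective h3
        have h6 := Sum.inr_injective h4
        refine ⟨x, x', hx, hx', (congrArg (fun z => (z.1 : S)) h5).symm,
          (congrArg (fun z => (z.1 : S)) h6).symm, ?_⟩
        have h7 : i + t = -(τ x : ZMod n) := congrArg (fun z => z.2) h5
        have h8 : i' + t = -(τ x' : ZMod n) := congrArg (fun z => z.2) h6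
        push_cast
        calc i' - i = (i' + t) - (i + t) := by ring
          _ = _ := by rw [h7, h8]; ring
      -- integer positions
      have hpos : ∀ u : {u : T // u ∈ K ∧ ∃ e i, u = Sum.inr (e, i)}, ∃ (a : ℤ) (e : E),
          -(N : ℤ) < a ∧ a < N ∧ u.1 = Sum.inr (e, i0 + (a : ZMod n)) := by
        rintro ⟨u, hu, e, i, rfl⟩
        by_cases hne : (Sum.inr (e0, i0) : T) = Sum.inr (e, i)
        · have h1 := Sum.inr_injective hne
          have := hN (e0 : S)
          refine ⟨0, e, by omega, by omega, ?_⟩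
          have h2 : i0 = i := congrArg (fun z => z.2) h1
          rw [h2]
          simp
        · obtain ⟨x, x', -, -, -, -, h1⟩ := hco e0 e i0 i hu0 hu hne
          have := hN x
          have := hN x'
          refine ⟨(τ x : ℤ) - (τ x' : ℤ), e, by omega, by omega, ?_⟩
          rw [← h1]
          simp
      choose a e ha1 ha2 hae using hpos
      haveI : Nonempty {u : T // u ∈ K ∧ ∃ e i, u = Sum.inr (e, i)} :=
        ⟨⟨_, hu0, e0, i0, rfl⟩⟩
      obtain ⟨us, hus⟩ := Finite.exists_max a
      let t : ℕ := (-(i0 + (a us : ZMod n))).val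
      have ht : (t : ZMod n) = -(i0 + (a us : ZMod n)) := ZMod.natCast_zmod_val _
      refine ⟨t, ?_⟩
      rintro (c | ⟨e', i'⟩) hu
      · refine ⟨((θc ^ t) c : Co), ?_⟩
        rw [hθl, hιc _ ((θc ^ t) c).2]
      · let w : {u : T // u ∈ K ∧ ∃ e i, u = Sum.inr (e, i)} := ⟨Sum.inr (e', i'), hu, e', i', rfl⟩
        have hw : (Sum.inr (e', i') : T) = Sum.inr (e w, i0 + (a w : ZMod n)) := hae w
        have hw1 := Sum.inr_injective hw
        have hi' : i' = i0 + (a w : ZMod n) := congrArg (fun z => z.2) hw1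
        rw [hθr, ht, hi']
        have hcalc : i0 + (a w : ZMod n) + -(i0 + (a us : ZMod n)) =
            -(((a us - a w : ℤ)) : ZMod n) := by
          push_cast
          ring
        rw [hcalc]
        by_cases hne : us.1 = w.1
        · have hwu : us = w := Subtype.ext hne
          have he' : (e' : S) ∉ D := e'.2
          have hce : (e' : S) ∉ Co := fun h => he' (h 0)
          have hτ0 : τ (e' : S) = 0 := hτu _ hce 0 he' (fun i hi => absurd hi (by omega))
          refine ⟨e', ?_⟩
          rw [hιn _ hce, hwu]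
          congr 1
          refine Prod.ext (Subtype.ext ?_) ?_
          · show (e' : S) = g^[τ (e' : S)] e'
            rw [hτ0]
            rfl
          · show -((a w - a w : ℤ) : ZMod n) = -((τ (e' : S) : ℕ) : ZMod n)
            rw [hτ0, sub_self]
            simp
        · have hus' : (Sum.inr (e us, i0 + (a us : ZMod n)) : T) ∈ K := by
            rw [← hae us]
            exact us.2.1
          have hw' : (Sum.inr (e', i') : T) ∈ K := hu
          have hne' : (Sum.inr (e us, i0 + (a us : ZMod n)) : T) ≠ Sum.inr (e', i') := by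
            rw [← hae us]
            exact hne
          obtain ⟨x, x', hx, hx', hex, hex', h1⟩ := hco _ _ _ _ hus' hw' hne'
          have h2 : ((a w - a us : ℤ) : ZMod n) = (((τ x : ℤ) - (τ x' : ℤ) : ℤ) : ZMod n) := by
            rw [← h1, hi']
            push_cast
            ring
          have := hN x
          have := hN x'
          have := ha1 us
          have := ha2 us
          have := ha1 w
          have := ha2 w
          have h3 := zmod_int_eq h2 (by omega) (by omega)
          have h4 : a w ≤ a us := hus w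
          obtain ⟨r, hr⟩ : ∃ r : ℕ, a us - a w = r := ⟨(a us - a w).toNat, by omega⟩
          have hr' : r ≤ τ x' := by omega
          obtain ⟨h5, h6, h7⟩ := hnci x' hx' (τ x' - r) (by omega)
          have h8 : τ (g^[τ x' - r] x') = r := by omega
          refine ⟨g^[τ x' - r] x', ?_⟩
          rw [hιn _ h5]
          congr 1
          refine Prod.ext (Subtype.ext ?_) ?_
          · show (e' : S) = g^[τ (g^[τ x' - r] x')] (g^[τ x' - r] x')
            rw [h7, hex']
          · show -((a us - a w : ℤ) : ZMod n) = -((τ (g^[τ x' - r] x') : ℕ) : ZMod n)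
            rw [h8, hr]
            simp
    · refine ⟨0, ?_⟩
      rintro (c | ⟨e, i⟩) hu
      · exact ⟨c, (hιc _ c.2).symm⟩
      · exact absurd ⟨_, hu, e, i, rfl⟩ hK0

end Pool.Agent.R779.FJ
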