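import Pool.Agent.R779.FJ.Halo
import Pool.Agent.R779.FJ.Ea
import Pool.Agent.R779.FJ.EppaC

/-!
# Extensions by even Artin groups
-/

set_option autoImplicit false

namespace Pool.Agent.R779.FJ

open Pool.Agent.Y110.FJ
open Pool.Agent.Y462.SS (Closed)

/-- extensions by halos, for a given labelled graph -/
theorem t_haloC (hcrit : S_CRIT) (C : ∀ (G : Type) [Group G], Prop) (hC : ClosedE C)
    {L : Type} (H : Halo L)
    {V : Type} (ℓ : V → V → L)
    (hext : ∀ (R : Set V), R.Finite → ∀ (D : Set R) (f : D → R), Function.Injective f →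
      (∀ x y : D, ℓ (f x) (f y) = ℓ x y) →
      ∃ (T : Type) (_ : Finite T) (m' : T → T → L) (ι : R → T) (τ : Equiv.Perm T),
        Function.Injective ι ∧ (∀ x y, m' (ι x) (ι y) = ℓ x y) ∧
        (∀ x y, m' (τ x) (τ y) = m' x y) ∧ (∀ x : D, τ (ι x) = ι (f x)) ∧ C (H.obj T m'))
    (G : Type) [Group G] (N : Subgroup G) [N.Normal] (e : H.obj V ℓ ≃* N) (hQ : C (G ⧸ N))
    (hact : ∀ g : G, ∃ (τ : Equiv.Perm V) (hτ : Emb ℓ ℓ τ) (n : N), ∀ x : H.obj V ℓ,
      g * (e x : G) * g⁻¹ = (n : G) * (e (H.map τ hτ x) : G) * (n : G)⁻¹) : C G := by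
  classical
  refine hcrit C hC G N hQ ?_
  intro g E hE hEN
  obtain ⟨τ, hτ, n, hn⟩ := hact g
  -- supports
  have hsup : ∀ x : H.obj V ℓ, ∃ A : Finset V, ∀ B : Set V, (A : Set V) ⊆ B →
      ∃ y : H.obj B (rs ℓ B), H.map Subtype.val (emb_val ℓ B) y = x := by
    intro x
    obtain ⟨A, hA, y, hy⟩ := H.fin x
    refine ⟨hA.toFinset, fun B hB => ?_⟩
    rw [hA.coe_toFinset] at hB
    refine ⟨H.map _ (emb_inc ℓ hB) y, ?_⟩
    rw [H.map_comp, ← hy]
    exact H.map_congr (by funext z; rfl) _ _ y
  choose supp hsupp using hsup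
  let A : Finset V := (hE.toFinset.biUnion fun x => if h : x ∈ N then supp (e.symm ⟨x, h⟩) else ∅) ∪
    supp (e.symm n)
  let R : Finset V := A ∪ A.image τ
  have hAR : (A : Set V) ⊆ (R : Set V) := by
    intro v hv
    rw [Finset.mem_coe, Finset.mem_union]
    exact Or.inl hv
  have hτR : ∀ v ∈ (A : Set V), τ v ∈ (R : Set V) := by
    intro v hv
    rw [Finset.mem_coe, Finset.mem_union, Finset.mem_image]
    exact Or.inr ⟨v, hv, rfl⟩
  have hE' : ∀ x ∈ E, ∃ u : H.obj (A : Set V) (rs ℓ (A : Set V)),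
      (e (H.map Subtype.val (emb_val ℓ _) u) : G) = x := by
    intro x hx
    obtain ⟨u, hu⟩ := hsupp (e.symm ⟨x, hEN hx⟩) (A : Set V) (by
      intro v hv
      rw [Finset.mem_coe, Finset.mem_union, Finset.mem_biUnion]
      refine Or.inl ⟨x, hE.mem_toFinset.2 hx, ?_⟩
      rw [dif_pos (show x ∈ N from hEN hx)]
      exact hv)
    exact ⟨u, by rw [hu, e.apply_symm_apply]⟩
  obtain ⟨w, hw⟩ := hsupp (e.symm n) (R : Set V) (by
    intro v hv
    apply hAR
    rw [Finset.mem_coe, Finset.mem_union]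
    exact Or.inr hv)
  -- the larger labelled graph
  obtain ⟨T, hT, m', ι, θ, hι, hιm, hθ, hιθ, hCT⟩ := hext (R : Set V) R.finite_toSet
    {x | x.1 ∈ (A : Set V)}
    (fun x => ⟨τ x.1.1, hτR _ x.2⟩) (by
      intro x y hxy
      have h1 : τ x.1.1 = τ y.1.1 := congrArg Subtype.val hxy
      exact Subtype.ext (Subtype.ext (τ.injective h1))) (by
      intro x y
      exact hτ.2 x.1.1 y.1.1)
  let θ' : Halo.Aut m' := ⟨θ, hθ⟩
  have hιe : Emb (rs ℓ (R : Set V)) m' ι := ⟨hι, hιm⟩
  -- the map to `G`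
  let ψ : H.obj (R : Set V) (rs ℓ (R : Set V)) →* G :=
    (N.subtype.comp e.toMonoidHom).comp (H.map Subtype.val (emb_val ℓ (R : Set V)))
  have hψ : Function.Injective ψ := by
    have h1 : Function.Injective N.subtype := Subtype.val_injective
    exact (h1.comp e.injective).comp (H.inj _ _)
  -- the two maps from the subsets
  let iA : ((A : Set V) : Type) → ((R : Set V) : Type) := Set.inclusion hAR
  let tA : ((A : Set V) : Type) → ((R : Set V) : Type) := fun a => ⟨τ a.1, hτR _ a.2⟩
  have hiA : Emb (rs ℓ (A : Set V)) (rs ℓ (R : Set V)) iA := emb_inc ℓ hAR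
  have htA : Emb (rs ℓ (A : Set V)) (rs ℓ (R : Set V)) tA :=
    ⟨fun x y h => Subtype.ext (τ.injective (congrArg Subtype.val h)), fun x y => hτ.2 x.1 y.1⟩
  have hψ1 : ∀ u, ψ (H.map iA hiA u) = (e (H.map Subtype.val (emb_val ℓ _) u) : G) := by
    intro u
    show ((e (H.map Subtype.val (emb_val ℓ (R : Set V)) (H.map iA hiA u)) : N) : G) = _
    rw [H.map_comp]
    have := H.map_congr (show Subtype.val ∘ iA = Subtype.val by funext z; rfl)
      ((emb_val ℓ (R : Set V)).comp hiA) (emb_val ℓ _) u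
    rw [this]
  have hψ2 : ∀ u, ψ (w * H.map tA htA u * w⁻¹) =
      g * (e (H.map Subtype.val (emb_val ℓ _) u) : G) * g⁻¹ := by
    intro u
    have h1 : ψ w = n := by
      show ((e (H.map Subtype.val (emb_val ℓ (R : Set V)) w) : N) : G) = n
      rw [hw, e.apply_symm_apply]
    have h2 : ψ (H.map tA htA u) =
        (e (H.map τ hτ (H.map Subtype.val (emb_val ℓ _) u)) : G) := by
      show ((e (H.map Subtype.val (emb_val ℓ (R : Set V)) (H.map tA htA u)) : N) : G) = _
      rw [H.map_comp, H.map_comp]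
      have := H.map_congr (show Subtype.val ∘ tA = τ ∘ Subtype.val by funext z; rfl)
        ((emb_val ℓ (R : Set V)).comp htA) (hτ.comp (emb_val ℓ _)) u
      rw [this]
    rw [map_mul, map_mul, map_inv, h1, h2, hn]
  have hcl : Subgroup.closure (E ∪ (fun x => g * x * g⁻¹) '' E) ≤ ψ.range := by
    rw [Subgroup.closure_le]
    rintro x (hx | ⟨y, hy, rfl⟩)
    · obtain ⟨u, hu⟩ := hE' x hx
      exact ⟨_, (hψ1 u).trans hu⟩
    · obtain ⟨u, hu⟩ := hE' y hy
      refine ⟨_, (hψ2 u).trans ?_⟩
      rw [hu]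
  let back : ψ.range →* H.obj (R : Set V) (rs ℓ (R : Set V)) :=
    (MonoidHom.ofInjective hψ).symm.toMonoidHom
  have hback : ∀ z (hz : ψ z ∈ ψ.range), back ⟨ψ z, hz⟩ = z := by
    intro z hz
    show (MonoidHom.ofInjective hψ).symm ⟨ψ z, hz⟩ = z
    rw [MulEquiv.symm_apply_eq]
    rfl
  have hbinj : Function.Injective back := (MonoidHom.ofInjective hψ).symm.injective
  let j : H.obj (R : Set V) (rs ℓ (R : Set V)) →* H.obj T m' := H.map ι hιe
  refine ⟨H.obj T m' ⋊[H.act m'] Halo.Aut m', inferInstance,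
    (SemidirectProduct.inl.comp (j.comp back)).comp (Subgroup.inclusion hcl),
    SemidirectProduct.inl (j w) * SemidirectProduct.inr θ', ?_, ?_, ?_⟩
  · exact Pool.Agent.Y961.FJ.fin_sd hC.base _ _ _ hCT
  · exact (SemidirectProduct.inl_injective.comp ((H.inj _ _).comp hbinj)).comp
      (Subgroup.inclusion_injective hcl)
  · intro x y hx hy
    obtain ⟨u, hu⟩ := hE' _ hx
    have hxx : back (Subgroup.inclusion hcl x) = H.map iA hiA u := by
      have h1 : Subgroup.inclusion hcl x = ⟨ψ (H.map iA hiA u), ⟨_, rfl⟩⟩ := by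
        apply Subtype.ext
        exact (hψ1 u).trans hu |>.symm
      rw [h1]
      exact hback _ _
    have hyy : back (Subgroup.inclusion hcl y) = w * H.map tA htA u * w⁻¹ := by
      have h1 : Subgroup.inclusion hcl y = ⟨ψ (w * H.map tA htA u * w⁻¹), ⟨_, rfl⟩⟩ := by
        apply Subtype.ext
        refine hy.trans ?_
        rw [← hu]
        exact (hψ2 u).symm
      rw [h1]
      exact hback _ _
    show (SemidirectProduct.inl (j (back (Subgroup.inclusion hcl y))) :
        H.obj T m' ⋊[H.act m'] Halo.Aut m') =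
      SemidirectProduct.inl (j w) * SemidirectProduct.inr θ' *
        SemidirectProduct.inl (j (back (Subgroup.inclusion hcl x))) *
          (SemidirectProduct.inl (j w) * SemidirectProduct.inr θ')⁻¹
    rw [hxx, hyy]
    have h3 : (SemidirectProduct.inr θ' : H.obj T m' ⋊[H.act m'] Halo.Aut m') *
        SemidirectProduct.inl (j (H.map iA hiA u)) * (SemidirectProduct.inr θ')⁻¹ =
        SemidirectProduct.inl (H.act m' θ' (j (H.map iA hiA u))) := by
      rw [SemidirectProduct.inl_aut, map_inv]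
    have h4 : H.act m' θ' (j (H.map iA hiA u)) = j (H.map tA htA u) := by
      rw [Halo.act_apply]
      show H.map _ (Halo.emb_aut θ') (H.map ι hιe (H.map iA hiA u)) = H.map ι hιe (H.map tA htA u)
      rw [H.map_comp, H.map_comp, H.map_comp]
      refine H.map_congr ?_ _ _ u
      funext a
      exact hιθ ⟨iA a, a.2⟩
    rw [map_mul j, map_mul j, map_inv j, map_mul, map_mul, map_inv, ← h4, ← h3]
    group


namespace Ea

/-- embeddings of labelled graphs -/
def mapE {S T : Type} {m : S → S → ℕ} {n : T → T → ℕ} (f : S → T) (hf : Emb m n f) :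
    EArt m →* EArt n :=
  lift (fun s => gen n (f s)) (by
    intro v w h
    have h1 := rel (k := n) (v := f v) (w := f w) (fun h2 => h (hf.1 h2))
    rwa [hf.2 v w] at h1)

theorem mapE_gen {S T : Type} {m : S → S → ℕ} {n : T → T → ℕ} (f : S → T) (hf : Emb m n f)
    (s : S) : mapE f hf (gen m s) = gen n (f s) := by
  rw [mapE, lift_gen]

/-- equality of labels on a finite set -/
theorem transfer {C : ∀ (G : Type) [Group G], Prop} (hC : ClosedE C) {S T : Type}
    {m : S → S → ℕ} {n : T → T → ℕ} (K : Set T) (j : K → S) (hj : Function.Injective j)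
    (hlab : ∀ u v : K, u ≠ v → m (j u) (j v) = n u v)
    (h : C ↥(sub m (Set.range j))) : C ↥(sub n K) := by
  classical
  let Ψ : EArt n →* EArt m := lift (fun u => if h : u ∈ K then gen m (j ⟨u, h⟩) else 1) (by
    intro u v huv
    by_cases hu : u ∈ K
    · by_cases hv : v ∈ K
      · rw [dif_pos hu, dif_pos hv]
        have hne : (⟨u, hu⟩ : K) ≠ ⟨v, hv⟩ := fun h => huv (congrArg Subtype.val h)
        have h1 := rel (k := m) (v := j ⟨u, hu⟩) (w := j ⟨v, hv⟩) (fun h2 => hne (hj h2))
        rwa [hlab _ _ hne] at h1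
      · rw [dif_neg hv, mul_one, one_mul]
    · rw [dif_neg hu, mul_one, one_mul])
  let Φ : EArt m →* EArt n := lift (fun s => if h : ∃ u : K, j u = s then
      gen n (Classical.choose h : K) else 1) (by
    intro s t hst
    by_cases hs : ∃ u : K, j u = s
    · by_cases ht : ∃ u : K, j u = t
      · rw [dif_pos hs, dif_pos ht]
        have e1 := Classical.choose_spec hs
        have e2 := Classical.choose_spec ht
        have hne : Classical.choose hs ≠ Classical.choose ht := by
          intro h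
          rw [h, e2] at e1
          exact hst e1.symm
        have h1 := rel (k := n) (v := (Classical.choose hs : K)) (w := (Classical.choose ht : K))
          (fun h2 => hne (Subtype.ext h2))
        rw [← hlab _ _ hne, e1, e2] at h1
        exact h1
      · rw [dif_neg ht, mul_one, one_mul]
    · rw [dif_neg hs, mul_one, one_mul])
  have hΨ : ∀ (u : T) (hu : u ∈ K), Ψ (gen n u) = gen m (j ⟨u, hu⟩) := by
    intro u hu
    show lift _ _ (gen n u) = _
    rw [lift_gen, dif_pos hu]
  have hΦ : ∀ u : K, Φ (gen m (j u)) = gen n u := by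
    intro u
    show lift _ _ (gen m (j u)) = _
    have hex : ∃ u' : K, j u' = j u := ⟨u, rfl⟩
    rw [lift_gen, dif_pos hex]
    rw [hj (Classical.choose_spec hex)]
  have hmem : ∀ x ∈ sub n K, Ψ x ∈ sub m (Set.range j) := by
    intro x hx
    refine map_mem ?_ x hx
    intro u hu
    rw [hΨ u hu]
    exact gen_mem ⟨_, rfl⟩
  have hid : ∀ x ∈ sub n K, Φ (Ψ x) = x := by
    intro x hx
    refine eqOn (f := Φ.comp Ψ) (g := MonoidHom.id _) ?_ x hx
    intro u hu
    show Φ (Ψ (gen n u)) = gen n u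
    rw [hΨ u hu, hΦ]
  refine hC.base.of_injective _ _ ((Ψ.comp (sub n K).subtype).codRestrict (sub m (Set.range j))
    (fun x => hmem x.1 x.2)) ?_ h
  rintro ⟨x, hx⟩ ⟨y, hy⟩ hxy
  have h1 : Ψ x = Ψ y := congrArg Subtype.val hxy
  have h2 := congrArg Φ h1
  rw [hid x hx, hid y hy] at h2
  exact Subtype.ext h2

theorem mapE_inj {S T : Type} {m : S → S → ℕ} {n : T → T → ℕ} (f : S → T) (hf : Emb m n f) :
    Function.Injective (mapE f hf) := by
  classical
  let Φ : EArt n →* EArt m := lift (fun t => if h : ∃ s, f s = t then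
      gen m (Classical.choose h) else 1) (by
    intro s t hst
    by_cases hs : ∃ u, f u = s
    · by_cases ht : ∃ u, f u = t
      · rw [dif_pos hs, dif_pos ht]
        have e1 := Classical.choose_spec hs
        have e2 := Classical.choose_spec ht
        have hne : Classical.choose hs ≠ Classical.choose ht := by
          intro h
          rw [h, e2] at e1
          exact hst e1.symm
        have h1 := rel (k := m) hne
        rw [← hf.2, e1, e2] at h1
        exact h1
      · rw [dif_neg ht, mul_one, one_mul]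
    · rw [dif_neg hs, mul_one, one_mul])
  have hΦ : ∀ s, Φ (gen n (f s)) = gen m s := by
    intro s
    show lift _ _ (gen n (f s)) = _
    have hex : ∃ u', f u' = f s := ⟨s, rfl⟩
    rw [lift_gen, dif_pos hex]
    rw [hf.1 (Classical.choose_spec hex)]
  have hid : ∀ x, Φ (mapE f hf x) = x := by
    intro x
    have : Φ.comp (mapE f hf) = MonoidHom.id _ := hom_ext (by
      intro v
      show Φ (mapE f hf (gen m v)) = gen m v
      rw [mapE_gen, hΦ])
    exact DFunLike.congr_fun this x
  exact Function.LeftInverse.injective hid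

/-- even Artin groups as a halo -/
def halo : Halo ℕ where
  obj _ m := EArt m
  grp _ m := inferInstanceAs (Group (EArt m))
  map f hf := mapE f hf
  inj f hf := mapE_inj f hf
  map_id := by
    intro S m x
    have : mapE (fun x => x) (Emb.id m) = MonoidHom.id _ := hom_ext (by
      intro v
      rw [mapE_gen]
      rfl)
    exact DFunLike.congr_fun this x
  map_comp := by
    intro S T U m n k f g hf hg x
    have : (mapE g hg).comp (mapE f hf) = mapE (g ∘ f) (hg.comp hf) := hom_ext (by
      intro v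
      show mapE g hg (mapE f hf (gen m v)) = _
      rw [mapE_gen, mapE_gen, mapE_gen]
      rfl)
    exact DFunLike.congr_fun this x
  fin := by
    intro S m x
    obtain ⟨U, hU⟩ := exists_fin x
    refine ⟨(U : Set S), U.finite_toSet, ?_⟩
    have h1 : sub m (U : Set S) ≤ (mapE (Subtype.val : ↥(U : Set S) → S)
        (emb_val m (U : Set S))).range := by
      rw [sub, Subgroup.closure_le]
      rintro _ ⟨v, hv, rfl⟩
      exact ⟨gen _ ⟨v, hv⟩, mapE_gen _ _ _⟩
    obtain ⟨y, hy⟩ := h1 hU
    exact ⟨y, hy⟩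

/-- the main theorem -/
theorem t_ea (ham : S_AM) (hcrit : S_CRIT) (C : ∀ (G : Type) [Group G], Prop) (hC : ClosedE C)
    {V : Type} (k : V → V → ℕ) (hk : ∀ x y, k x y = k y x)
    (hcl : ∀ U : Finset V, (∀ u ∈ U, ∀ w ∈ U, u ≠ w → k u w ≠ 0) → C ↥(sub k (U : Set V)))
    (G : Type) [Group G] (N : Subgroup G) [N.Normal] (e : EArt k ≃* N) (hQ : C (G ⧸ N))
    (hact : ∀ g : G, ∃ (τ : Equiv.Perm V) (hτ : Emb k k τ) (n : N), ∀ x : EArt k,
      g * (e x : G) * g⁻¹ = (n : G) * (e (mapE τ hτ x) : G) * (n : G)⁻¹) : C G := by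
  classical
  refine t_haloC hcrit C hC halo k ?_ G N e hQ hact
  intro R hR D f hf hfl
  obtain ⟨T, hT, m', ι, θ, hm', hι, hιm, hθ, hιθ, hK⟩ := eppaC 0 R hR.to_subtype (rs k R)
    (fun x y => hk x y) D f hf hfl
  refine ⟨T, hT, m', ι, θ, hι, hιm, hθ, hιθ, ?_⟩
  show C (EArt m')
  have : Fintype T := Fintype.ofFinite T
  have hθt : ∀ (t : ℕ) (u v : T), m' (θ^[t] u) (θ^[t] v) = m' u v := by
    intro t u v
    induction t with
    | zero => rfl
    | succ t ih => rw [Function.iterate_succ_apply', Function.iterate_succ_apply', hθ, ih]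
  have h1 := fin_sub ham hC hm' (by
    intro U hU
    obtain ⟨t, ht⟩ := hK (U : Set T) hU
    choose x hx using ht
    let j : ↥(U : Set T) → V := fun u => (x u.1 u.2 : V)
    have hj : Function.Injective j := by
      intro u v huv
      have e1 : x u.1 u.2 = x v.1 v.2 := Subtype.ext huv
      have e2 : θ^[t] u.1 = θ^[t] v.1 := by rw [hx u.1 u.2, hx v.1 v.2, e1]
      exact Subtype.ext (θ.injective.iterate t e2)
    have hlab : ∀ u v : ↥(U : Set T), u ≠ v → k (j u) (j v) = m' u v := by
      intro u v _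
      rw [← hθt t u v, hx u.1 u.2, hx v.1 v.2, hιm]
    refine transfer hC (m := k) (U : Set T) j hj hlab ?_
    have hfin : (Set.range j).Finite := Set.finite_range j
    have h2 := hcl hfin.toFinset (by
      intro a ha b hb hab
      rw [Set.Finite.mem_toFinset] at ha hb
      obtain ⟨u, rfl⟩ := ha
      obtain ⟨v, rfl⟩ := hb
      have huv : u ≠ v := fun h => hab (by rw [h])
      rw [hlab u v huv]
      exact hU u.1 u.2 v.1 v.2 (fun h => huv (Subtype.ext h)))
    rwa [hfin.coe_toFinset] at h2) _ Finset.univ rfl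
  rw [Finset.coe_univ, sub_univ] at h1
  exact hC.base.of_injective _ _ (Subgroup.topEquiv (G := EArt m')).symm.toMonoidHom
    (Subgroup.topEquiv (G := EArt m')).symm.injective h1

end Ea

end Pool.Agent.R779.FJ
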