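import Pool.Agent.R779.FJ.Hnn
import Pool.Agent.Y430.SS.Lf

/-!
# Multiple HNN extensions with a homomorphism to a group in the class
-/

set_option autoImplicit false

namespace Pool.Agent.R779.FJ

open Pool.Agent.Y110.FJ
open Pool.Agent.Y462.SS (Closed)

section

variable {M : Type} [Group M] {I : Type} {B : I → Type} [∀ i, Group (B i)] (α β : ∀ i, B i →* M)

/-- the relations `t_i α_i(b) t_i⁻¹ = β_i(b)` -/
def mhRel : Set (Monoid.Coprod M (FreeGroup I)) :=
  {r | ∃ (i : I) (b : B i), r = Monoid.Coprod.inr (FreeGroup.of i) * Monoid.Coprod.inl (α i b) *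
    (Monoid.Coprod.inr (FreeGroup.of i))⁻¹ * (Monoid.Coprod.inl (β i b))⁻¹}

/-- the multiple HNN extension of `M` with stable letters `t_i` and relations
`t_i α_i(b) t_i⁻¹ = β_i(b)`, `b ∈ B i` -/
abbrev MH : Type := Monoid.Coprod M (FreeGroup I) ⧸ Subgroup.normalClosure (mhRel α β)

namespace MH

/-- the base -/
def of : M →* MH α β := (QuotientGroup.mk' _).comp Monoid.Coprod.inl

/-- the stable letters -/
def t (i : I) : MH α β := (QuotientGroup.mk' _) (Monoid.Coprod.inr (FreeGroup.of i))

theorem rel (i : I) (b : B i) : t α β i * of α β (α i b) * (t α β i)⁻¹ = of α β (β i b) := by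
  have h1 : (Monoid.Coprod.inr (FreeGroup.of i) * Monoid.Coprod.inl (α i b) *
    (Monoid.Coprod.inr (FreeGroup.of i))⁻¹ * (Monoid.Coprod.inl (β i b))⁻¹ :
      Monoid.Coprod M (FreeGroup I)) ∈ Subgroup.normalClosure (mhRel α β) :=
    Subgroup.subset_normalClosure ⟨i, b, rfl⟩
  have h2 := (QuotientGroup.eq_one_iff _).2 h1
  have h3 : t α β i * of α β (α i b) * (t α β i)⁻¹ * (of α β (β i b))⁻¹ = 1 := h2
  rwa [mul_inv_eq_one] at h3

variable {α β}

/-- homomorphisms out of a multiple HNN extension -/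
def lift {H : Type} [Group H] (g : M →* H) (s : I → H)
    (h : ∀ i b, s i * g (α i b) * (s i)⁻¹ = g (β i b)) : MH α β →* H :=
  QuotientGroup.lift _ (Monoid.Coprod.lift g (FreeGroup.lift s)) (by
    show Subgroup.normalClosure (mhRel α β) ≤ (Monoid.Coprod.lift g (FreeGroup.lift s)).ker
    refine Subgroup.normalClosure_le_normal ?_
    rintro _ ⟨i, b, rfl⟩
    show Monoid.Coprod.lift g (FreeGroup.lift s) _ = 1
    rw [map_mul, map_mul, map_mul, map_inv, map_inv, Monoid.Coprod.lift_apply_inl,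
      Monoid.Coprod.lift_apply_inl, Monoid.Coprod.lift_apply_inr, FreeGroup.lift_apply_of,
      mul_inv_eq_one]
    exact h i b)

theorem lift_of {H : Type} [Group H] (g : M →* H) (s : I → H)
    (h : ∀ i b, s i * g (α i b) * (s i)⁻¹ = g (β i b)) (m : M) :
    lift g s h (of α β m) = g m := by
  show Monoid.Coprod.lift g (FreeGroup.lift s) (Monoid.Coprod.inl m) = g m
  rw [Monoid.Coprod.lift_apply_inl]

theorem lift_t {H : Type} [Group H] (g : M →* H) (s : I → H)
    (h : ∀ i b, s i * g (α i b) * (s i)⁻¹ = g (β i b)) (i : I) :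
    lift g s h (t α β i) = s i := by
  show Monoid.Coprod.lift g (FreeGroup.lift s) (Monoid.Coprod.inr (FreeGroup.of i)) = s i
  rw [Monoid.Coprod.lift_apply_inr, FreeGroup.lift_apply_of]

/-- the group is generated by the base and the stable letters -/
theorem gen (K : Subgroup (MH α β)) (h1 : ∀ m, of α β m ∈ K) (h2 : ∀ i, t α β i ∈ K)
    (x : MH α β) : x ∈ K := by
  obtain ⟨y, rfl⟩ := QuotientGroup.mk'_surjective _ x
  induction y using Monoid.Coprod.induction_on with
  | inl m => exact h1 m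
  | inr z =>
    induction z using FreeGroup.induction_on with
    | C1 => rw [map_one, map_one]; exact Subgroup.one_mem _
    | of i => exact h2 i
    | inv_of i _ => rw [map_inv, map_inv]; exact Subgroup.inv_mem _ (h2 i)
    | mul x y hx hy => rw [map_mul, map_mul]; exact Subgroup.mul_mem _ hx hy
  | mul x y hx hy => rw [map_mul]; exact Subgroup.mul_mem _ hx hy

theorem hom_ext {H : Type} [Group H] {f g : MH α β →* H}
    (h1 : ∀ m, f (of α β m) = g (of α β m)) (h2 : ∀ i, f (t α β i) = g (t α β i)) : f = g :=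
  MonoidHom.ext fun x => gen (f.eqLocus g) h1 h2 x

end MH

end

/-- the restriction of a family -/
abbrev rst {M : Type} [Group M] {I : Type} {B : I → Type} [∀ i, Group (B i)]
    (α : ∀ i, B i →* M) (J : Finset I) : ∀ i : J, B i →* M := fun i => α i

/-- the inductive claim -/
def Cl (C : ∀ (G : Type) [Group G], Prop) {M : Type} [Group M] {I : Type} {B : I → Type}
    [∀ i, Group (B i)] (α β : ∀ i, B i →* M) (J : Finset I) : Prop :=
  ∃ (P : Type) (_ : Group P) (F : MH (rst α J) (rst β J) →* P) (p : I → P), C P ∧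
    Function.Injective F ∧ Function.Injective (F.comp (MH.of (rst α J) (rst β J))) ∧
    ∀ i b, p i * F (MH.of (rst α J) (rst β J) (α i b)) * (p i)⁻¹ =
      F (MH.of (rst α J) (rst β J) (β i b))

theorem cl_empty {C : ∀ (G : Type) [Group G], Prop}
    {M : Type} [Group M] {I : Type} {B : I → Type}
    [∀ i, Group (B i)] (α β : ∀ i, B i →* M) (P : Type) [Group P] (hP : C P) (f : M →* P)
    (hf : Function.Injective f) (p : I → P)
    (hp : ∀ i b, p i * f (α i b) * (p i)⁻¹ = f (β i b)) : Cl C α β ∅ := by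
  let F : MH (rst α (∅ : Finset I)) (rst β (∅ : Finset I)) →* P :=
    MH.lift f (fun i => absurd i.2 (Finset.notMem_empty _))
      (fun i => absurd i.2 (Finset.notMem_empty _))
  let r : MH (rst α (∅ : Finset I)) (rst β (∅ : Finset I)) →* M :=
    MH.lift (MonoidHom.id M) (fun i => absurd i.2 (Finset.notMem_empty _))
      (fun i => absurd i.2 (Finset.notMem_empty _))
  have hFof : ∀ m, F (MH.of _ _ m) = f m := fun m => MH.lift_of _ _ _ m
  have h1 : (MH.of (rst α (∅ : Finset I)) (rst β (∅ : Finset I))).comp r = MonoidHom.id _ :=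
    MH.hom_ext (by
      intro m
      show MH.of _ _ (r (MH.of _ _ m)) = _
      rw [show r (MH.of _ _ m) = m from MH.lift_of _ _ _ m]
      rfl) (fun i => absurd i.2 (Finset.notMem_empty _))
  have hF : Function.Injective F := by
    intro x y hxy
    have hx := DFunLike.congr_fun h1 x
    have hy := DFunLike.congr_fun h1 y
    change MH.of _ _ (r x) = x at hx
    change MH.of _ _ (r y) = y at hy
    rw [← hx, ← hy, hFof, hFof] at hxy
    rw [← hx, ← hy, hf hxy]
  refine ⟨P, inferInstance, F, p, hP, hF, ?_, ?_⟩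
  · intro x y h
    change F (MH.of _ _ x) = F (MH.of _ _ y) at h
    rw [hFof, hFof] at h
    exact hf h
  · intro i b
    rw [hFof, hFof]
    exact hp i b

open Classical in
theorem cl_insert (hperm : S_PERM) {C : ∀ (G : Type) [Group G], Prop} (hC : ClosedE C)
    {M : Type} [Group M] {I : Type} {B : I → Type}
    [∀ i, Group (B i)] (α β : ∀ i, B i →* M) (hα : ∀ i, Function.Injective (α i))
    (hβ : ∀ i, Function.Injective (β i)) (j : I) (J : Finset I) (hj : j ∉ J)
    (h : Cl C α β J) : Cl C α β (insert j J) := by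
  obtain ⟨P, _, F, p, hP, hF, hFo, hp⟩ := h
  let K : Type := MH (rst α J) (rst β J)
  let oK : M →* K := MH.of (rst α J) (rst β J)
  have hoK : Function.Injective oK := fun x y hxy => hFo (congrArg F hxy)
  let a : B j →* K := oK.comp (α j)
  let b : B j →* K := oK.comp (β j)
  have ha : Function.Injective a := hoK.comp (hα j)
  have hb : Function.Injective b := hoK.comp (hβ j)
  let φ : a.range ≃* b.range := (MonoidHom.ofInjective ha).symm.trans (MonoidHom.ofInjective hb)
  have hφ : ∀ x : B j, φ ⟨a x, ⟨x, rfl⟩⟩ = ⟨b x, ⟨x, rfl⟩⟩ := by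
    intro x
    have h1 : (MonoidHom.ofInjective ha).symm ⟨a x, ⟨x, rfl⟩⟩ = x := by
      rw [MulEquiv.symm_apply_eq]
      rfl
    show (MonoidHom.ofInjective hb) ((MonoidHom.ofInjective ha).symm ⟨a x, ⟨x, rfl⟩⟩) = _
    rw [h1]
    rfl
  let G : Type := HNNExtension K a.range b.range φ
  let fG : G →* P := HNNExtension.lift F (p j) (by
    rintro ⟨_, x, rfl⟩
    have h1 : ((φ ⟨a x, ⟨x, rfl⟩⟩ : b.range) : K) = b x := by rw [hφ]
    show p j * F (a x) = F ((φ ⟨a x, ⟨x, rfl⟩⟩ : b.range) : K) * p j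
    rw [h1, ← mul_inv_eq_iff_eq_mul]
    exact hp j x)
  have hfG : ∀ x : K, fG (HNNExtension.of x) = F x := fun x => HNNExtension.lift_of _ _ _ x
  have hfGi : Function.Injective (fG.comp HNNExtension.of) := by
    intro x y hxy
    change fG (HNNExtension.of x) = fG (HNNExtension.of y) at hxy
    rw [hfG, hfG] at hxy
    exact hF hxy
  have hGrel : ∀ x : B j, (HNNExtension.t : G) * HNNExtension.of (a x) * HNNExtension.t⁻¹ =
      HNNExtension.of (b x) := by
    intro x
    have h1 := HNNExtension.t_mul_of (φ := φ) ⟨a x, ⟨x, rfl⟩⟩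
    rw [hφ] at h1
    rw [mul_inv_eq_iff_eq_mul]
    exact h1
  -- from the multiple HNN extension
  let J' : Finset I := insert j J
  let s : J' → G := fun i => if h : (i : I) ∈ J then HNNExtension.of (MH.t (rst α J) (rst β J) ⟨i, h⟩)
    else HNNExtension.t
  let Θ : MH (rst α J') (rst β J') →* G := MH.lift (HNNExtension.of.comp oK) s (by
    rintro ⟨i, hi⟩ x
    by_cases h : i ∈ J
    · have h1 : s ⟨i, hi⟩ = HNNExtension.of (MH.t (rst α J) (rst β J) ⟨i, h⟩) := dif_pos h
      rw [h1]
      have h2 := MH.rel (rst α J) (rst β J) ⟨i, h⟩ x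
      have h3 := congrArg (HNNExtension.of : K →* G) h2
      rw [map_mul, map_mul, map_inv] at h3
      exact h3
    · have h1 : s ⟨i, hi⟩ = HNNExtension.t := dif_neg h
      rw [h1]
      have h2 : i = j := by
        rcases Finset.mem_insert.1 hi with h3 | h3
        · exact h3
        · exact absurd h3 h
      subst h2
      exact hGrel x)
  have hΘof : ∀ m, Θ (MH.of _ _ m) = HNNExtension.of (oK m) := fun m => MH.lift_of _ _ _ m
  have hΘt : ∀ i, Θ (MH.t _ _ i) = s i := fun i => MH.lift_t _ _ _ i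
  let inc : K →* MH (rst α J') (rst β J') :=
    MH.lift (MH.of _ _) (fun i => MH.t (rst α J') (rst β J') ⟨i, Finset.mem_insert_of_mem i.2⟩)
      (fun i x => MH.rel (rst α J') (rst β J') ⟨i, Finset.mem_insert_of_mem i.2⟩ x)
  have hinc : ∀ m, inc (oK m) = MH.of _ _ m := fun m => MH.lift_of _ _ _ m
  have hinct : ∀ i, inc (MH.t _ _ i) = MH.t (rst α J') (rst β J')
      ⟨i, Finset.mem_insert_of_mem i.2⟩ := fun i => MH.lift_t _ _ _ i
  let jj : J' := ⟨j, Finset.mem_insert_self j J⟩
  let Ξ : G →* MH (rst α J') (rst β J') := HNNExtension.lift inc (MH.t _ _ jj) (by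
    rintro ⟨_, x, rfl⟩
    have h1 : ((φ ⟨a x, ⟨x, rfl⟩⟩ : b.range) : K) = b x := by rw [hφ]
    show MH.t _ _ jj * inc (a x) = inc ((φ ⟨a x, ⟨x, rfl⟩⟩ : b.range) : K) * MH.t _ _ jj
    rw [h1, ← mul_inv_eq_iff_eq_mul]
    show MH.t _ _ jj * inc (oK (α j x)) * (MH.t _ _ jj)⁻¹ = inc (oK (β j x))
    rw [hinc, hinc]
    exact MH.rel (rst α J') (rst β J') jj x)
  have hΞof : ∀ x : K, Ξ (HNNExtension.of x) = inc x := fun x => HNNExtension.lift_of _ _ _ x
  have hΞt : Ξ HNNExtension.t = MH.t _ _ jj := HNNExtension.lift_t _ _ _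
  have hΞΘ : ∀ x, Ξ (Θ x) = x := by
    intro x
    have : Ξ.comp Θ = MonoidHom.id _ := MH.hom_ext (by
      intro m
      show Ξ (Θ (MH.of _ _ m)) = MH.of _ _ m
      rw [hΘof, hΞof, hinc]) (by
      rintro ⟨i, hi⟩
      show Ξ (Θ (MH.t _ _ ⟨i, hi⟩)) = MH.t _ _ ⟨i, hi⟩
      rw [hΘt]
      by_cases h : i ∈ J
      · have h1 : s ⟨i, hi⟩ = HNNExtension.of (MH.t (rst α J) (rst β J) ⟨i, h⟩) := dif_pos h
        rw [h1, hΞof, hinct]
      · have h1 : s ⟨i, hi⟩ = HNNExtension.t := dif_neg h
        rw [h1, hΞt]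
        have h2 : i = j := by
          rcases Finset.mem_insert.1 hi with h3 | h3
          · exact h3
          · exact absurd h3 h
        subst h2
        rfl)
    exact DFunLike.congr_fun this x
  have hΘi : Function.Injective Θ := Function.LeftInverse.injective hΞΘ
  let Q : Type := FreeGroup (HX a.range b.range φ fG) ⋊[permAut (HX a.range b.range φ fG) P] P
  let T : G →* Q := Th a.range b.range φ fG
  have hT : Function.Injective T := Th_injective _ _ _ _ hfGi
  have hTof : ∀ x : K, T (HNNExtension.of x) = SemidirectProduct.inr (F x) := by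
    intro x
    show Th a.range b.range φ fG (HNNExtension.of x) = _
    rw [Th_of, hfG]
  refine ⟨Q, inferInstance, T.comp Θ, fun i => SemidirectProduct.inr (p i), hperm C hC _ P hP,
    hT.comp hΘi, ?_, ?_⟩
  · intro x y hxy
    have h1 : T (Θ (MH.of _ _ x)) = T (Θ (MH.of _ _ y)) := hxy
    rw [hΘof, hΘof, hTof, hTof] at h1
    exact hFo (SemidirectProduct.inr_injective h1)
  · intro i x
    show SemidirectProduct.inr (p i) * T (Θ (MH.of _ _ (α i x))) *
      (SemidirectProduct.inr (p i))⁻¹ = T (Θ (MH.of _ _ (β i x)))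
    rw [hΘof, hΘof, hTof, hTof, ← map_mul, ← map_inv, ← map_mul]
    exact congrArg _ (hp i x)

/-- **multiple HNN extensions** along isomorphisms realized in a group in `C` -/
theorem t_mh (hperm : S_PERM) {C : ∀ (G : Type) [Group G], Prop} (hC : ClosedE C)
    {M : Type} [Group M] {I : Type} {B : I → Type}
    [∀ i, Group (B i)] (α β : ∀ i, B i →* M) (hα : ∀ i, Function.Injective (α i))
    (P : Type) [Group P] (hP : C P) (f : M →* P) (hf : Function.Injective f) (p : I → P)
    (hp : ∀ i b, p i * f (α i b) * (p i)⁻¹ = f (β i b)) : C (MH α β) := by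
  classical
  have hβ : ∀ i, Function.Injective (β i) := by
    intro i x y hxy
    have h1 : f (β i x) = f (β i y) := congrArg f hxy
    rw [← hp, ← hp] at h1
    have h2 := mul_left_cancel (mul_right_cancel h1)
    exact hα i (hf h2)
  have hcl : ∀ J : Finset I, Cl C α β J := by
    intro J
    induction J using Finset.induction_on with
    | empty => exact cl_empty α β P hP f hf p hp
    | insert j J hj ih => exact cl_insert hperm hC α β hα hβ j J hj ih
  let inc : ∀ J : Finset I, MH (rst α J) (rst β J) →* MH α β := fun J =>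
    MH.lift (MH.of α β) (fun i => MH.t α β i) (fun i x => MH.rel α β i x)
  have hinco : ∀ J m, inc J (MH.of _ _ m) = MH.of α β m := fun J m => MH.lift_of _ _ _ m
  have hinct : ∀ J i, inc J (MH.t _ _ i) = MH.t α β i := fun J i => MH.lift_t _ _ _ i
  have hmono : ∀ J J' : Finset I, J ⊆ J' → (inc J).range ≤ (inc J').range := by
    rintro J J' h _ ⟨x, rfl⟩
    refine MH.gen ((inc J').range.comap (inc J)) ?_ ?_ x
    · intro m
      exact ⟨MH.of _ _ m, by rw [hinco, hinco]⟩
    · intro i
      exact ⟨MH.t _ _ ⟨i, h i.2⟩, by rw [hinct, hinct]⟩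
  have hex : ∀ x : MH α β, ∃ J : Finset I, x ∈ (inc J).range := by
    let K : Subgroup (MH α β) :=
      { carrier := {x | ∃ J : Finset I, x ∈ (inc J).range}
        mul_mem' := by
          rintro x y ⟨J, hJ⟩ ⟨J', hJ'⟩
          exact ⟨J ∪ J', Subgroup.mul_mem _ (hmono J _ Finset.subset_union_left hJ)
            (hmono J' _ Finset.subset_union_right hJ')⟩
        one_mem' := ⟨∅, Subgroup.one_mem _⟩
        inv_mem' := by
          rintro x ⟨J, hJ⟩
          exact ⟨J, Subgroup.inv_mem _ hJ⟩ }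
    intro x
    refine MH.gen K ?_ ?_ x
    · intro m
      exact ⟨∅, MH.of _ _ m, hinco _ m⟩
    · intro i
      exact ⟨{i}, MH.t _ _ ⟨i, Finset.mem_singleton_self i⟩, hinct _ _⟩
  refine Pool.Agent.Y430.SS.of_directed hC.base (MH α β) (Finset I)
    (fun i j => ⟨i ∪ j, Finset.subset_union_left, Finset.subset_union_right⟩)
    (fun J => (inc J).range) (fun J J' h => hmono J J' h) hex ?_
  intro J
  obtain ⟨P', _, F, p', hP', hF, hFo, hp'⟩ := hcl J
  let Ω : MH α β →* P' := MH.lift (F.comp (MH.of (rst α J) (rst β J)))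
    (fun i => if h : i ∈ J then F (MH.t _ _ ⟨i, h⟩) else p' i) (by
      intro i x
      by_cases h : i ∈ J
      · rw [dif_pos h]
        have h2 := MH.rel (rst α J) (rst β J) ⟨i, h⟩ x
        have h3 := congrArg F h2
        rw [map_mul, map_mul, map_inv] at h3
        exact h3
      · rw [dif_neg h]
        exact hp' i x)
  have hΩ : Ω.comp (inc J) = F := MH.hom_ext (by
    intro m
    show Ω (inc J (MH.of _ _ m)) = _
    rw [hinco]
    exact MH.lift_of _ _ _ m) (by
    intro i
    show Ω (inc J (MH.t _ _ i)) = _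
    rw [hinct]
    show MH.lift _ _ _ (MH.t α β i) = _
    rw [MH.lift_t, dif_pos i.2])
  refine hC.base.of_injective _ P' (Ω.comp (inc J).range.subtype) ?_ hP'
  rintro ⟨_, x, rfl⟩ ⟨_, y, rfl⟩ hxy
  have h1 : (Ω.comp (inc J)) x = (Ω.comp (inc J)) y := hxy
  rw [hΩ] at h1
  have h2 := hF h1
  subst h2
  rfl

end Pool.Agent.R779.FJ
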