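import Pool.Agent.R779.FJ.Halo
import Pool.Agent.R779.FJ.Mh

/-!
# Multiple HNN extensions of halos along partial isomorphisms of labelled graphs
-/

set_option autoImplicit false

namespace Pool.Agent.R779.FJ

open Pool.Agent.Y110.FJ
open Pool.Agent.Y462.SS (Closed)

/-- a partial injection extends to a permutation of `V × ℤ` -/
theorem ext_perm {V : Type} (D : Set V) (f : D → V) (hf : Function.Injective f) :
    ∃ σ : Equiv.Perm (V × ℤ), ∀ x : D, σ (x, 0) = (f x, 0) := by
  classical
  let e : D ≃ Set.range f := Equiv.ofInjective f hf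
  have he : ∀ x : D, ((e x : Set.range f) : V) = f x := fun x => rfl
  let up : V × ℤ → V × ℤ := fun p =>
    if p.2 = 0 then (if h : p.1 ∈ D then (f ⟨p.1, h⟩, 0) else (p.1, 1))
    else if 0 < p.2 then (if p.1 ∈ D then p else (p.1, p.2 + 1))
    else (if p.1 ∈ Set.range f then p else (p.1, p.2 + 1))
  let dn : V × ℤ → V × ℤ := fun p =>
    if p.2 = 0 then (if h : p.1 ∈ Set.range f then (((e.symm ⟨p.1, h⟩ : D) : V), 0) else (p.1, -1))
    else if 0 < p.2 then (if p.1 ∈ D then p else (p.1, p.2 - 1))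
    else (if p.1 ∈ Set.range f then p else (p.1, p.2 - 1))
  have t1 : ∀ (v : V) (h : v ∈ D), up (v, 0) = (f ⟨v, h⟩, 0) := by
    intro v h
    show (if (0 : ℤ) = 0 then (if h : v ∈ D then (f ⟨v, h⟩, (0 : ℤ)) else (v, 1)) else _) = _
    rw [if_pos rfl, dif_pos h]
  have t2 : ∀ v ∉ D, up (v, 0) = (v, 1) := by
    intro v h
    show (if (0 : ℤ) = 0 then (if h : v ∈ D then (f ⟨v, h⟩, (0 : ℤ)) else (v, 1)) else _) = _
    rw [if_pos rfl, dif_neg h]
  have t3 : ∀ (v : V) (n : ℤ), 0 < n → v ∈ D → up (v, n) = (v, n) := by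
    intro v n hn h
    show (if n = 0 then _ else if 0 < n then (if v ∈ D then (v, n) else (v, n + 1)) else _) = _
    rw [if_neg hn.ne', if_pos hn, if_pos h]
  have t4 : ∀ (v : V) (n : ℤ), 0 < n → v ∉ D → up (v, n) = (v, n + 1) := by
    intro v n hn h
    show (if n = 0 then _ else if 0 < n then (if v ∈ D then (v, n) else (v, n + 1)) else _) = _
    rw [if_neg hn.ne', if_pos hn, if_neg h]
  have t5 : ∀ (v : V) (n : ℤ), n < 0 → v ∈ Set.range f → up (v, n) = (v, n) := by
    intro v n hn h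
    show (if n = 0 then _ else if 0 < n then _ else
      (if v ∈ Set.range f then (v, n) else (v, n + 1))) = _
    rw [if_neg hn.ne, if_neg (by omega), if_pos h]
  have t6 : ∀ (v : V) (n : ℤ), n < 0 → v ∉ Set.range f → up (v, n) = (v, n + 1) := by
    intro v n hn h
    show (if n = 0 then _ else if 0 < n then _ else
      (if v ∈ Set.range f then (v, n) else (v, n + 1))) = _
    rw [if_neg hn.ne, if_neg (by omega), if_neg h]
  have i1 : ∀ (v : V) (h : v ∈ Set.range f), dn (v, 0) = (((e.symm ⟨v, h⟩ : D) : V), 0) := by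
    intro v h
    show (if (0 : ℤ) = 0 then (if h : v ∈ Set.range f then (((e.symm ⟨v, h⟩ : D) : V), (0 : ℤ))
      else (v, -1)) else _) = _
    rw [if_pos rfl, dif_pos h]
  have i2 : ∀ v ∉ Set.range f, dn (v, 0) = (v, -1) := by
    intro v h
    show (if (0 : ℤ) = 0 then (if h : v ∈ Set.range f then (((e.symm ⟨v, h⟩ : D) : V), (0 : ℤ))
      else (v, -1)) else _) = _
    rw [if_pos rfl, dif_neg h]
  have i3 : ∀ (v : V) (n : ℤ), 0 < n → v ∈ D → dn (v, n) = (v, n) := by
    intro v n hn h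
    show (if n = 0 then _ else if 0 < n then (if v ∈ D then (v, n) else (v, n - 1)) else _) = _
    rw [if_neg hn.ne', if_pos hn, if_pos h]
  have i4 : ∀ (v : V) (n : ℤ), 0 < n → v ∉ D → dn (v, n) = (v, n - 1) := by
    intro v n hn h
    show (if n = 0 then _ else if 0 < n then (if v ∈ D then (v, n) else (v, n - 1)) else _) = _
    rw [if_neg hn.ne', if_pos hn, if_neg h]
  have i5 : ∀ (v : V) (n : ℤ), n < 0 → v ∈ Set.range f → dn (v, n) = (v, n) := by
    intro v n hn h
    show (if n = 0 then _ else if 0 < n then _ else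
      (if v ∈ Set.range f then (v, n) else (v, n - 1))) = _
    rw [if_neg hn.ne, if_neg (by omega), if_pos h]
  have i6 : ∀ (v : V) (n : ℤ), n < 0 → v ∉ Set.range f → dn (v, n) = (v, n - 1) := by
    intro v n hn h
    show (if n = 0 then _ else if 0 < n then _ else
      (if v ∈ Set.range f then (v, n) else (v, n - 1))) = _
    rw [if_neg hn.ne, if_neg (by omega), if_neg h]
  refine ⟨⟨up, dn, ?_, ?_⟩, fun x => t1 x.1 x.2⟩
  · rintro ⟨v, n⟩
    rcases lt_trichotomy n 0 with hn | rfl | hn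
    · by_cases h : v ∈ Set.range f
      · rw [t5 v n hn h, i5 v n hn h]
      · rw [t6 v n hn h]
        rcases eq_or_ne (n + 1) 0 with h0 | h0
        · rw [h0, i2 v h]
          exact Prod.ext rfl (by show (-1 : ℤ) = n; omega)
        · rw [i6 v (n + 1) (by omega) h]
          exact Prod.ext rfl (by show n + 1 - 1 = n; omega)
    · by_cases h : v ∈ D
      · rw [t1 v h, i1 _ ⟨_, rfl⟩]
        refine Prod.ext ?_ rfl
        show ((e.symm ⟨f ⟨v, h⟩, _⟩ : D) : V) = v
        have : e.symm ⟨f ⟨v, h⟩, ⟨_, rfl⟩⟩ = ⟨v, h⟩ := by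
          rw [Equiv.symm_apply_eq]
          rfl
        rw [this]
      · rw [t2 v h, i4 v 1 (by omega) h]
        exact Prod.ext rfl (by show (1 : ℤ) - 1 = 0; omega)
    · by_cases h : v ∈ D
      · rw [t3 v n hn h, i3 v n hn h]
      · rw [t4 v n hn h, i4 v (n + 1) (by omega) h]
        exact Prod.ext rfl (by show n + 1 - 1 = n; omega)
  · rintro ⟨v, n⟩
    rcases lt_trichotomy n 0 with hn | rfl | hn
    · by_cases h : v ∈ Set.range f
      · rw [i5 v n hn h, t5 v n hn h]
      · rw [i6 v n hn h, t6 v (n - 1) (by omega) h]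
        exact Prod.ext rfl (by show n - 1 + 1 = n; omega)
    · by_cases h : v ∈ Set.range f
      · rw [i1 v h, t1 _ (e.symm ⟨v, h⟩).2]
        refine Prod.ext ?_ rfl
        show f (e.symm ⟨v, h⟩) = v
        rw [← he, e.apply_symm_apply]
      · rw [i2 v h, t6 v (-1) (by omega) h]
        exact Prod.ext rfl (by show (-1 : ℤ) + 1 = 0; omega)
    · by_cases h : v ∈ D
      · rw [i3 v n hn h, t3 v n hn h]
      · rw [i4 v n hn h]
        rcases eq_or_ne (n - 1) 0 with h0 | h0
        · rw [h0, t2 v h]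
          exact Prod.ext rfl (by show (1 : ℤ) = n; omega)
        · rw [t4 v (n - 1) (by omega) h]
          exact Prod.ext rfl (by show n - 1 + 1 = n; omega)

/-- a family of partial isomorphisms of a labelled graph is induced by automorphisms of a larger
labelled graph -/
theorem eppaInf {L : Type} [Nonempty L] {V I : Type} (ℓ : V → V → L)
    (hℓ : ∀ x y, ℓ x y = ℓ y x) (D : I → Set V) (f : ∀ i, D i → V)
    (hf : ∀ i, Function.Injective (f i)) (hadj : ∀ i (x y : D i), ℓ (f i x) (f i y) = ℓ x y) :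
    ∃ (T : Type) (m' : T → T → L) (ι : V → T) (τ : I → Equiv.Perm T),
      (∀ x y, m' x y = m' y x) ∧ Function.Injective ι ∧ (∀ x y, m' (ι x) (ι y) = ℓ x y) ∧
      (∀ i x y, m' (τ i x) (τ i y) = m' x y) ∧ ∀ i (x : D i), τ i (ι x) = ι (f i x) := by
  classical
  have hσ := fun i => ext_perm (D i) (f i) (hf i)
  choose σ hσ using hσ
  let S : Type := V × ℤ
  let m : S → S → L := fun x y => ℓ x.1 y.1
  have hm : ∀ x y, m x y = m y x := fun x y => hℓ _ _
  let D' : I → Set S := fun i => {x | x.1 ∈ D i ∧ x.2 = 0}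
  have hD' : ∀ i, ∀ x ∈ D' i, ∀ y ∈ D' i, m (σ i x) (σ i y) = m x y := by
    rintro i ⟨x, a⟩ ⟨hx, rfl⟩ ⟨y, b⟩ ⟨hy, rfl⟩
    rw [hσ i ⟨x, hx⟩, hσ i ⟨y, hy⟩]
    exact hadj i ⟨x, hx⟩ ⟨y, hy⟩
  let W : Type := L → ZMod 3
  let c : S → S → W := fun x y => Pi.single (m x y) 2
  let dec : W → L := fun w => if h : ∃ l : L, w = Pi.single l 1 then Classical.choose h
    else Classical.arbitrary L
  have hdec : ∀ l : L, dec (Pi.single l 1) = l := by
    intro l
    have h : ∃ l' : L, (Pi.single l 1 : W) = Pi.single l' 1 := ⟨l, rfl⟩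
    show (if h : ∃ l' : L, (Pi.single l 1 : W) = Pi.single l' 1 then Classical.choose h
      else Classical.arbitrary L) = l
    rw [dif_pos h]
    have h1 := Classical.choose_spec h
    by_contra hne
    have h3 := congrFun h1 l
    rw [Pi.single_eq_same, Pi.single_eq_of_ne (fun hh => hne hh.symm)] at h3
    exact absurd h3 (by decide)
  have hcs : ∀ x y, c x y = c y x := by
    intro x y
    show (Pi.single (m x y) 2 : W) = Pi.single (m y x) 2
    rw [hm]
  have hcc : ∀ x y, c x y + c y x = Pi.single (m x y) 1 := by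
    intro x y
    rw [hcs y x]
    show (Pi.single (m x y) 2 : W) + Pi.single (m x y) 2 = _
    rw [← Pi.single_add]
    rfl
  let F : I → S → S → W := fun i x y => (if x ∈ D' i then c (σ i x) (σ i y) - c x y else 0) -
    (if y ∈ D' i then c (σ i x) (σ i y) - c x y else 0)
  have hF : ∀ i x y, F i x y + F i y x = 0 := by
    intro i x y
    show (if x ∈ D' i then c (σ i x) (σ i y) - c x y else 0) -
      (if y ∈ D' i then c (σ i x) (σ i y) - c x y else 0) +
      ((if y ∈ D' i then c (σ i y) (σ i x) - c y x else 0) -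
      (if x ∈ D' i then c (σ i y) (σ i x) - c y x else 0)) = 0
    rw [hcs (σ i y), hcs y]
    abel
  have hD : ∀ i, ∀ x ∈ D' i, ∀ y ∈ D' i, c (σ i x) (σ i y) = c x y := by
    intro i x hx y hy
    show (Pi.single (m (σ i x) (σ i y)) 2 : W) = Pi.single (m x y) 2
    rw [hD' i x hx y hy]
  refine ⟨S × (S → W), fun p q => dec (val2 p q), fun x => ((x, 0), c (x, 0)),
    fun i => twistL (σ i) (F i), ?_, ?_, ?_, ?_, ?_⟩
  · intro p q
    show dec (p.2 q.1 + q.2 p.1) = dec (q.2 p.1 + p.2 q.1)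
    rw [add_comm]
  · intro x y h
    exact congrArg (fun z => z.1.1) h
  · intro x y
    show dec (c (x, 0) (y, 0) + c (y, 0) (x, 0)) = ℓ x y
    rw [hcc, hdec]
  · intro i p q
    show dec (val2 (twistL (σ i) (F i) p) (twistL (σ i) (F i) q)) = dec (val2 p q)
    rw [val2_twistL (σ i) (F i) (hF i)]
  · intro i x
    have hx : (((x : V), (0 : ℤ)) : S) ∈ D' i := ⟨x.2, rfl⟩
    show (σ i (x, 0), fun z => c (x, 0) ((σ i).symm z) + F i (x, 0) ((σ i).symm z)) =
      ((f i x, 0), c (f i x, 0))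
    rw [← hσ i x]
    refine Prod.ext rfl ?_
    funext z
    obtain ⟨y, rfl⟩ := (σ i).surjective z
    show c (x, 0) ((σ i).symm (σ i y)) + F i (x, 0) ((σ i).symm (σ i y)) =
      c (σ i (x, 0)) (σ i y)
    rw [Equiv.symm_apply_apply]
    show c (x, 0) y + ((if (((x : V), (0 : ℤ)) : S) ∈ D' i then c (σ i (x, 0)) (σ i y) - c (x, 0) y
      else 0) - (if y ∈ D' i then c (σ i (x, 0)) (σ i y) - c (x, 0) y else 0)) = _
    rw [if_pos hx]
    by_cases hy : y ∈ D' i
    · rw [if_pos hy, hD i _ hx y hy]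
      abel
    · rw [if_neg hy]
      abel

theorem free_mem {C : ∀ (G : Type) [Group G], Prop} (hC : ClosedE C) (I : Type) :
    C (FreeGroup I) :=
  hC.base.of_injective _ _ (SemidirectProduct.inl : FreeGroup I →* _)
    SemidirectProduct.inl_injective (Pool.Agent.Y961.FJ.any_perm hC.base I 1)

/-- semidirect products of halos with groups of automorphisms -/
theorem halo_semi (hcrit : S_CRIT) (C : ∀ (G : Type) [Group G], Prop) (hC : ClosedE C)
    {L : Type} (hL : Nonempty L) (H : Halo L)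
    (hfin : ∀ (S : Type) (m : S → S → L), Finite S → (∀ x y, m x y = m y x) → C (H.obj S m))
    {T : Type} (m : T → T → L) (hm : ∀ x y, m x y = m y x) (Q : Type) [Group Q] (hQ : C Q)
    (χ : Q →* Halo.Aut m) : C (H.obj T m ⋊[(H.act m).comp χ] Q) := by
  let G : Type := H.obj T m ⋊[(H.act m).comp χ] Q
  let N : Subgroup G := (SemidirectProduct.inl : H.obj T m →* G).range
  have hN : N = (SemidirectProduct.rightHom : G →* Q).ker := by
    show (SemidirectProduct.inl : H.obj T m →* G).range = _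
    exact SemidirectProduct.range_inl_eq_ker_rightHom
  have : N.Normal := by rw [hN]; infer_instance
  let e : H.obj T m ≃* N := MonoidHom.ofInjective SemidirectProduct.inl_injective
  have hGN : C (G ⧸ N) := by
    refine hC.base.of_injective _ Q (QuotientGroup.lift N (SemidirectProduct.rightHom : G →* Q)
      (by rw [hN])) ?_ hQ
    rw [injective_iff_map_eq_one]
    intro x hx
    obtain ⟨y, rfl⟩ := QuotientGroup.mk'_surjective _ x
    have h1 : y ∈ (SemidirectProduct.rightHom : G →* Q).ker := hx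
    rw [← hN] at h1
    exact (QuotientGroup.eq_one_iff _).2 h1
  refine t_halo hcrit C hC H hfin m hm hL G N e hGN ?_
  intro g
  refine ⟨(χ g.right : Equiv.Perm T), Halo.emb_aut (χ g.right), ⟨SemidirectProduct.inl g.left,
    ⟨_, rfl⟩⟩, fun x => ?_⟩
  show g * SemidirectProduct.inl x * g⁻¹ = SemidirectProduct.inl g.left *
    SemidirectProduct.inl (H.map _ (Halo.emb_aut (χ g.right)) x) *
      (SemidirectProduct.inl g.left)⁻¹
  have h1 : g = SemidirectProduct.inl g.left * SemidirectProduct.inr g.right :=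
    (SemidirectProduct.inl_left_mul_inr_right g).symm
  have h3 : (SemidirectProduct.inr g.right : G) * SemidirectProduct.inl x *
      (SemidirectProduct.inr g.right)⁻¹ =
      SemidirectProduct.inl (H.map _ (Halo.emb_aut (χ g.right)) x) := by
    have := SemidirectProduct.inl_aut (φ := (H.act m).comp χ) g.right x
    rw [map_inv] at this
    exact this.symm
  rw [← h3]
  conv_lhs => rw [h1]
  rw [mul_inv_rev]
  simp only [mul_assoc]

/-- the multiple HNN extension of a halo -/
abbrev HH {L V I : Type} (H : Halo L) (ℓ : V → V → L) (D : I → Set V) (f : ∀ i, D i → V)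
    (hf : ∀ i, Emb (rs ℓ (D i)) ℓ (f i)) : Type :=
  MH (M := H.obj V ℓ) (B := fun i => H.obj (D i) (rs ℓ (D i)))
    (fun i => H.map Subtype.val (emb_val ℓ (D i))) (fun i => H.map (f i) (hf i))

theorem t_hh (hcrit : S_CRIT) (hperm : S_PERM) (C : ∀ (G : Type) [Group G], Prop)
    (hC : ClosedE C) {L : Type} (hL : Nonempty L) (H : Halo L)
    (hfin : ∀ (S : Type) (m : S → S → L), Finite S → (∀ x y, m x y = m y x) → C (H.obj S m))
    {V I : Type} (ℓ : V → V → L) (hℓ : ∀ x y, ℓ x y = ℓ y x) (D : I → Set V)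
    (f : ∀ i, D i → V) (hf : ∀ i, Emb (rs ℓ (D i)) ℓ (f i)) : C (HH H ℓ D f hf) := by
  obtain ⟨T, m', ι, τ, hm', hι, hιm, hτ, hτι⟩ := eppaInf ℓ hℓ D f (fun i => (hf i).1)
    (fun i x y => (hf i).2 x y)
  have hιe : Emb ℓ m' ι := ⟨hι, hιm⟩
  let χ : FreeGroup I →* Halo.Aut m' := FreeGroup.lift (fun i => ⟨τ i, hτ i⟩)
  have hχ : ∀ i, χ (FreeGroup.of i) = ⟨τ i, hτ i⟩ := fun i => FreeGroup.lift_apply_of
  have hP := halo_semi hcrit C hC hL H hfin m' hm' (FreeGroup I) (free_mem hC I) χ
  refine t_mh hperm hC _ _ (fun i => H.inj _ _) _ hP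
    (SemidirectProduct.inl.comp (H.map ι hιe)) (SemidirectProduct.inl_injective.comp (H.inj _ _))
    (fun i => SemidirectProduct.inr (FreeGroup.of i)) ?_
  intro i b
  have h1 := SemidirectProduct.inl_aut (φ := (H.act m').comp χ) (FreeGroup.of i)
    (H.map ι hιe (H.map Subtype.val (emb_val ℓ (D i)) b))
  rw [map_inv] at h1
  refine h1.symm.trans (congrArg _ ?_)
  show H.act m' (χ (FreeGroup.of i)) _ = H.map ι hιe (H.map (f i) (hf i) b)
  rw [hχ, Halo.act_apply, H.map_comp, H.map_comp, H.map_comp]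
  refine H.map_congr ?_ _ _ b
  funext a
  exact hτι i a

end Pool.Agent.R779.FJ
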