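import Pool.Agent.Y110.FJ.Stm

/-!
# Partial isomorphisms of finite graphs extend to automorphisms of finite larger graphs

The construction of Hubička, Konečný and Nešetřil for one partial isomorphism: the vertices are the
pairs `(x, χ)` with `χ : S → ZMod 3`.
-/

set_option autoImplicit false

namespace Pool.Agent.R779.FJ

open Pool.Agent.Y110.FJ

section eppa

variable {S : Type}

/-- the larger graph -/
def bigG (S : Type) : SimpleGraph (S × (S → ZMod 3)) where
  Adj p q := p.1 ≠ q.1 ∧ p.2 q.1 + q.2 p.1 = 1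
  symm := ⟨fun p q h => ⟨h.1.symm, by rw [add_comm]; exact h.2⟩⟩
  loopless := ⟨fun p h => h.1 rfl⟩

theorem bigG_adj (p q : S × (S → ZMod 3)) :
    (bigG S).Adj p q ↔ p.1 ≠ q.1 ∧ p.2 q.1 + q.2 p.1 = 1 := Iff.rfl

/-- the automorphism given by a permutation and an antisymmetric function -/
def twist (σ : Equiv.Perm S) (F : S → S → ZMod 3) : Equiv.Perm (S × (S → ZMod 3)) where
  toFun p := (σ p.1, fun z => p.2 (σ.symm z) + F p.1 (σ.symm z))
  invFun p := (σ.symm p.1, fun y => p.2 (σ y) - F (σ.symm p.1) y)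
  left_inv p := by
    ext
    · simp
    · simp
  right_inv p := by
    ext
    · simp
    · simp

theorem twist_adj (σ : Equiv.Perm S) (F : S → S → ZMod 3) (hF : ∀ x y, F x y + F y x = 0)
    (p q : S × (S → ZMod 3)) :
    (bigG S).Adj (twist σ F p) (twist σ F q) ↔ (bigG S).Adj p q := by
  rw [bigG_adj, bigG_adj]
  have h1 : (twist σ F p).1 ≠ (twist σ F q).1 ↔ p.1 ≠ q.1 := by
    show σ p.1 ≠ σ q.1 ↔ _
    simp
  have h2 : (twist σ F p).2 (twist σ F q).1 + (twist σ F q).2 (twist σ F p).1 =
      p.2 q.1 + q.2 p.1 := by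
    show p.2 (σ.symm (σ q.1)) + F p.1 (σ.symm (σ q.1)) +
      (q.2 (σ.symm (σ p.1)) + F q.1 (σ.symm (σ p.1))) = _
    rw [Equiv.symm_apply_apply, Equiv.symm_apply_apply]
    linear_combination hF p.1 q.1
  rw [h1, h2]

end eppa

/-- a partial isomorphism of a finite graph is induced by an automorphism of a finite larger graph -/
theorem t_eppa : S_EPPA := by
  classical
  intro S hS Λ D f hf hadj
  have : Fintype S := Fintype.ofFinite S
  -- the permutation
  let e : {x // x ∈ D} ≃ {x // x ∈ Set.range f} := Equiv.ofInjective f hf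
  let σ : Equiv.Perm S := Equiv.extendSubtype e
  have hσ : ∀ x : D, σ x = f x := by
    intro x
    have := Equiv.extendSubtype_apply_of_mem e x.1 x.2
    rw [show σ x.1 = _ from this]
    rfl
  let c : S → S → ZMod 3 := fun x y => if Λ.Adj x y then 2 else 0
  have hcs : ∀ x y, c x y = c y x := by
    intro x y
    show (if Λ.Adj x y then (2 : ZMod 3) else 0) = if Λ.Adj y x then 2 else 0
    rw [Λ.adj_comm]
  let s : S → ZMod 3 := fun x => if x ∈ D then 1 else 0
  let F : S → S → ZMod 3 := fun x y => (s x - s y) * (c (σ x) (σ y) - c x y)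
  have hF : ∀ x y, F x y + F y x = 0 := by
    intro x y
    show (s x - s y) * (c (σ x) (σ y) - c x y) + (s y - s x) * (c (σ y) (σ x) - c y x) = 0
    rw [hcs (σ y), hcs y]
    ring
  have hD : ∀ x ∈ D, ∀ y ∈ D, c (σ x) (σ y) = c x y := by
    intro x hx y hy
    show (if Λ.Adj (σ x) (σ y) then (2 : ZMod 3) else 0) = if Λ.Adj x y then 2 else 0
    have h1 := hσ ⟨x, hx⟩
    have h2 := hσ ⟨y, hy⟩
    simp only at h1 h2
    rw [h1, h2]
    simp only [hadj]
  refine ⟨S × (S → ZMod 3), inferInstance, bigG S, fun x => (x, c x), twist σ F, ?_, ?_, ?_, ?_⟩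
  · intro x y h
    exact congrArg Prod.fst h
  · intro x y
    rw [bigG_adj]
    show x ≠ y ∧ c x y + c y x = 1 ↔ _
    rw [hcs y x]
    by_cases h : Λ.Adj x y
    · have h1 : c x y = 2 := if_pos h
      rw [h1]
      refine ⟨fun _ => h, fun _ => ⟨h.ne, by decide⟩⟩
    · have h1 : c x y = 0 := if_neg h
      rw [h1]
      refine ⟨fun h2 => absurd h2.2 (by decide), fun h2 => absurd h2 h⟩
  · exact twist_adj σ F hF
  · intro x
    show (σ x, fun z => c x (σ.symm z) + F x (σ.symm z)) = (f x, c (f x))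
    rw [← hσ x]
    refine Prod.ext rfl ?_
    funext z
    obtain ⟨y, rfl⟩ := σ.surjective z
    show c x (σ.symm (σ y)) + F x (σ.symm (σ y)) = c (σ x) (σ y)
    rw [Equiv.symm_apply_apply]
    show c x y + (s x - s y) * (c (σ x) (σ y) - c x y) = _
    have hx : s x = 1 := if_pos x.2
    rw [hx]
    by_cases hy : y ∈ D
    · have : s y = 1 := if_pos hy
      rw [this, hD x x.2 y hy]
      ring
    · have : s y = 0 := if_neg hy
      rw [this]
      ring

end Pool.Agent.R779.FJ
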