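import Pool.Agent.Y417.FJ.Am
import Pool.Agent.Y430.SS.Lf

/-!
# Graph products
-/

set_option autoImplicit false

namespace Pool.Agent.R779.FJ

open Pool.Agent.Y110.FJ
open Pool.Agent.Y462.SS (Closed)

namespace Gp

variable {V : Type} {Λ : SimpleGraph V} {A : V → Type} [∀ v, Group (A v)]

theorem comm {v w : V} (h : Λ.Adj v w) (a : A v) (b : A w) :
    GrP.of Λ A v a * GrP.of Λ A w b = GrP.of Λ A w b * GrP.of Λ A v a := by
  have h1 : (Monoid.CoprodI.of a * Monoid.CoprodI.of b * (Monoid.CoprodI.of a)⁻¹ *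
      (Monoid.CoprodI.of b)⁻¹ : Monoid.CoprodI A) ∈ Subgroup.normalClosure (commRel Λ A) :=
    Subgroup.subset_normalClosure ⟨v, w, a, b, h, rfl⟩
  have h2 := (QuotientGroup.eq_one_iff _).2 h1
  have h3 : GrP.of Λ A v a * GrP.of Λ A w b * (GrP.of Λ A v a)⁻¹ * (GrP.of Λ A w b)⁻¹ = 1 := h2
  rw [mul_inv_eq_one, mul_inv_eq_iff_eq_mul] at h3
  exact h3

/-- homomorphisms out of a graph product -/
def lift {H : Type} [Group H] (f : ∀ v, A v →* H)
    (hf : ∀ v w, Λ.Adj v w → ∀ a b, f v a * f w b = f w b * f v a) : GrP Λ A →* H :=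
  QuotientGroup.lift _ (Monoid.CoprodI.lift f) (by
    show Subgroup.normalClosure (commRel Λ A) ≤ (Monoid.CoprodI.lift f).ker
    refine Subgroup.normalClosure_le_normal ?_
    rintro _ ⟨v, w, a, b, h, rfl⟩
    show Monoid.CoprodI.lift f _ = 1
    rw [map_mul, map_mul, map_mul, map_inv, map_inv, Monoid.CoprodI.lift_of,
      Monoid.CoprodI.lift_of, mul_inv_eq_one, mul_inv_eq_iff_eq_mul]
    exact hf v w h a b)

theorem lift_of {H : Type} [Group H] (f : ∀ v, A v →* H)
    (hf : ∀ v w, Λ.Adj v w → ∀ a b, f v a * f w b = f w b * f v a) (v : V) (a : A v) :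
    lift f hf (GrP.of Λ A v a) = f v a := by
  show Monoid.CoprodI.lift f (Monoid.CoprodI.of a) = _
  rw [Monoid.CoprodI.lift_of]

/-- the subgroup generated by some vertex groups -/
def sub (U : Set V) : Subgroup (GrP Λ A) :=
  Subgroup.closure {x | ∃ v ∈ U, ∃ a : A v, GrP.of Λ A v a = x}

theorem of_mem {U : Set V} {v : V} (hv : v ∈ U) (a : A v) : GrP.of Λ A v a ∈ (sub U : Subgroup (GrP Λ A)) :=
  Subgroup.subset_closure ⟨v, hv, a, rfl⟩

theorem sub_mono {U U' : Set V} (h : U ⊆ U') : (sub U : Subgroup (GrP Λ A)) ≤ sub U' :=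
  Subgroup.closure_mono (by
    rintro _ ⟨v, hv, a, rfl⟩
    exact ⟨v, h hv, a, rfl⟩)

theorem sub_univ : (sub Set.univ : Subgroup (GrP Λ A)) = ⊤ := by
  rw [eq_top_iff]
  rintro x -
  obtain ⟨y, rfl⟩ := QuotientGroup.mk'_surjective _ x
  induction y using Monoid.CoprodI.induction_on with
  | one => rw [map_one]; exact Subgroup.one_mem _
  | of v a => exact of_mem (Set.mem_univ v) a
  | mul x y hx hy => rw [map_mul]; exact Subgroup.mul_mem _ hx hy

theorem exists_fin (x : GrP Λ A) : ∃ U : Finset V, x ∈ (sub (U : Set V) : Subgroup (GrP Λ A)) := by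
  classical
  have hx : x ∈ (sub Set.univ : Subgroup (GrP Λ A)) := by rw [sub_univ]; trivial
  induction hx using Subgroup.closure_induction with
  | mem x hx =>
    obtain ⟨v, -, a, rfl⟩ := hx
    exact ⟨{v}, of_mem (by simp) a⟩
  | one => exact ⟨∅, Subgroup.one_mem _⟩
  | mul x y _ _ hx hy =>
    obtain ⟨U, hU⟩ := hx
    obtain ⟨U', hU'⟩ := hy
    refine ⟨U ∪ U', Subgroup.mul_mem _ (sub_mono ?_ hU) (sub_mono ?_ hU')⟩
    · simp
    · simp
  | inv x _ hx =>
    obtain ⟨U, hU⟩ := hx
    exact ⟨U, Subgroup.inv_mem _ hU⟩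

theorem hom_ext {H : Type} [Group H] {f g : GrP Λ A →* H}
    (h : ∀ v a, f (GrP.of Λ A v a) = g (GrP.of Λ A v a)) : f = g := by
  refine MonoidHom.ext fun x => ?_
  have hx : x ∈ (sub Set.univ : Subgroup (GrP Λ A)) := by rw [sub_univ]; trivial
  induction hx using Subgroup.closure_induction with
  | mem x hx =>
    obtain ⟨v, -, a, rfl⟩ := hx
    exact h v a
  | one => rw [map_one, map_one]
  | mul x y _ _ hx hy => rw [map_mul, map_mul, hx, hy]
  | inv x _ hx => rw [map_inv, map_inv, hx]

theorem eqOn {H : Type} [Group H] {f g : GrP Λ A →* H} {U : Set V}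
    (h : ∀ v ∈ U, ∀ a, f (GrP.of Λ A v a) = g (GrP.of Λ A v a)) (x : GrP Λ A)
    (hx : x ∈ (sub U : Subgroup (GrP Λ A))) : f x = g x := by
  induction hx using Subgroup.closure_induction with
  | mem x hx =>
    obtain ⟨v, hv, a, rfl⟩ := hx
    exact h v hv a
  | one => rw [map_one, map_one]
  | mul x y _ _ hx hy => rw [map_mul, map_mul, hx, hy]
  | inv x _ hx => rw [map_inv, map_inv, hx]

theorem map_mem {H : Type} [Group H] {f : GrP Λ A →* H} {U : Set V} {K : Subgroup H}
    (h : ∀ v ∈ U, ∀ a, f (GrP.of Λ A v a) ∈ K) (x : GrP Λ A)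
    (hx : x ∈ (sub U : Subgroup (GrP Λ A))) : f x ∈ K := by
  have h1 : (sub U : Subgroup (GrP Λ A)) ≤ K.comap f := by
    rw [sub, Subgroup.closure_le]
    rintro _ ⟨v, hv, a, rfl⟩
    exact h v hv a
  exact h1 hx

open Classical in
/-- the retraction -/
noncomputable def ret (U : Set V) : GrP Λ A →* GrP Λ A :=
  lift (fun v => if v ∈ U then GrP.of Λ A v else 1) (by
    intro v w h a b
    by_cases hv : v ∈ U
    · by_cases hw : w ∈ U
      · rw [if_pos hv, if_pos hw]
        exact comm h a b
      · rw [if_neg hw]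
        simp
    · rw [if_neg hv]
      simp)

theorem ret_of_mem {U : Set V} {v : V} (hv : v ∈ U) (a : A v) :
    ret U (GrP.of Λ A v a) = GrP.of Λ A v a := by
  rw [ret, lift_of, if_pos hv]

theorem ret_of_not_mem {U : Set V} {v : V} (hv : v ∉ U) (a : A v) :
    ret U (GrP.of Λ A v a) = 1 := by
  rw [ret, lift_of, if_neg hv]
  rfl

theorem ret_mem (U : Set V) (x : GrP Λ A) : ret U x ∈ (sub U : Subgroup (GrP Λ A)) := by
  refine map_mem (U := Set.univ) ?_ x (by rw [sub_univ]; trivial)
  intro v _ a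
  by_cases hv : v ∈ U
  · rw [ret_of_mem hv]
    exact of_mem hv a
  · rw [ret_of_not_mem hv]
    exact Subgroup.one_mem _

theorem ret_eq {U : Set V} {x : GrP Λ A} (hx : x ∈ (sub U : Subgroup (GrP Λ A))) :
    ret U x = x :=
  eqOn (f := ret U) (g := MonoidHom.id _) (fun _ hv a => ret_of_mem hv a) x hx

theorem ret_one {U U' : Set V} (h : Disjoint U U') {x : GrP Λ A}
    (hx : x ∈ (sub U : Subgroup (GrP Λ A))) : ret U' x = 1 :=
  eqOn (f := ret U') (g := 1)
    (fun _ hv a => ret_of_not_mem (fun h' => Set.disjoint_left.1 h hv h') a) x hx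

open Classical in
/-- the projection to a vertex group -/
noncomputable def prj (v : V) : GrP Λ A →* A v :=
  lift (fun w => if h : w = v then (h ▸ MonoidHom.id (A w)) else 1) (by
    intro u w h a b
    by_cases hu : u = v
    · by_cases hw : w = v
      · exact absurd (hu.trans hw.symm) h.ne
      · rw [dif_neg hw]
        simp
    · rw [dif_neg hu]
      simp)

theorem prj_of (v : V) (a : A v) : prj v (GrP.of Λ A v a) = a := by
  rw [prj, lift_of, dif_pos rfl]
  rfl

theorem prj_of_ne {v w : V} (h : w ≠ v) (a : A w) : prj v (GrP.of Λ A w a) = 1 := by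
  rw [prj, lift_of, dif_neg h]
  rfl

theorem of_injective (v : V) : Function.Injective (GrP.of Λ A v) :=
  Function.LeftInverse.injective (prj_of v)

/-- the decomposition -/
theorem amg (U : Set V) (v : V) (hv : v ∉ U) (L : Set V) (hL : L = {u | u ∈ U ∧ Λ.Adj v u}) :
    Amg ((sub U : Subgroup (GrP Λ A)).subgroupOf (sub (insert v U)))
      ((sub (insert v L) : Subgroup (GrP Λ A)).subgroupOf (sub (insert v U)))
      ((sub L : Subgroup (GrP Λ A)).subgroupOf (sub (insert v U))) := by
  classical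
  have hLU : L ⊆ U := by
    rw [hL]
    exact fun u hu => hu.1
  refine ⟨?_, ?_, ?_, ?_⟩
  · exact Subgroup.comap_mono (sub_mono hLU)
  · exact Subgroup.comap_mono (sub_mono (Set.subset_insert v L))
  · rw [eq_top_iff]
    rintro ⟨x, hx⟩ -
    have : x ∈ ((sub U : Subgroup (GrP Λ A)).subgroupOf (sub (insert v U)) ⊔
        (sub (insert v L) : Subgroup (GrP Λ A)).subgroupOf (sub (insert v U))).map
          (sub (insert v U)).subtype := by
      have h2 : (sub (insert v U) : Subgroup (GrP Λ A)) ≤ ((sub U : Subgroup (GrP Λ A)).subgroupOf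
          (sub (insert v U)) ⊔ (sub (insert v L) : Subgroup (GrP Λ A)).subgroupOf
            (sub (insert v U))).map (sub (insert v U)).subtype := by
        conv_lhs => rw [sub]
        rw [Subgroup.closure_le]
        rintro _ ⟨u, hu, a, rfl⟩
        refine ⟨⟨GrP.of Λ A u a, of_mem hu a⟩, ?_, rfl⟩
        rcases hu with rfl | hu
        · exact (le_sup_right : (sub (insert u L) : Subgroup (GrP Λ A)).subgroupOf
            (sub (insert u U)) ≤ _) (of_mem (Set.mem_insert u L) a)
        · exact (le_sup_left : (sub U : Subgroup (GrP Λ A)).subgroupOf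
            (sub (insert v U)) ≤ _) (of_mem hu a)
      exact h2 hx
    obtain ⟨y, hy, hyx⟩ := this
    have : y = ⟨x, hx⟩ := Subtype.ext hyx
    rwa [← this]
  · intro H _ f g hfg
    -- the two homomorphisms as homomorphisms on the whole group
    have hU' : ∀ x : GrP Λ A, ret U x ∈ (sub (insert v U) : Subgroup (GrP Λ A)) := fun x =>
      sub_mono (Set.subset_insert v U) (ret_mem U x)
    have hLv : (insert v L : Set V) ⊆ insert v U := Set.insert_subset_insert hLU
    have hL' : ∀ x : GrP Λ A, ret (insert v L) x ∈ (sub (insert v U) : Subgroup (GrP Λ A)) :=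
      fun x => sub_mono hLv (ret_mem _ x)
    let rU : GrP Λ A →* ↥((sub U : Subgroup (GrP Λ A)).subgroupOf (sub (insert v U))) :=
      ((ret U).codRestrict (sub (insert v U)) hU').codRestrict _ (fun x => ret_mem U x)
    let rL : GrP Λ A →* ↥((sub (insert v L) : Subgroup (GrP Λ A)).subgroupOf (sub (insert v U))) :=
      ((ret (insert v L)).codRestrict (sub (insert v U)) hL').codRestrict _
        (fun x => ret_mem _ x)
    have hrU : ∀ (x : GrP Λ A) (hx : x ∈ (sub U : Subgroup (GrP Λ A))),
        rU x = ⟨⟨x, sub_mono (Set.subset_insert v U) hx⟩, hx⟩ := by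
      intro x hx
      apply Subtype.ext
      apply Subtype.ext
      exact ret_eq hx
    have hrL : ∀ (x : GrP Λ A) (hx : x ∈ (sub (insert v L) : Subgroup (GrP Λ A))),
        rL x = ⟨⟨x, sub_mono hLv hx⟩, hx⟩ := by
      intro x hx
      apply Subtype.ext
      apply Subtype.ext
      exact ret_eq hx
    have hagree : ∀ x ∈ (sub L : Subgroup (GrP Λ A)), f (rU x) = g (rL x) := by
      intro x hx
      rw [hrU x (sub_mono hLU hx), hrL x (sub_mono (Set.subset_insert v L) hx)]
      exact hfg ⟨x, _⟩ hx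
    have hout : ∀ u, u ∉ U → ∀ b : A u, rU (GrP.of Λ A u b) = 1 := by
      intro u hu b
      apply Subtype.ext
      apply Subtype.ext
      exact ret_of_not_mem hu b
    let fam : ∀ u, A u →* H := fun u => if u = v then (g.comp rL).comp (GrP.of Λ A u)
      else (f.comp rU).comp (GrP.of Λ A u)
    have hfam1 : ∀ a : A v, fam v a = g (rL (GrP.of Λ A v a)) := by
      intro a
      show (if v = v then (g.comp rL).comp (GrP.of Λ A v)
        else (f.comp rU).comp (GrP.of Λ A v) : A v →* H) a = _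
      rw [if_pos rfl]
      rfl
    have hfam2 : ∀ u, u ≠ v → ∀ a : A u, fam u a = f (rU (GrP.of Λ A u a)) := by
      intro u hu a
      show (if u = v then (g.comp rL).comp (GrP.of Λ A u)
        else (f.comp rU).comp (GrP.of Λ A u) : A u →* H) a = _
      rw [if_neg hu]
      rfl
    have hcomm1 : ∀ w, Λ.Adj v w → ∀ (a : A v) (b : A w), fam v a * fam w b = fam w b * fam v a := by
      intro w h a b
      rw [hfam1, hfam2 w h.ne']
      by_cases hw : w ∈ U
      · have hwL : w ∈ L := by rw [hL]; exact ⟨hw, h⟩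
        rw [hagree _ (of_mem hwL b), ← map_mul, ← map_mul, ← map_mul, ← map_mul, comm h]
      · rw [hout w hw b, map_one]
        simp
    let h0 : GrP Λ A →* H := lift fam (by
      intro u w h a b
      by_cases hu : u = v
      · subst hu
        exact hcomm1 w h a b
      · by_cases hw : w = v
        · subst hw
          exact (hcomm1 u h.symm b a).symm
        · rw [hfam2 u hu, hfam2 w hw, ← map_mul, ← map_mul, ← map_mul, ← map_mul, comm h])
    refine ⟨h0.comp (sub (insert v U)).subtype, ?_, ?_⟩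
    · rintro ⟨⟨x, hx⟩, hx'⟩
      have h1 : h0 x = (f.comp rU) x := by
        refine eqOn ?_ x hx'
        intro u hu a
        have huv : u ≠ v := fun h => hv (h ▸ hu)
        show lift fam _ (GrP.of Λ A u a) = _
        rw [lift_of, hfam2 u huv]
        rfl
      show h0 x = _
      rw [h1]
      show f (rU x) = _
      rw [hrU x hx']
    · rintro ⟨⟨x, hx⟩, hx'⟩
      have h1 : h0 x = (g.comp rL) x := by
        refine eqOn ?_ x hx'
        intro u hu a
        show lift fam _ (GrP.of Λ A u a) = _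
        rw [lift_of]
        rcases hu with rfl | hu
        · exact hfam1 a
        · have huv : u ≠ v := fun h => hv (h ▸ hLU hu)
          rw [hfam2 u huv, hagree _ (of_mem hu a)]
          rfl
      show h0 x = _
      rw [h1]
      show g (rL x) = _
      rw [hrL x hx']

/-- the elements of the subgroup of a vertex and its neighbours -/
theorem star_mem {v : V} {L : Set V} (hL : ∀ u ∈ L, Λ.Adj v u) {x : GrP Λ A}
    (hx : x ∈ (sub (insert v L) : Subgroup (GrP Λ A))) :
    ∃ y ∈ (sub L : Subgroup (GrP Λ A)), ∃ a : A v, x = y * GrP.of Λ A v a := by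
  have hcomm : ∀ (a : A v), ∀ y ∈ (sub L : Subgroup (GrP Λ A)),
      GrP.of Λ A v a * y = y * GrP.of Λ A v a := by
    intro a y hy
    induction hy using Subgroup.closure_induction with
    | mem y hy =>
      obtain ⟨u, hu, b, rfl⟩ := hy
      exact comm (hL u hu) a b
    | one => simp
    | mul y z _ _ hy hz => rw [← mul_assoc, hy, mul_assoc, hz, mul_assoc]
    | inv y _ hy => rw [mul_inv_eq_iff_eq_mul, mul_assoc, hy, inv_mul_cancel_left]
  induction hx using Subgroup.closure_induction with
  | mem x hx =>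
    obtain ⟨u, hu, b, rfl⟩ := hx
    rcases hu with rfl | hu
    · exact ⟨1, Subgroup.one_mem _, b, by simp⟩
    · exact ⟨_, of_mem hu b, 1, by simp⟩
  | one => exact ⟨1, Subgroup.one_mem _, 1, by simp⟩
  | mul x y _ _ hx hy =>
    obtain ⟨x', hx', a, rfl⟩ := hx
    obtain ⟨y', hy', b, rfl⟩ := hy
    refine ⟨x' * y', Subgroup.mul_mem _ hx' hy', a * b, ?_⟩
    rw [map_mul, mul_assoc, ← mul_assoc (GrP.of Λ A v a), hcomm a y' hy']
    group
  | inv x _ hx =>
    obtain ⟨x', hx', a, rfl⟩ := hx
    refine ⟨x'⁻¹, Subgroup.inv_mem _ hx', a⁻¹, ?_⟩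
    have h1 := hcomm a⁻¹ x'⁻¹ (Subgroup.inv_mem _ hx')
    rw [map_inv] at h1 ⊢
    rw [mul_inv_rev, h1]

theorem fin_sub (ham : S_AM) {C : ∀ (G : Type) [Group G], Prop} (hC : ClosedE C)
    (hA : ∀ v, C (A v)) (U : Finset V) : C ↥(sub (U : Set V) : Subgroup (GrP Λ A)) := by
  classical
  induction U using Finset.induction_on with
  | empty =>
    have : (sub ((∅ : Finset V) : Set V) : Subgroup (GrP Λ A)) = ⊥ := by
      rw [eq_bot_iff, sub, Subgroup.closure_le]
      rintro _ ⟨v, hv, -⟩
      simp at hv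
    rw [this]
    exact Pool.Agent.Y430.SS.of_finite hC.base _ inferInstance
  | insert v U hv ih =>
    rw [Finset.coe_insert]
    have hv' : v ∉ (U : Set V) := by simpa using hv
    refine ham C hC _ (↥(sub (U : Set V) : Subgroup (GrP Λ A)) × A v) _ _ _
      (amg (U : Set V) v hv' _ rfl)
      ((((ret (U : Set V)).codRestrict (sub (U : Set V)) (ret_mem _)).prod (prj v)).comp
        (sub (insert v (U : Set V))).subtype) ?_ ?_ (hC.base.prod _ _ ih (hA v))
    · rintro ⟨x, hx⟩ hx' h
      have h1 : ret (U : Set V) x = 1 := congrArg (fun z => (z.1 : GrP Λ A)) h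
      have h2 : ret (U : Set V) x = x := ret_eq hx'
      exact Subtype.ext (h2.symm.trans h1)
    · rintro ⟨x, hx⟩ hx' h
      have h1 : ret (U : Set V) x = 1 := congrArg (fun z => (z.1 : GrP Λ A)) h
      have h2 : prj v x = 1 := congrArg (fun z => z.2) h
      obtain ⟨y, hy, a, hya⟩ := star_mem (fun u hu => hu.2) hx'
      change x = y * GrP.of Λ A v a at hya
      have hyU : y ∈ (sub (U : Set V) : Subgroup (GrP Λ A)) := sub_mono (fun u hu => hu.1) hy
      rw [hya, map_mul, ret_eq hyU, ret_of_not_mem hv', mul_one] at h1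
      rw [hya, map_mul, prj_of, h1, map_one, one_mul] at h2
      apply Subtype.ext
      show x = 1
      rw [hya, h1, h2, map_one, mul_one]

theorem t_gp (ham : S_AM) : S_GP := by
  classical
  intro C hC V Λ A _ hA
  refine Pool.Agent.Y430.SS.of_directed hC.base (GrP Λ A) (Finset V) (fun i j => ?_)
    (fun s => sub (s : Set V)) (fun s t h => sub_mono (by exact_mod_cast h))
    (fun x => exists_fin x) (fun s => fin_sub ham hC hA s)
  exact ⟨i ∪ j, Finset.subset_union_left, Finset.subset_union_right⟩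

end Gp

end Pool.Agent.R779.FJ
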