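import Pool.Agent.R779.FJ.Col
import Pool.Agent.R779.FJ.Eppa
import Pool.Agent.R779.FJ.Gp

/-!
# Graph-wreath products
-/

set_option autoImplicit false

namespace Pool.Agent.R779.FJ

open Pool.Agent.Y110.FJ
open Pool.Agent.Y462.SS (Closed)

namespace Gp

/-- the automorphisms of a graph -/
def AutG {T : Type} (Λ : SimpleGraph T) : Subgroup (Equiv.Perm T) where
  carrier := {π | ∀ x y, Λ.Adj (π x) (π y) ↔ Λ.Adj x y}
  mul_mem' := by
    intro a b ha hb x y
    rw [Equiv.Perm.mul_apply, Equiv.Perm.mul_apply, ha, hb]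
  one_mem' := fun x y => Iff.rfl
  inv_mem' := by
    intro a ha x y
    have h1 : ∀ z, a (a⁻¹ z) = z := fun z => a.apply_symm_apply z
    rw [← ha, h1, h1]

variable {T : Type} (Λ : SimpleGraph T) (A : Type) [Group A]

/-- a graph automorphism as an endomorphism of the graph product -/
def pm (π : AutG Λ) : GrP Λ (fun _ => A) →* GrP Λ (fun _ => A) :=
  lift (fun t => GrP.of Λ (fun _ => A) (π.1 t)) (fun _ _ h a b =>
    comm (A := fun _ => A) ((π.2 _ _).2 h) a b)

theorem pm_of (π : AutG Λ) (t : T) (a : A) : pm Λ A π (GrP.of Λ (fun _ => A) t a) =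
    GrP.of Λ (fun _ => A) (π.1 t) a := lift_of (A := fun _ => A) _ _ t a

theorem pm_mul (π ρ : AutG Λ) (x : GrP Λ (fun _ => A)) :
    pm Λ A (π * ρ) x = pm Λ A π (pm Λ A ρ x) := by
  have : pm Λ A (π * ρ) = (pm Λ A π).comp (pm Λ A ρ) := by
    refine hom_ext (A := fun _ => A) fun v a => ?_
    rw [MonoidHom.comp_apply, pm_of, pm_of, pm_of]
    rfl
  rw [this]
  rfl

theorem pm_one (x : GrP Λ (fun _ => A)) : pm Λ A 1 x = x := by
  have : pm Λ A 1 = MonoidHom.id _ := by
    refine hom_ext (A := fun _ => A) fun v a => ?_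
    rw [pm_of]
    rfl
  rw [this]
  rfl

/-- the action of the automorphisms of the graph -/
def pmAut : AutG Λ →* MulAut (GrP Λ (fun _ => A)) where
  toFun π :=
    { toFun := pm Λ A π
      invFun := pm Λ A π⁻¹
      left_inv := fun x => by rw [← pm_mul, inv_mul_cancel, pm_one]
      right_inv := fun x => by rw [← pm_mul, mul_inv_cancel, pm_one]
      map_mul' := map_mul _ }
  map_one' := by
    refine MulEquiv.ext fun x => ?_
    exact pm_one Λ A x
  map_mul' π ρ := by
    refine MulEquiv.ext fun x => ?_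
    exact pm_mul Λ A π ρ x

theorem pmAut_apply (π : AutG Λ) (x : GrP Λ (fun _ => A)) : pmAut Λ A π x = pm Λ A π x := rfl

end Gp

open Gp

/-- the left component as a homomorphism -/
def lft {F Q : Type} [Group F] [Group Q] (α : Q →* MulAut F) :
    ↥(SemidirectProduct.rightHom : F ⋊[α] Q →* Q).ker →* F :=
  MonoidHom.mk' (fun x => x.1.left) (by
    intro x y
    have h1 : x.1.right = 1 := x.2
    show (x.1 * y.1).left = _
    rw [SemidirectProduct.mul_left, h1, map_one]
    rfl)

theorem inl_lft {F Q : Type} [Group F] [Group Q] (α : Q →* MulAut F)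
    (x : F ⋊[α] Q) (hx : x.right = 1) : (SemidirectProduct.inl x.left : F ⋊[α] Q) = x := by
  apply SemidirectProduct.ext
  · rfl
  · exact hx.symm

theorem t_gw (hcrit : S_CRIT) (hgp : S_GP) (heppa : S_EPPA) : S_GW := by
  classical
  intro C hC V Q A _ _ _ Λ α hΛ hα hA hQ
  have hadj : ∀ (q : Q) (v w : V), Λ.Adj (q • v) (q • w) ↔ Λ.Adj v w := by
    intro q v w
    refine ⟨fun h => ?_, hΛ q v w⟩
    have := hΛ q⁻¹ _ _ h
    rwa [inv_smul_smul, inv_smul_smul] at this
  refine hcrit C hC _ (SemidirectProduct.rightHom : GrP Λ (fun _ => A) ⋊[α] Q →* Q).ker ?_ ?_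
  · exact hC.base.of_injective _ Q (QuotientGroup.kerLift _) (QuotientGroup.kerLift_injective _) hQ
  intro g E hE hEN
  -- the finite set of vertices
  obtain ⟨S0, hS0, hn⟩ : ∃ S0 : Finset V, (∀ x ∈ E, x.left ∈
      (sub (S0 : Set V) : Subgroup (GrP Λ (fun _ => A)))) ∧
      g.left ∈ (sub (S0 : Set V) : Subgroup (GrP Λ (fun _ => A))) := by
    choose U hU using fun x : GrP Λ (fun _ => A) => exists_fin x
    refine ⟨(hE.toFinset.biUnion fun x => U x.left) ∪ U g.left, ?_, ?_⟩
    · intro x hx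
      refine sub_mono ?_ (hU x.left)
      intro v hv
      rw [Finset.mem_coe, Finset.mem_union, Finset.mem_biUnion]
      exact Or.inl ⟨x, hE.mem_toFinset.2 hx, hv⟩
    · refine sub_mono ?_ (hU g.left)
      intro v hv
      rw [Finset.mem_coe, Finset.mem_union]
      exact Or.inr hv
  obtain ⟨q, hq⟩ : ∃ q : Q, q = g.right := ⟨_, rfl⟩
  let R : Finset V := S0 ∪ S0.image (fun v => q • v)
  have hSR : (S0 : Set V) ⊆ (R : Set V) := by
    intro v hv
    rw [Finset.mem_coe, Finset.mem_union]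
    exact Or.inl hv
  have hqR : ∀ v ∈ S0, q • v ∈ R := by
    intro v hv
    rw [Finset.mem_union, Finset.mem_image]
    exact Or.inr ⟨v, hv, rfl⟩
  obtain ⟨T, hT, Λ', ι, τ, hι, hιadj, hτ, hιτ⟩ := heppa {v // v ∈ R} inferInstance
    (Λ.comap Subtype.val) {x | x.1 ∈ S0} (fun x => ⟨q • x.1.1, hqR _ x.2⟩) (by
      intro x y hxy
      have h1 : q • x.1.1 = q • y.1.1 := congrArg Subtype.val hxy
      exact Subtype.ext (Subtype.ext (MulAction.injective q h1))) (by
      intro x y
      exact hadj q x.1.1 y.1.1)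
  let τ' : AutG Λ' := ⟨τ, hτ⟩
  -- the maps between the graph products
  have hjw : ∀ v w, Λ.Adj v w → ∀ a b : A,
      ((if h : v ∈ R then GrP.of Λ' (fun _ => A) (ι ⟨v, h⟩) else 1 : A →* _) a) *
      ((if h : w ∈ R then GrP.of Λ' (fun _ => A) (ι ⟨w, h⟩) else 1 : A →* _) b) =
      ((if h : w ∈ R then GrP.of Λ' (fun _ => A) (ι ⟨w, h⟩) else 1 : A →* _) b) *
      ((if h : v ∈ R then GrP.of Λ' (fun _ => A) (ι ⟨v, h⟩) else 1 : A →* _) a) := by
    intro v w hvw a b
    by_cases hv : v ∈ R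
    · by_cases hw : w ∈ R
      · rw [dif_pos hv, dif_pos hw]
        exact comm (A := fun _ => A) ((hιadj ⟨v, hv⟩ ⟨w, hw⟩).2 hvw) a b
      · rw [dif_neg hw]
        simp
    · rw [dif_neg hv]
      simp
  let j : GrP Λ (fun _ => A) →* GrP Λ' (fun _ => A) :=
    lift (fun v => if h : v ∈ R then GrP.of Λ' (fun _ => A) (ι ⟨v, h⟩) else 1) hjw
  have hj : ∀ (v : V) (hv : v ∈ R) (a : A), j (GrP.of Λ (fun _ => A) v a) =
      GrP.of Λ' (fun _ => A) (ι ⟨v, hv⟩) a := by
    intro v hv a
    show lift (A := fun _ => A) _ _ (GrP.of Λ (fun _ => A) v a) = _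
    rw [lift_of, dif_pos hv]
  have hrw : ∀ s t, Λ'.Adj s t → ∀ a b : A,
      ((if h : ∃ x, ι x = s then GrP.of Λ (fun _ => A) (Classical.choose h).1 else 1 : A →* _) a) *
      ((if h : ∃ x, ι x = t then GrP.of Λ (fun _ => A) (Classical.choose h).1 else 1 : A →* _) b) =
      ((if h : ∃ x, ι x = t then GrP.of Λ (fun _ => A) (Classical.choose h).1 else 1 : A →* _) b) *
      ((if h : ∃ x, ι x = s then GrP.of Λ (fun _ => A) (Classical.choose h).1 else 1 : A →* _) a)
      := by
    intro s t hst a b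
    by_cases hs : ∃ x, ι x = s
    · by_cases ht : ∃ x, ι x = t
      · rw [dif_pos hs, dif_pos ht]
        refine comm (A := fun _ => A) ?_ a b
        have h1 := Classical.choose_spec hs
        have h2 := Classical.choose_spec ht
        have h3 : Λ'.Adj (ι (Classical.choose hs)) (ι (Classical.choose ht)) := by
          rw [h1, h2]; exact hst
        exact (hιadj _ _).1 h3
      · rw [dif_neg ht]
        simp
    · rw [dif_neg hs]
      simp
  let r : GrP Λ' (fun _ => A) →* GrP Λ (fun _ => A) :=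
    lift (fun s => if h : ∃ x, ι x = s then GrP.of Λ (fun _ => A) (Classical.choose h).1 else 1) hrw
  have hrj : ∀ x ∈ (sub (R : Set V) : Subgroup (GrP Λ (fun _ => A))), r (j x) = x := by
    intro x hx
    refine eqOn (A := fun _ => A) (f := r.comp j) (g := MonoidHom.id _) ?_ x hx
    intro v hv a
    have hv' : v ∈ R := hv
    show r (j (GrP.of Λ (fun _ => A) v a)) = GrP.of Λ (fun _ => A) v a
    rw [hj v hv']
    show lift (A := fun _ => A) _ _ (GrP.of Λ' (fun _ => A) (ι ⟨v, hv'⟩) a) = _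
    have hex : ∃ x, ι x = ι ⟨v, hv'⟩ := ⟨_, rfl⟩
    rw [lift_of, dif_pos hex]
    have h1 := hι (Classical.choose_spec hex)
    rw [h1]
  -- compatibility with the automorphisms
  have hcomp : ∀ x ∈ (sub (S0 : Set V) : Subgroup (GrP Λ (fun _ => A))),
      j (α q x) = pmAut Λ' A τ' (j x) := by
    intro x hx
    refine eqOn (A := fun _ => A) (f := j.comp (α q).toMonoidHom)
      (g := (pmAut Λ' A τ').toMonoidHom.comp j) ?_ x hx
    intro v hv a
    have hv' : v ∈ R := hSR hv
    show j (α q (GrP.of Λ (fun _ => A) v a)) = pmAut Λ' A τ' (j (GrP.of Λ (fun _ => A) v a))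
    rw [hα q v a, hj v hv', pmAut_apply, pm_of]
    rw [show (MulAction.toPerm q : Equiv.Perm V) v = q • v from rfl, hj _ (hqR v hv)]
    have h1 := hιτ ⟨⟨v, hv'⟩, hv⟩
    rw [show (τ'.1 (ι ⟨v, hv'⟩)) = _ from h1]
  have hαmem : ∀ x ∈ (sub (S0 : Set V) : Subgroup (GrP Λ (fun _ => A))),
      α q x ∈ (sub (R : Set V) : Subgroup (GrP Λ (fun _ => A))) := by
    intro x hx
    refine map_mem (A := fun _ => A) (f := (α q).toMonoidHom) ?_ x hx
    intro v hv a
    show α q (GrP.of Λ (fun _ => A) v a) ∈ _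
    rw [hα q v a]
    exact of_mem (A := fun _ => A) (hqR v hv) a
  -- conjugation by `g`
  have hconj : ∀ x : GrP Λ (fun _ => A) ⋊[α] Q, x.right = 1 →
      g * x * g⁻¹ = SemidirectProduct.inl (g.left * α q x.left * g.left⁻¹) := by
    intro x hx
    have h1 : g = SemidirectProduct.inl g.left * SemidirectProduct.inr q := by
      rw [hq]
      exact (SemidirectProduct.inl_left_mul_inr_right g).symm
    have h2 : x = SemidirectProduct.inl x.left := (inl_lft α x hx).symm
    have h3 : (SemidirectProduct.inr q : GrP Λ (fun _ => A) ⋊[α] Q) *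
        SemidirectProduct.inl x.left * (SemidirectProduct.inr q)⁻¹ =
        SemidirectProduct.inl (α q x.left) := by
      rw [SemidirectProduct.inl_aut, map_inv]
    calc g * x * g⁻¹ = SemidirectProduct.inl g.left * (SemidirectProduct.inr q *
          SemidirectProduct.inl x.left * (SemidirectProduct.inr q)⁻¹) *
            (SemidirectProduct.inl g.left)⁻¹ := by
          conv_lhs => rw [h2, h1]
          rw [mul_inv_rev]
          simp only [mul_assoc]
      _ = _ := by
          rw [h3, map_mul, map_mul, map_inv]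
  have hright : ∀ x ∈ E, x.right = 1 := fun x hx => hEN hx
  -- the subgroup lies in the subgroup of `R`
  have hcl : Subgroup.closure (E ∪ (fun x => g * x * g⁻¹) '' E) ≤
      (sub (R : Set V) : Subgroup (GrP Λ (fun _ => A))).map
        (SemidirectProduct.inl : _ →* GrP Λ (fun _ => A) ⋊[α] Q) := by
    rw [Subgroup.closure_le]
    rintro x (hx | ⟨y, hy, rfl⟩)
    · exact ⟨x.left, sub_mono hSR (hS0 x hx), inl_lft α x (hright x hx)⟩
    · refine ⟨g.left * α q y.left * g.left⁻¹, ?_, (hconj y (hright y hy)).symm⟩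
      exact Subgroup.mul_mem _ (Subgroup.mul_mem _ (sub_mono hSR hn) (hαmem _ (hS0 y hy)))
        (Subgroup.inv_mem _ (sub_mono hSR hn))
  have hle : Subgroup.closure (E ∪ (fun x => g * x * g⁻¹) '' E) ≤
      (SemidirectProduct.rightHom : GrP Λ (fun _ => A) ⋊[α] Q →* Q).ker := by
    refine hcl.trans ?_
    rintro _ ⟨y, -, rfl⟩
    exact SemidirectProduct.rightHom_inl y
  refine ⟨GrP Λ' (fun _ => A) ⋊[pmAut Λ' A] AutG Λ', inferInstance,
    (SemidirectProduct.inl.comp (j.comp (lft α))).comp (Subgroup.inclusion hle),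
    SemidirectProduct.inl (j g.left) * SemidirectProduct.inr τ', ?_, ?_, ?_⟩
  · exact Pool.Agent.Y961.FJ.fin_sd hC.base _ _ _ (hgp C hC T Λ' (fun _ => A) (fun _ => hA))
  · intro x y hxy
    have h1 : (SemidirectProduct.inl (j x.1.left) :
        GrP Λ' (fun _ => A) ⋊[pmAut Λ' A] AutG Λ') = SemidirectProduct.inl (j y.1.left) := hxy
    have h2 := SemidirectProduct.inl_injective h1
    obtain ⟨x', hx', hxx⟩ := hcl x.2
    obtain ⟨y', hy', hyy⟩ := hcl y.2
    apply Subtype.ext
    rw [← hxx, ← hyy] at h2 ⊢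
    have h3 : j x' = j y' := h2
    rw [← hrj x' hx', ← hrj y' hy', h3]
  · intro x y hx hy
    have h1 : (y : GrP Λ (fun _ => A) ⋊[α] Q).left = g.left * α q (x.1.left) * g.left⁻¹ := by
      rw [hy, hconj x.1 (hright _ hx)]
      rfl
    show (SemidirectProduct.inl (j y.1.left) : GrP Λ' (fun _ => A) ⋊[pmAut Λ' A] AutG Λ') =
      SemidirectProduct.inl (j g.left) * SemidirectProduct.inr τ' *
        SemidirectProduct.inl (j x.1.left) *
          (SemidirectProduct.inl (j g.left) * SemidirectProduct.inr τ')⁻¹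
    have h3 : (SemidirectProduct.inr τ' : GrP Λ' (fun _ => A) ⋊[pmAut Λ' A] AutG Λ') *
        SemidirectProduct.inl (j x.1.left) * (SemidirectProduct.inr τ')⁻¹ =
        SemidirectProduct.inl (pmAut Λ' A τ' (j x.1.left)) := by
      rw [SemidirectProduct.inl_aut, map_inv]
    have h4 : j (g.left * α q (x.1.left) * g.left⁻¹) =
        j g.left * pmAut Λ' A τ' (j x.1.left) * (j g.left)⁻¹ := by
      rw [map_mul j, map_mul j, hcomp _ (hS0 _ hx), map_inv j]
    rw [h1, h4, map_mul, map_mul, map_inv, ← h3]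
    group

end Pool.Agent.R779.FJ
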