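import Mathlib

/-!
# Partial isomorphisms of finite labelled graphs extend to automorphisms of finite larger ones

A labelled graph is a set `S` with a symmetric function `m : S → S → L`. The construction of
Hubička, Konečný and Nešetřil for one partial isomorphism: the vertices are the pairs `(x, χ)` with
`χ : S → (L' → ZMod 3)`, `L'` the finite set of labels.
-/

set_option autoImplicit false

namespace Pool.Agent.R779.FJ

section eppaL

variable {S W L : Type} [AddCommGroup W]

/-- the value of a pair -/
def val2 (p q : S × (S → W)) : W := p.2 q.1 + q.2 p.1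

/-- the automorphism given by a permutation and an antisymmetric function -/
def twistL (σ : Equiv.Perm S) (F : S → S → W) : Equiv.Perm (S × (S → W)) where
  toFun p := (σ p.1, fun z => p.2 (σ.symm z) + F p.1 (σ.symm z))
  invFun p := (σ.symm p.1, fun y => p.2 (σ y) - F (σ.symm p.1) y)
  left_inv p := by
    ext
    · simp
    · simp
  right_inv p := by
    ext
    · simp
    · simp

theorem val2_twistL (σ : Equiv.Perm S) (F : S → S → W) (hF : ∀ x y, F x y + F y x = 0)
    (p q : S × (S → W)) : val2 (twistL σ F p) (twistL σ F q) = val2 p q := by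
  show p.2 (σ.symm (σ q.1)) + F p.1 (σ.symm (σ q.1)) +
      (q.2 (σ.symm (σ p.1)) + F q.1 (σ.symm (σ p.1))) = p.2 q.1 + q.2 p.1
  rw [Equiv.symm_apply_apply, Equiv.symm_apply_apply]
  have := hF p.1 q.1
  calc p.2 q.1 + F p.1 q.1 + (q.2 p.1 + F q.1 p.1) = p.2 q.1 + q.2 p.1 +
        (F p.1 q.1 + F q.1 p.1) := by abel
    _ = _ := by rw [this, add_zero]

end eppaL

/-- a partial isomorphism of a finite labelled graph is induced by an automorphism of a finite
larger labelled graph -/
theorem eppaL {L : Type} [Nonempty L] (S : Type) (hS : Finite S) (m : S → S → L)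
    (hm : ∀ x y, m x y = m y x) (D : Set S) (f : D → S) (hf : Function.Injective f)
    (hadj : ∀ x y : D, m (f x) (f y) = m x y) :
    ∃ (T : Type) (_ : Finite T) (m' : T → T → L) (ι : S → T) (τ : Equiv.Perm T),
      (∀ x y, m' x y = m' y x) ∧ Function.Injective ι ∧ (∀ x y, m' (ι x) (ι y) = m x y) ∧
      (∀ x y, m' (τ x) (τ y) = m' x y) ∧ ∀ x : D, τ (ι x) = ι (f x) := by
  classical
  have : Fintype S := Fintype.ofFinite S
  -- the permutation
  let e : {x // x ∈ D} ≃ {x // x ∈ Set.range f} := Equiv.ofInjective f hf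
  let σ : Equiv.Perm S := Equiv.extendSubtype e
  have hσ : ∀ x : D, σ x = f x := by
    intro x
    have := Equiv.extendSubtype_apply_of_mem e x.1 x.2
    rw [show σ x.1 = _ from this]
    rfl
  -- the labels
  let L' : Type := Set.range (fun p : S × S => m p.1 p.2)
  have hL' : Finite L' := Set.finite_range _
  let W : Type := L' → ZMod 3
  have hW : Finite W := inferInstanceAs (Finite (L' → ZMod 3))
  let lab : S → S → L' := fun x y => ⟨m x y, (x, y), rfl⟩
  have hlab : ∀ x y, lab x y = lab y x := fun x y => Subtype.ext (hm x y)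
  let c : S → S → W := fun x y => Pi.single (lab x y) 2
  let dec : W → L := fun w => if h : ∃ l : L', w = Pi.single l 1 then (Classical.choose h).1
    else Classical.arbitrary L
  have hdec : ∀ l : L', dec (Pi.single l 1) = l.1 := by
    intro l
    have h : ∃ l' : L', (Pi.single l 1 : W) = Pi.single l' 1 := ⟨l, rfl⟩
    show (if h : ∃ l' : L', (Pi.single l 1 : W) = Pi.single l' 1 then (Classical.choose h).1
      else Classical.arbitrary L) = l.1
    rw [dif_pos h]
    have h1 := Classical.choose_spec h
    have h2 : Classical.choose h = l := by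
      by_contra hne
      have h3 := congrFun h1 l
      rw [Pi.single_eq_same, Pi.single_eq_of_ne (fun hh => hne hh.symm)] at h3
      exact absurd h3 (by decide)
    rw [h2]
  have hcs : ∀ x y, c x y = c y x := by
    intro x y
    show (Pi.single (lab x y) 2 : W) = Pi.single (lab y x) 2
    rw [hlab]
  have hcc : ∀ x y, c x y + c y x = Pi.single (lab x y) 1 := by
    intro x y
    rw [hcs y x]
    show (Pi.single (lab x y) 2 : W) + Pi.single (lab x y) 2 = _
    rw [← Pi.single_add]
    rfl
  let F : S → S → W := fun x y => (if x ∈ D then c (σ x) (σ y) - c x y else 0) -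
    (if y ∈ D then c (σ x) (σ y) - c x y else 0)
  have hF : ∀ x y, F x y + F y x = 0 := by
    intro x y
    show (if x ∈ D then c (σ x) (σ y) - c x y else 0) -
      (if y ∈ D then c (σ x) (σ y) - c x y else 0) +
      ((if y ∈ D then c (σ y) (σ x) - c y x else 0) -
      (if x ∈ D then c (σ y) (σ x) - c y x else 0)) = 0
    rw [hcs (σ y), hcs y]
    abel
  have hD : ∀ x ∈ D, ∀ y ∈ D, c (σ x) (σ y) = c x y := by
    intro x hx y hy
    have h1 := hσ ⟨x, hx⟩
    have h2 := hσ ⟨y, hy⟩
    simp only at h1 h2
    show (Pi.single (lab (σ x) (σ y)) 2 : W) = Pi.single (lab x y) 2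
    have h3 : lab (σ x) (σ y) = lab x y := by
      apply Subtype.ext
      show m (σ x) (σ y) = m x y
      rw [h1, h2]
      exact hadj ⟨x, hx⟩ ⟨y, hy⟩
    rw [h3]
  refine ⟨S × (S → W), inferInstance, fun p q => dec (val2 p q), fun x => (x, c x), twistL σ F,
    ?_, ?_, ?_, ?_, ?_⟩
  · intro p q
    show dec (p.2 q.1 + q.2 p.1) = dec (q.2 p.1 + p.2 q.1)
    rw [add_comm]
  · intro x y h
    exact congrArg Prod.fst h
  · intro x y
    show dec (c x y + c y x) = m x y
    rw [hcc, hdec]
  · intro p q
    show dec (val2 (twistL σ F p) (twistL σ F q)) = dec (val2 p q)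
    rw [val2_twistL σ F hF]
  · intro x
    show (σ x, fun z => c x (σ.symm z) + F x (σ.symm z)) = (f x, c (f x))
    rw [← hσ x]
    refine Prod.ext rfl ?_
    funext z
    obtain ⟨y, rfl⟩ := σ.surjective z
    show c x (σ.symm (σ y)) + F x (σ.symm (σ y)) = c (σ x) (σ y)
    rw [Equiv.symm_apply_apply]
    show c x y + ((if (x : S) ∈ D then c (σ x) (σ y) - c x y else 0) -
      (if y ∈ D then c (σ x) (σ y) - c x y else 0)) = _
    rw [if_pos x.2]
    by_cases hy : y ∈ D
    · rw [if_pos hy, hD x x.2 y hy]
      abel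
    · rw [if_neg hy]
      abel

end Pool.Agent.R779.FJ
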