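import Pool.Agent.R779.FJ.Col
import Pool.Agent.R779.FJ.EppaL
import Pool.Agent.Y961.FJ.Perm
import Pool.Agent.Y417.FJ.Am

/-!
# Extensions by halos over labelled graphs
-/

set_option autoImplicit false

namespace Pool.Agent.R779.FJ

open Pool.Agent.Y110.FJ
open Pool.Agent.Y462.SS (Closed)

/-- `f` is an embedding of labelled graphs -/
def Emb {L S T : Type} (m : S → S → L) (n : T → T → L) (f : S → T) : Prop :=
  Function.Injective f ∧ ∀ x y, n (f x) (f y) = m x y

theorem Emb.comp {L S T U : Type} {m : S → S → L} {n : T → T → L} {k : U → U → L} {f : S → T}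
    {g : T → U} (hg : Emb n k g) (hf : Emb m n f) : Emb m k (g ∘ f) :=
  ⟨hg.1.comp hf.1, fun x y => (hg.2 _ _).trans (hf.2 x y)⟩

theorem Emb.id {L S : Type} (m : S → S → L) : Emb m m (fun x => x) :=
  ⟨fun _ _ h => h, fun _ _ => rfl⟩

/-- A halo over labelled graphs with labels in `L`: a functor from the category of the sets `S` with
a labelling `m : S → S → L` of the pairs and the embeddings to the category of the groups and the
injective homomorphisms, such that each element of a group comes from a finite subset. -/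
structure Halo (L : Type) where
  obj : (S : Type) → (S → S → L) → Type
  grp : ∀ (S : Type) (m : S → S → L), Group (obj S m)
  map : ∀ {S T : Type} {m : S → S → L} {n : T → T → L} (f : S → T), Emb m n f →
    (obj S m →* obj T n)
  inj : ∀ {S T : Type} {m : S → S → L} {n : T → T → L} (f : S → T) (hf : Emb m n f),
    Function.Injective (map f hf)
  map_id : ∀ {S : Type} {m : S → S → L} (x : obj S m), map (fun x => x) (Emb.id m) x = x
  map_comp : ∀ {S T U : Type} {m : S → S → L} {n : T → T → L} {k : U → U → L} (f : S → T)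
    (g : T → U) (hf : Emb m n f) (hg : Emb n k g) (x : obj S m),
    map g hg (map f hf x) = map (g ∘ f) (hg.comp hf) x
  fin : ∀ {S : Type} {m : S → S → L} (x : obj S m), ∃ (A : Set S) (_ : A.Finite)
    (y : obj A (fun a b => m a b)), map Subtype.val ⟨Subtype.val_injective, fun _ _ => rfl⟩ y = x

attribute [instance] Halo.grp

namespace Halo

variable {L : Type} (H : Halo L)

theorem map_congr {S T : Type} {m : S → S → L} {n : T → T → L} {f g : S → T} (h : f = g)
    (hf : Emb m n f) (hg : Emb m n g) (x : H.obj S m) : H.map f hf x = H.map g hg x := by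
  subst h
  rfl

/-- the automorphisms of a labelled graph -/
def Aut {T : Type} (n : T → T → L) : Subgroup (Equiv.Perm T) where
  carrier := {π | ∀ x y, n (π x) (π y) = n x y}
  mul_mem' := by
    intro a b ha hb x y
    rw [Equiv.Perm.mul_apply, Equiv.Perm.mul_apply, ha, hb]
  one_mem' := fun x y => rfl
  inv_mem' := by
    intro a ha x y
    have h1 : ∀ z, a (a⁻¹ z) = z := fun z => a.apply_symm_apply z
    rw [← ha, h1, h1]

theorem emb_aut {T : Type} {n : T → T → L} (π : Aut n) : Emb n n (π : Equiv.Perm T) :=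
  ⟨(π : Equiv.Perm T).injective, π.2⟩

/-- the action of the automorphisms -/
def act {T : Type} (n : T → T → L) : Aut n →* MulAut (H.obj T n) where
  toFun π :=
    { toFun := H.map _ (emb_aut π)
      invFun := H.map _ (emb_aut π⁻¹)
      left_inv := fun x => by
        rw [H.map_comp]
        exact (H.map_congr (by funext z; exact (π : Equiv.Perm T).symm_apply_apply z) _ _ x).trans
          (H.map_id x)
      right_inv := fun x => by
        rw [H.map_comp]
        exact (H.map_congr (by funext z; exact (π : Equiv.Perm T).apply_symm_apply z) _ _ x).trans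
          (H.map_id x)
      map_mul' := map_mul _ }
  map_one' := by
    refine MulEquiv.ext fun x => ?_
    exact (H.map_congr (by funext z; rfl) _ _ x).trans (H.map_id x)
  map_mul' π ρ := by
    refine MulEquiv.ext fun x => ?_
    show H.map _ (emb_aut (π * ρ)) x = H.map _ (emb_aut π) (H.map _ (emb_aut ρ) x)
    rw [H.map_comp]
    exact H.map_congr (by funext z; rfl) _ _ x

theorem act_apply {T : Type} (n : T → T → L) (π : Aut n) (x : H.obj T n) :
    H.act n π x = H.map _ (emb_aut π) x := rfl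

end Halo

/-- the restriction of a labelling -/
abbrev rs {L V : Type} (ℓ : V → V → L) (A : Set V) : A → A → L := fun a b => ℓ a b

theorem emb_val {L V : Type} (ℓ : V → V → L) (A : Set V) : Emb (rs ℓ A) ℓ Subtype.val :=
  ⟨Subtype.val_injective, fun _ _ => rfl⟩

theorem emb_inc {L V : Type} (ℓ : V → V → L) {A B : Set V} (h : A ⊆ B) :
    Emb (rs ℓ A) (rs ℓ B) (Set.inclusion h) :=
  ⟨Set.inclusion_injective h, fun _ _ => rfl⟩

/-- extensions by halos -/
theorem t_halo (hcrit : S_CRIT) (C : ∀ (G : Type) [Group G], Prop) (hC : ClosedE C)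
    {L : Type} (H : Halo L)
    (hfin : ∀ (S : Type) (m : S → S → L), Finite S → (∀ x y, m x y = m y x) → C (H.obj S m))
    {V : Type} (ℓ : V → V → L) (hℓ : ∀ x y, ℓ x y = ℓ y x) (hL : Nonempty L)
    (G : Type) [Group G] (N : Subgroup G) [N.Normal] (e : H.obj V ℓ ≃* N) (hQ : C (G ⧸ N))
    (hact : ∀ g : G, ∃ (τ : Equiv.Perm V) (hτ : Emb ℓ ℓ τ) (n : N), ∀ x : H.obj V ℓ,
      g * (e x : G) * g⁻¹ = (n : G) * (e (H.map τ hτ x) : G) * (n : G)⁻¹) : C G := by
  classical
  refine hcrit C hC G N hQ ?_
  intro g E hE hEN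
  obtain ⟨τ, hτ, n, hn⟩ := hact g
  -- supports
  have hsup : ∀ x : H.obj V ℓ, ∃ A : Finset V, ∀ B : Set V, (A : Set V) ⊆ B →
      ∃ y : H.obj B (rs ℓ B), H.map Subtype.val (emb_val ℓ B) y = x := by
    intro x
    obtain ⟨A, hA, y, hy⟩ := H.fin x
    refine ⟨hA.toFinset, fun B hB => ?_⟩
    rw [hA.coe_toFinset] at hB
    refine ⟨H.map _ (emb_inc ℓ hB) y, ?_⟩
    rw [H.map_comp, ← hy]
    exact H.map_congr (by funext z; rfl) _ _ y
  choose supp hsupp using hsup
  let A : Finset V := (hE.toFinset.biUnion fun x => if h : x ∈ N then supp (e.symm ⟨x, h⟩) else ∅) ∪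
    supp (e.symm n)
  let R : Finset V := A ∪ A.image τ
  have hAR : (A : Set V) ⊆ (R : Set V) := by
    intro v hv
    rw [Finset.mem_coe, Finset.mem_union]
    exact Or.inl hv
  have hτR : ∀ v ∈ (A : Set V), τ v ∈ (R : Set V) := by
    intro v hv
    rw [Finset.mem_coe, Finset.mem_union, Finset.mem_image]
    exact Or.inr ⟨v, hv, rfl⟩
  have hE' : ∀ x ∈ E, ∃ u : H.obj (A : Set V) (rs ℓ (A : Set V)),
      (e (H.map Subtype.val (emb_val ℓ _) u) : G) = x := by
    intro x hx
    obtain ⟨u, hu⟩ := hsupp (e.symm ⟨x, hEN hx⟩) (A : Set V) (by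
      intro v hv
      rw [Finset.mem_coe, Finset.mem_union, Finset.mem_biUnion]
      refine Or.inl ⟨x, hE.mem_toFinset.2 hx, ?_⟩
      rw [dif_pos (show x ∈ N from hEN hx)]
      exact hv)
    exact ⟨u, by rw [hu, e.apply_symm_apply]⟩
  obtain ⟨w, hw⟩ := hsupp (e.symm n) (R : Set V) (by
    intro v hv
    apply hAR
    rw [Finset.mem_coe, Finset.mem_union]
    exact Or.inr hv)
  -- the larger labelled graph
  obtain ⟨T, hT, m', ι, θ, hm', hι, hιm, hθ, hιθ⟩ := eppaL (L := L) (R : Set V) inferInstance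
    (rs ℓ (R : Set V)) (fun x y => hℓ x y) {x | x.1 ∈ (A : Set V)}
    (fun x => ⟨τ x.1.1, hτR _ x.2⟩) (by
      intro x y hxy
      have h1 : τ x.1.1 = τ y.1.1 := congrArg Subtype.val hxy
      exact Subtype.ext (Subtype.ext (τ.injective h1))) (by
      intro x y
      exact hτ.2 x.1.1 y.1.1)
  let θ' : Halo.Aut m' := ⟨θ, hθ⟩
  have hιe : Emb (rs ℓ (R : Set V)) m' ι := ⟨hι, hιm⟩
  -- the map to `G`
  let ψ : H.obj (R : Set V) (rs ℓ (R : Set V)) →* G :=
    (N.subtype.comp e.toMonoidHom).comp (H.map Subtype.val (emb_val ℓ (R : Set V)))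
  have hψ : Function.Injective ψ := by
    have h1 : Function.Injective N.subtype := Subtype.val_injective
    exact (h1.comp e.injective).comp (H.inj _ _)
  -- the two maps from the subsets
  let iA : ((A : Set V) : Type) → ((R : Set V) : Type) := Set.inclusion hAR
  let tA : ((A : Set V) : Type) → ((R : Set V) : Type) := fun a => ⟨τ a.1, hτR _ a.2⟩
  have hiA : Emb (rs ℓ (A : Set V)) (rs ℓ (R : Set V)) iA := emb_inc ℓ hAR
  have htA : Emb (rs ℓ (A : Set V)) (rs ℓ (R : Set V)) tA :=
    ⟨fun x y h => Subtype.ext (τ.injective (congrArg Subtype.val h)), fun x y => hτ.2 x.1 y.1⟩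
  have hψ1 : ∀ u, ψ (H.map iA hiA u) = (e (H.map Subtype.val (emb_val ℓ _) u) : G) := by
    intro u
    show ((e (H.map Subtype.val (emb_val ℓ (R : Set V)) (H.map iA hiA u)) : N) : G) = _
    rw [H.map_comp]
    have := H.map_congr (show Subtype.val ∘ iA = Subtype.val by funext z; rfl)
      ((emb_val ℓ (R : Set V)).comp hiA) (emb_val ℓ _) u
    rw [this]
  have hψ2 : ∀ u, ψ (w * H.map tA htA u * w⁻¹) =
      g * (e (H.map Subtype.val (emb_val ℓ _) u) : G) * g⁻¹ := by
    intro u
    have h1 : ψ w = n := by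
      show ((e (H.map Subtype.val (emb_val ℓ (R : Set V)) w) : N) : G) = n
      rw [hw, e.apply_symm_apply]
    have h2 : ψ (H.map tA htA u) =
        (e (H.map τ hτ (H.map Subtype.val (emb_val ℓ _) u)) : G) := by
      show ((e (H.map Subtype.val (emb_val ℓ (R : Set V)) (H.map tA htA u)) : N) : G) = _
      rw [H.map_comp, H.map_comp]
      have := H.map_congr (show Subtype.val ∘ tA = τ ∘ Subtype.val by funext z; rfl)
        ((emb_val ℓ (R : Set V)).comp htA) (hτ.comp (emb_val ℓ _)) u
      rw [this]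
    rw [map_mul, map_mul, map_inv, h1, h2, hn]
  have hcl : Subgroup.closure (E ∪ (fun x => g * x * g⁻¹) '' E) ≤ ψ.range := by
    rw [Subgroup.closure_le]
    rintro x (hx | ⟨y, hy, rfl⟩)
    · obtain ⟨u, hu⟩ := hE' x hx
      exact ⟨_, (hψ1 u).trans hu⟩
    · obtain ⟨u, hu⟩ := hE' y hy
      refine ⟨_, (hψ2 u).trans ?_⟩
      rw [hu]
  let back : ψ.range →* H.obj (R : Set V) (rs ℓ (R : Set V)) :=
    (MonoidHom.ofInjective hψ).symm.toMonoidHom
  have hback : ∀ z (hz : ψ z ∈ ψ.range), back ⟨ψ z, hz⟩ = z := by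
    intro z hz
    show (MonoidHom.ofInjective hψ).symm ⟨ψ z, hz⟩ = z
    rw [MulEquiv.symm_apply_eq]
    rfl
  have hbinj : Function.Injective back := (MonoidHom.ofInjective hψ).symm.injective
  let j : H.obj (R : Set V) (rs ℓ (R : Set V)) →* H.obj T m' := H.map ι hιe
  refine ⟨H.obj T m' ⋊[H.act m'] Halo.Aut m', inferInstance,
    (SemidirectProduct.inl.comp (j.comp back)).comp (Subgroup.inclusion hcl),
    SemidirectProduct.inl (j w) * SemidirectProduct.inr θ', ?_, ?_, ?_⟩
  · exact Pool.Agent.Y961.FJ.fin_sd hC.base _ _ _ (hfin T m' hT hm')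
  · exact (SemidirectProduct.inl_injective.comp ((H.inj _ _).comp hbinj)).comp
      (Subgroup.inclusion_injective hcl)
  · intro x y hx hy
    obtain ⟨u, hu⟩ := hE' _ hx
    have hxx : back (Subgroup.inclusion hcl x) = H.map iA hiA u := by
      have h1 : Subgroup.inclusion hcl x = ⟨ψ (H.map iA hiA u), ⟨_, rfl⟩⟩ := by
        apply Subtype.ext
        exact (hψ1 u).trans hu |>.symm
      rw [h1]
      exact hback _ _
    have hyy : back (Subgroup.inclusion hcl y) = w * H.map tA htA u * w⁻¹ := by
      have h1 : Subgroup.inclusion hcl y = ⟨ψ (w * H.map tA htA u * w⁻¹), ⟨_, rfl⟩⟩ := by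
        apply Subtype.ext
        refine hy.trans ?_
        rw [← hu]
        exact (hψ2 u).symm
      rw [h1]
      exact hback _ _
    show (SemidirectProduct.inl (j (back (Subgroup.inclusion hcl y))) :
        H.obj T m' ⋊[H.act m'] Halo.Aut m') =
      SemidirectProduct.inl (j w) * SemidirectProduct.inr θ' *
        SemidirectProduct.inl (j (back (Subgroup.inclusion hcl x))) *
          (SemidirectProduct.inl (j w) * SemidirectProduct.inr θ')⁻¹
    rw [hxx, hyy]
    have h3 : (SemidirectProduct.inr θ' : H.obj T m' ⋊[H.act m'] Halo.Aut m') *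
        SemidirectProduct.inl (j (H.map iA hiA u)) * (SemidirectProduct.inr θ')⁻¹ =
        SemidirectProduct.inl (H.act m' θ' (j (H.map iA hiA u))) := by
      rw [SemidirectProduct.inl_aut, map_inv]
    have h4 : H.act m' θ' (j (H.map iA hiA u)) = j (H.map tA htA u) := by
      rw [Halo.act_apply]
      show H.map _ (Halo.emb_aut θ') (H.map ι hιe (H.map iA hiA u)) = H.map ι hιe (H.map tA htA u)
      rw [H.map_comp, H.map_comp, H.map_comp]
      refine H.map_congr ?_ _ _ u
      funext a
      exact hιθ ⟨iA a, a.2⟩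
    rw [map_mul j, map_mul j, map_inv j, map_mul, map_mul, map_inv, ← h4, ← h3]
    group

end Pool.Agent.R779.FJ
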