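import Pool.Agent.R779.FJ.HaloC
import Pool.Agent.R779.FJ.MhHalo
import Pool.Agent.Y529.FJ.Ext
import Pool.Agent.Y75.NK.Lau

set_option autoImplicit false

namespace Pool.Agent.R779.FJ.Ports

open Pool.Agent.Y110.FJ Pool.Agent.R779.FJ CategoryTheory

/-- `Γ` is torsion-free -/
def TorsionFree (Γ : Type) [Group Γ] : Prop := ∀ g : Γ, IsOfFinOrder g → g = 1

/-- every finitely generated projective module over the integral group ring of `Γ` is stably free
(the form of the frozen statement) -/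
def StablyFree (Γ : Type) [Group Γ] : Prop :=
  ∀ (P : Type) [AddCommGroup P] [Module (MonoidAlgebra ℤ Γ) P],
    Module.Finite (MonoidAlgebra ℤ Γ) P → Module.Projective (MonoidAlgebra ℤ Γ) P →
    ∃ n m : ℕ, Nonempty ((P × (Fin n → MonoidAlgebra ℤ Γ)) ≃ₗ[MonoidAlgebra ℤ Γ]
      (Fin m → MonoidAlgebra ℤ Γ))

/-- the Whitehead group of `Γ` is trivial: every invertible matrix over `ℤΓ`, stabilised by an
identity block, is `± g` on one diagonal entry times a product of commutators of invertible matrices -/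
def WhTrivial (Γ : Type) [Group Γ] : Prop :=
  ∀ (n : ℕ) (A : (Matrix (Fin n) (Fin n) (MonoidAlgebra ℤ Γ))ˣ),
    ∃ (m : ℕ) (g : Γ) (ε : ℤˣ)
      (C : (Matrix (Fin n ⊕ Fin (m + 1)) (Fin n ⊕ Fin (m + 1)) (MonoidAlgebra ℤ Γ))ˣ),
      C ∈ commutator (Matrix (Fin n ⊕ Fin (m + 1)) (Fin n ⊕ Fin (m + 1)) (MonoidAlgebra ℤ Γ))ˣ ∧
      Matrix.fromBlocks (↑A : Matrix (Fin n) (Fin n) (MonoidAlgebra ℤ Γ))
          (0 : Matrix (Fin n) (Fin (m + 1)) (MonoidAlgebra ℤ Γ))
          (0 : Matrix (Fin (m + 1)) (Fin n) (MonoidAlgebra ℤ Γ))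
          (1 : Matrix (Fin (m + 1)) (Fin (m + 1)) (MonoidAlgebra ℤ Γ)) =
        Matrix.diagonal (fun i : Fin n ⊕ Fin (m + 1) =>
            if i = Sum.inr (0 : Fin (m + 1)) then
              (MonoidAlgebra.single g ((ε : ℤ)) : MonoidAlgebra ℤ Γ) else 1) *
          (↑C : Matrix (Fin n ⊕ Fin (m + 1)) (Fin n ⊕ Fin (m + 1)) (MonoidAlgebra ℤ Γ))

/-- `Γ` is of type FP: the trivial module `ℤ` has a resolution of finite length by finitely generated
projective modules (the form of the frozen statement) -/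
def FP (Γ : Type) [Group Γ] : Prop :=
  ∃ (P : ℕ → Type) (_ : ∀ i, AddCommGroup (P i)) (_ : ∀ i, Module (MonoidAlgebra ℤ Γ) (P i))
    (d : ∀ i, P (i + 1) →ₗ[MonoidAlgebra ℤ Γ] P i) (ε : P 0 →+ ℤ) (n : ℕ),
    (∀ i, Module.Finite (MonoidAlgebra ℤ Γ) (P i)) ∧
    (∀ i, Module.Projective (MonoidAlgebra ℤ Γ) (P i)) ∧
    (∀ i, n < i → Subsingleton (P i)) ∧
    (∀ (g : Γ) (x : P 0), ε (MonoidAlgebra.of ℤ Γ g • x) = ε x) ∧
    Function.Surjective ε ∧
    (∀ x : P 0, ε x = 0 ↔ x ∈ LinearMap.range (d 0)) ∧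
    (∀ i, LinearMap.range (d (i + 1)) = LinearMap.ker (d i))

/-- `Γ` is of type FF: the trivial module `ℤ` has a resolution of finite length by finitely generated
free modules (the form of the frozen statement) -/
def FF (Γ : Type) [Group Γ] : Prop :=
  ∃ (P : ℕ → Type) (_ : ∀ i, AddCommGroup (P i)) (_ : ∀ i, Module (MonoidAlgebra ℤ Γ) (P i))
    (d : ∀ i, P (i + 1) →ₗ[MonoidAlgebra ℤ Γ] P i) (ε : P 0 →+ ℤ) (n : ℕ),
    (∀ i, Module.Finite (MonoidAlgebra ℤ Γ) (P i)) ∧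
    (∀ i, Module.Free (MonoidAlgebra ℤ Γ) (P i)) ∧
    (∀ i, n < i → Subsingleton (P i)) ∧
    (∀ (g : Γ) (x : P 0), ε (MonoidAlgebra.of ℤ Γ g • x) = ε x) ∧
    Function.Surjective ε ∧
    (∀ x : P 0, ε x = 0 ↔ x ∈ LinearMap.range (d 0)) ∧
    (∀ i, LinearMap.range (d (i + 1)) = LinearMap.ker (d i))

/-- Bass's group `K_{-n}(R Γ)`; it is `K_0(R Γ)` for `n = 0` -/
noncomputable abbrev KN (n : ℕ) (R : Type) [Ring R] (Γ : Type) [Group Γ] : AddCommGrpCat.{0} :=
  (Pool.Agent.Y75.NK.Kneg n).obj (RingCat.of (MonoidAlgebra R Γ))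

/-- the canonical map `K_0(R) → K_0(R Γ)` -/
noncomputable abbrev canMap (R : Type) [Ring R] (Γ : Type) [Group Γ] :
    Pool.Agent.Y75.NK.K0 R →+ Pool.Agent.Y75.NK.K0 (MonoidAlgebra R Γ) :=
  Pool.Agent.Y75.NK.K0.map MonoidAlgebra.singleOneRingHom

/-- `R` is regular: it is Noetherian and every finitely generated module has a finite resolution by
projective modules -/
def RegularRing (R : Type) [Ring R] : Prop :=
  IsNoetherianRing R ∧ ∀ (M : Type) [AddCommGroup M] [Module R M], Module.Finite R M →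
    ∃ n : ℕ, CategoryTheory.HasProjectiveDimensionLT (ModuleCat.of R M) n

/-- the even Artin group with generators `x_v`, `v ∈ V`, and relations
`(x_v x_w) ^ k = (x_w x_v) ^ k`, `k = k v w`, for `v ≠ w`; so the label of `v`, `w` is `2 k v w`, and
there is no relation between `x_v` and `x_w` if `k v w = 0` -/
abbrev EvenArtin {V : Type} (k : V → V → ℕ) : Type :=
  PresentedGroup {r : FreeGroup V | ∃ v w : V, v ≠ w ∧
    r = (FreeGroup.of v * FreeGroup.of w) ^ k v w *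
      ((FreeGroup.of w * FreeGroup.of v) ^ k v w)⁻¹}

/-- the generator `x_v` -/
def gen {V : Type} (k : V → V → ℕ) (v : V) : EvenArtin k := PresentedGroup.of v

/-- type FC: every triangle of adjacent vertices has at most one label greater than two -/
def TypeFC {V : Type} (k : V → V → ℕ) : Prop :=
  ∀ u v w : V, u ≠ v → v ≠ w → u ≠ w → k u v ≠ 0 → k v w ≠ 0 → k u w ≠ 0 → k u v = 1 ∨ k v w = 1

/-- the even Artin groups of the finite complete subgraphs are in `C` -/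
def CliquesIn (C : ∀ (G : Type) [Group G], Prop) {V : Type} (k : V → V → ℕ) : Prop :=
  ∀ U : Finset V, (∀ u ∈ U, ∀ w ∈ U, u ≠ w → k u w ≠ 0) →
    C (EvenArtin (fun a b : {v : V // v ∈ U} => k a b))

/-- `G` is an extension of `N ≅ EvenArtin k` on which every element of `G` acts by a label preserving
permutation of the vertices and an inner automorphism -/
def ActsByGraph {V : Type} (k : V → V → ℕ) {G : Type} [Group G] (N : Subgroup G)
    (e : EvenArtin k ≃* N) : Prop :=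
  ∀ g : G, ∃ (τ : Equiv.Perm V) (n : G), n ∈ N ∧ (∀ v w, k (τ v) (τ w) = k v w) ∧
    ∀ v : V, g * (e (gen k v) : G) * g⁻¹ = n * (e (gen k (τ v)) : G) * n⁻¹

/-- every element of `G` acts on `N ≅ H(V, ℓ)` by an automorphism of `(V, ℓ)` and an inner
automorphism of `N` -/
def ActsByHalo {L : Type} (H : Halo L) {V : Type} (ℓ : V → V → L) {G : Type} [Group G]
    (N : Subgroup G) (e : H.obj V ℓ ≃* N) : Prop :=
  ∀ g : G, ∃ (τ : Equiv.Perm V) (hτ : Emb ℓ ℓ τ) (n : N), ∀ x : H.obj V ℓ,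
    g * (e x : G) * g⁻¹ = (n : G) * (e (H.map τ hτ x) : G) * (n : G)⁻¹

/-- the values of `H` on the finite labelled graphs are in `C` -/
def FinIn (C : ∀ (G : Type) [Group G], Prop) {L : Type} (H : Halo L) : Prop :=
  ∀ (S : Type) (m : S → S → L), Finite S → (∀ x y, m x y = m y x) → C (H.obj S m)

theorem thmA (C : ∀ (G : Type) [Group G], Prop) (hC : ClosedE C)
    (L : Type) (hL : Nonempty L) (H : Halo L) (hfin : FinIn C H)
    (V : Type) (ℓ : V → V → L) (hℓ : ∀ x y, ℓ x y = ℓ y x)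
    (G : Type) [Group G] (N : Subgroup G) [N.Normal] (e : H.obj V ℓ ≃* N) (hQ : C (G ⧸ N))
    (hact : ActsByHalo H ℓ N e) : C G :=
  t_halo (t_crit Pool.Agent.Y529.FJ.t_ext (Pool.Agent.Y961.FJ.t_perm Pool.Agent.Y529.FJ.t_ext))
    C hC H hfin ℓ hℓ hL G N e hQ hact

theorem thmB (C : ∀ (G : Type) [Group G], Prop) (hC : ClosedE C)
    (V : Type) (k : V → V → ℕ) (hk : ∀ v w, k v w = k w v) (hcl : TypeFC k ∨ CliquesIn C k)
    (G : Type) [Group G] (N : Subgroup G) [N.Normal] (hQ : C (G ⧸ N)) (e : EvenArtin k ≃* N)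
    (hact : ActsByGraph k N e) : C G := by
  classical
  have hperm : S_PERM := Pool.Agent.Y961.FJ.t_perm Pool.Agent.Y529.FJ.t_ext
  have hhnn : S_HNN := t_hnn hperm
  refine Ea.t_ea (Pool.Agent.Y417.FJ.t_am hperm) (t_crit Pool.Agent.Y529.FJ.t_ext hperm) C hC
    k hk ?_ G N e hQ ?_
  · rcases hcl with hfc | hcl
    · intro U hU
      exact Ea.clique hhnn hC hk _ U rfl hU (fun u hu v hv w hw h1 h2 h3 =>
        hfc u v w h1 h2 h3 (hU u hu v hv h1) (hU v hv w hw h2) (hU u hu w hw h3))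
    · intro U hU
      have h2 : C (Ea.EArt (rs k (U : Set V))) := hcl U hU
      let F := Ea.mapE (Subtype.val : ↥(U : Set V) → V) (emb_val k (U : Set V))
      have hF : Function.Injective F := Ea.mapE_inj _ _
      have hle : Ea.sub k (U : Set V) ≤ F.range := by
        rw [Ea.sub, Subgroup.closure_le]
        rintro _ ⟨v, hv, rfl⟩
        exact ⟨Ea.gen _ ⟨v, hv⟩, Ea.mapE_gen _ _ _⟩
      refine hC.base.of_injective _ _ ((MonoidHom.ofInjective hF).symm.toMonoidHom.comp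
        (Subgroup.inclusion hle)) ?_ h2
      exact (MonoidHom.ofInjective hF).symm.injective.comp (Subgroup.inclusion_injective hle)
  · intro g
    obtain ⟨τ, n, hn, hτ, h⟩ := hact g
    have hτ' : Emb k k τ := ⟨τ.injective, hτ⟩
    refine ⟨τ, hτ', ⟨n, hn⟩, fun x => ?_⟩
    have h2 : (MulAut.conj g).toMonoidHom.comp (N.subtype.comp e.toMonoidHom) =
        (MulAut.conj n).toMonoidHom.comp
          ((N.subtype.comp e.toMonoidHom).comp (Ea.mapE τ hτ')) := Ea.hom_ext (by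
      intro v
      show g * (e (gen k v) : G) * g⁻¹ = n * (e (Ea.mapE τ hτ' (Ea.gen k v)) : G) * n⁻¹
      rw [Ea.mapE_gen]
      exact h v)
    exact DFunLike.congr_fun h2 x

theorem thmC (C : ∀ (G : Type) [Group G], Prop) (hC : ClosedE C)
    (L : Type) (hL : Nonempty L) (H : Halo L) (hfin : FinIn C H)
    (V I : Type) (ℓ : V → V → L) (hℓ : ∀ x y, ℓ x y = ℓ y x) (D : I → Set V)
    (f : ∀ i, D i → V) (hf : ∀ i, Emb (rs ℓ (D i)) ℓ (f i)) : C (HH H ℓ D f hf) := by
  have hperm : S_PERM := Pool.Agent.Y961.FJ.t_perm Pool.Agent.Y529.FJ.t_ext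
  exact t_hh (t_crit Pool.Agent.Y529.FJ.t_ext hperm) hperm C hC hL H hfin ℓ hℓ D f hf

end Pool.Agent.R779.FJ.Ports
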