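import Pool.Agent.R779.FJ.TwMain

/-!
# Extensions by graph products, with arbitrary isomorphisms between the vertex groups: the theorem
-/

set_option autoImplicit false

namespace Pool.Agent.R779.FJ.Tw

open Pool.Agent.Y110.FJ
open Pool.Agent.Y462.SS (Closed)
open Gp

section powers

variable {G : Type} [Group G] {V : Type} (P : V → Subgroup G) (τ : Equiv.Perm V) (g' : G)

theorem P_zpow (hP1 : ∀ v x, x ∈ P v → g' * x * g'⁻¹ ∈ P (τ v))
    (hP2 : ∀ v x, x ∈ P (τ v) → g'⁻¹ * x * g' ∈ P v) (i : ℤ) :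
    ∀ v x, x ∈ P v → g' ^ i * x * (g' ^ i)⁻¹ ∈ P ((τ ^ i) v) := by
  induction i using Int.induction_on with
  | zero => intro v x hx; simpa using hx
  | succ m ih =>
    intro v x hx
    have h1 := hP1 _ _ (ih v x hx)
    have h2 : g' ^ ((m : ℤ) + 1) * x * (g' ^ ((m : ℤ) + 1))⁻¹ =
        g' * (g' ^ (m : ℤ) * x * (g' ^ (m : ℤ))⁻¹) * g'⁻¹ := by
      rw [add_comm, zpow_add, zpow_one]; group
    rw [h2, add_comm, zpow_add, zpow_one]
    exact h1
  | pred m ih =>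
    intro v x hx
    have h3 : (τ ^ (-(m : ℤ))) v = τ ((τ ^ (-(m : ℤ) - 1)) v) := by
      rw [sub_eq_add_neg, add_comm, zpow_add, zpow_neg_one, Equiv.Perm.mul_apply,
        perm_apply_inv]
    have h0 := ih v x hx
    rw [h3] at h0
    have h1 := hP2 _ _ h0
    have h2 : g' ^ (-(m : ℤ) - 1) * x * (g' ^ (-(m : ℤ) - 1))⁻¹ =
        g'⁻¹ * (g' ^ (-(m : ℤ)) * x * (g' ^ (-(m : ℤ)))⁻¹) * g' := by
      rw [sub_eq_add_neg, add_comm, zpow_add, zpow_neg_one]; group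
    rw [h2]
    exact h1

theorem exists_rep {V : Type} (τ : Equiv.Perm V) : ∃ (rep : V → V) (k : V → ℤ),
    (∀ v, rep (τ v) = rep v) ∧ ∀ v, (τ ^ k v) (rep v) = v := by
  let rep : V → V := fun v => Quotient.out (Quotient.mk (Equiv.Perm.SameCycle.setoid τ) v)
  have hrep : ∀ v, ∃ k : ℤ, (τ ^ k) (rep v) = v := by
    intro v
    have h1 : Equiv.Perm.SameCycle τ (rep v) v :=
      Quotient.exact (Quotient.out_eq (Quotient.mk (Equiv.Perm.SameCycle.setoid τ) v))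
    exact h1
  choose k hk using hrep
  refine ⟨rep, k, ?_, hk⟩
  intro v
  show Quotient.out _ = Quotient.out _
  congr 1
  apply Quotient.sound
  show Equiv.Perm.SameCycle τ (τ v) v
  exact ⟨-1, by simp⟩

end powers

/-- the finite larger graph -/
theorem exists_T {V : Type} (Λ : SimpleGraph V) (τ : Equiv.Perm V)
    (hτ : ∀ v w, Λ.Adj (τ v) (τ w) ↔ Λ.Adj v w) (rep : V → V) (hrep : ∀ v, rep (τ v) = rep v)
    (R : Finset V) (A0 : Set V) (hτR : ∀ v ∈ A0, τ v ∈ R) {G : Type} [Group G]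
    (P : V → Subgroup G) :
    ∃ (T : Type) (_ : Finite T) (Λ' : SimpleGraph T) (Q : T → Subgroup G)
      (ι : {v // v ∈ R} → T) (σ : Equiv.Perm T), Function.Injective ι ∧
      (∀ v w, Λ'.Adj (ι v) (ι w) ↔ Λ.Adj v.1 w.1) ∧ (∀ s t, Λ'.Adj (σ s) (σ t) ↔ Λ'.Adj s t) ∧
      (∀ t, Q (σ t) = Q t) ∧ (∀ v, Q (ι v) = P (rep v.1)) ∧ (∀ t, Q t = ⊥ ∨ ∃ v, Q t = P v) ∧
      ∀ (v : V) (hv : v ∈ R) (hv' : v ∈ A0), σ (ι ⟨v, hv⟩) = ι ⟨τ v, hτR v hv'⟩ := by
  classical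
  let mm : {v // v ∈ R} → {v // v ∈ R} → Prop × Option V := fun x y =>
    (Λ.Adj x.1 y.1, if x = y then some (rep x.1) else none)
  obtain ⟨T, hT, m', ι, σ, hsym, hι, hιm, hσ, hισ⟩ := eppaL (L := Prop × Option V)
    {v // v ∈ R} inferInstance mm (by
      intro x y
      have e1 : Λ.Adj x.1 y.1 = Λ.Adj y.1 x.1 := propext (Λ.adj_comm _ _)
      have e2 : (if x = y then some (rep x.1) else none) =
          (if y = x then some (rep y.1) else none) := by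
        by_cases h : x = y
        · rw [if_pos h, if_pos h.symm, h]
        · rw [if_neg h, if_neg (fun h' => h h'.symm)]
      exact Prod.ext e1 e2)
    {x | x.1 ∈ A0} (fun x => ⟨τ x.1.1, hτR _ x.2⟩) (by
      intro x y hxy
      have h1 : τ x.1.1 = τ y.1.1 := congrArg Subtype.val hxy
      exact Subtype.ext (Subtype.ext (τ.injective h1))) (by
      intro x y
      have e1 : Λ.Adj (τ x.1.1) (τ y.1.1) = Λ.Adj x.1.1 y.1.1 := propext (hτ _ _)
      have e2 : (if (⟨τ x.1.1, hτR _ x.2⟩ : {v // v ∈ R}) = ⟨τ y.1.1, hτR _ y.2⟩ then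
          some (rep (τ x.1.1)) else none) =
          (if x.1 = y.1 then some (rep x.1.1) else none) := by
        by_cases h : x.1 = y.1
        · have h' : (⟨τ x.1.1, hτR _ x.2⟩ : {v // v ∈ R}) = ⟨τ y.1.1, hτR _ y.2⟩ :=
            Subtype.ext (congrArg (fun z : {v // v ∈ R} => τ z.1) h)
          rw [if_pos h, if_pos h', hrep]
        · have h' : (⟨τ x.1.1, hτR _ x.2⟩ : {v // v ∈ R}) ≠ ⟨τ y.1.1, hτR _ y.2⟩ := fun h' =>
            h (Subtype.ext (τ.injective (congrArg Subtype.val h')))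
          rw [if_neg h, if_neg h']
      exact Prod.ext e1 e2)
  let Pl : Option V → Subgroup G := fun o => o.elim ⊥ P
  refine ⟨T, hT,
    { Adj := fun s t => s ≠ t ∧ (m' s t).1
      symm := ⟨fun s t h => ⟨h.1.symm, by rw [hsym]; exact h.2⟩⟩
      loopless := ⟨fun s h => h.1 rfl⟩ }, fun t => Pl (m' t t).2, ι, σ, hι, ?_, ?_, ?_, ?_, ?_, ?_⟩
  · intro v w
    show ι v ≠ ι w ∧ (m' (ι v) (ι w)).1 ↔ _
    rw [hιm]
    constructor
    · exact fun h => h.2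
    · intro h
      refine ⟨fun h' => ?_, h⟩
      have := hι h'
      subst this
      exact Λ.loopless.irrefl _ h
  · intro s t
    show σ s ≠ σ t ∧ (m' (σ s) (σ t)).1 ↔ s ≠ t ∧ (m' s t).1
    rw [hσ]
    constructor
    · exact fun h => ⟨fun h' => h.1 (by rw [h']), h.2⟩
    · exact fun h => ⟨fun h' => h.1 (σ.injective h'), h.2⟩
  · intro t
    show Pl (m' (σ t) (σ t)).2 = Pl (m' t t).2
    rw [hσ]
  · intro v
    show Pl (m' (ι v) (ι v)).2 = _
    rw [hιm]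
    show Pl (if v = v then some (rep v.1) else none) = _
    rw [if_pos rfl]
    rfl
  · intro t
    show Pl (m' t t).2 = ⊥ ∨ ∃ v, Pl (m' t t).2 = P v
    cases (m' t t).2 with
    | none => exact Or.inl rfl
    | some v => exact Or.inr ⟨v, rfl⟩
  · intro v hv hv'
    exact hισ ⟨⟨v, hv⟩, hv'⟩

theorem t_tw (ham : S_AM) (hcrit : S_CRIT) (C : ∀ (G : Type) [Group G], Prop) (hC : ClosedE C)
    {V : Type} (Λ : SimpleGraph V) (A : V → Type) [∀ v, Group (A v)]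
    (G : Type) [Group G] (N : Subgroup G) [N.Normal] (hQ : C (G ⧸ N)) (e : GrP Λ A ≃* N)
    (P : V → Subgroup G)
    (hP : ∀ v, P v = ((N.subtype.comp e.toMonoidHom).comp (GrP.of Λ A v)).range)
    (hact : ∀ g : G, ∃ (τ : Equiv.Perm V) (n : G), n ∈ N ∧
      (∀ v w, Λ.Adj (τ v) (τ w) ↔ Λ.Adj v w) ∧
      ∀ v, (P v).map (MulAut.conj g).toMonoidHom = (P (τ v)).map (MulAut.conj n).toMonoidHom)
    (hloc : ∀ (v : V) (g : G), (P v).map (MulAut.conj g).toMonoidHom = P v →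
      C ↥(P v ⊔ Subgroup.zpowers g)) : C G := by
  classical
  refine hcrit C hC G N hQ ?_
  intro g E hE hEN
  obtain ⟨τ, n, hn, hτ, hgP⟩ := hact g
  obtain ⟨g', hgg⟩ : ∃ g' : G, g = n * g' := ⟨n⁻¹ * g, by group⟩
  -- the vertex groups
  have hP1 : ∀ v x, x ∈ P v → g' * x * g'⁻¹ ∈ P (τ v) := by
    intro v x hx
    have h1 : g * x * g⁻¹ ∈ (P (τ v)).map (MulAut.conj n).toMonoidHom := by
      rw [← hgP]
      exact ⟨x, hx, rfl⟩
    obtain ⟨y, hy, hyx⟩ := h1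
    change n * y * n⁻¹ = g * x * g⁻¹ at hyx
    have h2 : g' * x * g'⁻¹ = y := by
      rw [hgg] at hyx
      calc g' * x * g'⁻¹ = n⁻¹ * (n * g' * x * (n * g')⁻¹) * n := by group
        _ = y := by rw [← hyx]; group
    rw [h2]
    exact hy
  have hP2 : ∀ v x, x ∈ P (τ v) → g'⁻¹ * x * g' ∈ P v := by
    intro v x hx
    have h1 : n * x * n⁻¹ ∈ (P v).map (MulAut.conj g).toMonoidHom := by
      rw [hgP]
      exact ⟨x, hx, rfl⟩
    obtain ⟨y, hy, hyx⟩ := h1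
    change g * y * g⁻¹ = n * x * n⁻¹ at hyx
    have h2 : g'⁻¹ * x * g' = y := by
      rw [hgg] at hyx
      calc g'⁻¹ * x * g' = (n * g')⁻¹ * (n * x * n⁻¹) * (n * g') := by group
        _ = y := by rw [← hyx]; group
    rw [h2]
    exact hy
  have hPz := P_zpow P τ g' hP1 hP2
  obtain ⟨rep, k, hrep, hk⟩ := exists_rep τ
  -- supports
  have hsup : ∀ x : GrP Λ A, ∃ U : Finset V, x ∈ (sub (U : Set V) : Subgroup (GrP Λ A)) := exists_fin
  choose supp hsupp using hsup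
  obtain ⟨A0, hE', hn'⟩ : ∃ A0 : Finset V,
      (∀ x (hx : x ∈ E), e.symm ⟨x, hEN hx⟩ ∈ (sub (A0 : Set V) : Subgroup (GrP Λ A))) ∧
      e.symm ⟨n, hn⟩ ∈ (sub (A0 : Set V) : Subgroup (GrP Λ A)) := by
    refine ⟨(hE.toFinset.biUnion fun x => if h : x ∈ N then supp (e.symm ⟨x, h⟩) else ∅) ∪
      supp (e.symm ⟨n, hn⟩), ?_, ?_⟩
    · intro x hx
      refine sub_mono ?_ (hsupp (e.symm ⟨x, hEN hx⟩))
      intro v hv
      rw [Finset.mem_coe, Finset.mem_union, Finset.mem_biUnion]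
      refine Or.inl ⟨x, hE.mem_toFinset.2 hx, ?_⟩
      rw [dif_pos (show x ∈ N from hEN hx)]
      exact hv
    · refine sub_mono ?_ (hsupp (e.symm ⟨n, hn⟩))
      intro v hv
      rw [Finset.mem_coe, Finset.mem_union]
      exact Or.inr hv
  obtain ⟨R, hAR, hτR⟩ : ∃ R : Finset V, (∀ v ∈ (A0 : Set V), v ∈ R) ∧
      ∀ v ∈ (A0 : Set V), τ v ∈ R :=
    ⟨A0 ∪ A0.image τ, fun v hv => Finset.mem_union.2 (Or.inl hv), fun v hv =>
      Finset.mem_union.2 (Or.inr (Finset.mem_image.2 ⟨v, hv, rfl⟩))⟩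
  -- the larger graph
  obtain ⟨T, hT, Λ', Q, ι, σ, hι, hΛι, hΛσ, hQσ, hQι, hQcase, hισ⟩ :=
    exists_T Λ τ hτ rep hrep R (A0 : Set V) hτR P
  -- the twists
  obtain ⟨j, hjι, hj0⟩ : ∃ j : T → ℤ,
      (∀ (v : V) (hv : v ∈ R), v ∈ (A0 : Set V) → j (ι ⟨v, hv⟩) = k v + 1 - k (τ v)) ∧
      ∀ t, (∃ (v : V) (hv : v ∈ R), v ∈ (A0 : Set V) ∧ ι ⟨v, hv⟩ = t) ∨ j t = 0 := by
    let j : T → ℤ := fun t => if h : ∃ v : {v // v ∈ R}, ι v = t ∧ v.1 ∈ (A0 : Set V) then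
      k h.choose.1 + 1 - k (τ h.choose.1) else 0
    refine ⟨j, ?_, ?_⟩
    · intro v hvR hv
      have h : ∃ w : {v // v ∈ R}, ι w = ι ⟨v, hvR⟩ ∧ w.1 ∈ (A0 : Set V) := ⟨⟨v, hvR⟩, rfl, hv⟩
      have h1 : h.choose = ⟨v, hvR⟩ := hι h.choose_spec.1
      have h2 : h.choose.1 = v := congrArg Subtype.val h1
      show (if h : ∃ w : {v // v ∈ R}, ι w = ι ⟨v, hvR⟩ ∧ w.1 ∈ (A0 : Set V) then
        k h.choose.1 + 1 - k (τ h.choose.1) else 0) = _
      rw [dif_pos h, h2]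
    · intro t
      by_cases h : ∃ v : {v // v ∈ R}, ι v = t ∧ v.1 ∈ (A0 : Set V)
      · obtain ⟨v, hv, hv'⟩ := h
        exact Or.inl ⟨v.1, v.2, hv', hv⟩
      · exact Or.inr (dif_neg h)
  have hfix : ∀ v, (τ ^ (k v + 1 - k (τ v))) (rep v) = rep v := by
    intro v
    have h1 : (τ ^ (k v + 1)) (rep v) = (τ ^ (k (τ v))) (rep v) := by
      rw [add_comm, zpow_add, zpow_one, Equiv.Perm.mul_apply, hk]
      rw [← hrep v, hk]
    rw [sub_eq_add_neg, add_comm, zpow_add, Equiv.Perm.mul_apply, h1, zpow_neg,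
      perm_inv_apply]
  have hfix' : ∀ v, (τ ^ (-(k v + 1 - k (τ v)))) (rep v) = rep v := by
    intro v
    conv_lhs => rw [← hfix v]
    rw [zpow_neg, perm_inv_apply]
  have hfw : ∀ t x, x ∈ Q t → g' ^ j t * x * (g' ^ j t)⁻¹ ∈ Q t := by
    intro t x hx
    rcases hj0 t with ⟨v, hvR, hv, rfl⟩ | h
    · rw [hQι] at hx ⊢
      rw [hjι v hvR hv]
      have h1 := hPz (k v + 1 - k (τ v)) _ x hx
      rwa [hfix] at h1
    · rw [h, zpow_zero]
      simpa using hx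
  have hbw : ∀ t x, x ∈ Q t → (g' ^ j t)⁻¹ * x * g' ^ j t ∈ Q t := by
    intro t x hx
    rcases hj0 t with ⟨v, hvR, hv, rfl⟩ | h
    · rw [hQι] at hx ⊢
      rw [hjι v hvR hv]
      have h1 := hPz (-(k v + 1 - k (τ v))) _ x hx
      rw [hfix', zpow_neg, inv_inv] at h1
      exact h1
    · rw [h, zpow_zero]
      simpa using hx
  obtain ⟨Θ, hΘ, hCΘ⟩ := sd_aut Λ' Q ham hC σ hΛσ g' j hQσ hfw hbw
    (fun t y β hβ => loc_case hC P hloc (Q t) (hQcase t) y β hβ)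
  -- the map
  obtain ⟨inc, hinc0⟩ : ∃ inc : ∀ v, A v →* G, ∀ v a, inc v a = ((e (GrP.of Λ A v a) : N) : G) :=
    ⟨fun v => (N.subtype.comp e.toMonoidHom).comp (GrP.of Λ A v), fun v a => rfl⟩
  have hincP : ∀ v x, x ∈ P v ↔ ∃ a, inc v a = x := by
    intro v x
    rw [hP]
    constructor
    · rintro ⟨a, ha⟩
      exact ⟨a, (hinc0 v a).trans ha⟩
    · rintro ⟨a, ha⟩
      exact ⟨a, (hinc0 v a).symm.trans ha⟩
  have hinc : ∀ v a, inc v a ∈ P v := fun v a => (hincP v _).2 ⟨a, rfl⟩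
  have hmF : ∀ (v : V) (h : v ∈ R) (a : A v),
      (g' ^ k v)⁻¹ * inc v a * g' ^ k v ∈ Q (ι ⟨v, h⟩) := by
    intro v h a
    rw [hQι]
    have h1 := hPz (-k v) v _ (hinc v a)
    have h2 : (τ ^ (-k v)) v = rep v := by
      conv_lhs => rw [← hk v]
      rw [hk v, zpow_neg, Equiv.Perm.inv_eq_iff_eq, hk v]
    rw [h2, zpow_neg, inv_inv] at h1
    exact h1
  obtain ⟨F, hF⟩ : ∃ F : GrP Λ A →* GrP Λ' (fun t => ↥(Q t)), ∀ (v : V) (h : v ∈ R) a,
      F (GrP.of Λ A v a) = ofQ Λ' Q (ι ⟨v, h⟩) ((g' ^ k v)⁻¹ * inc v a * g' ^ k v) (hmF v h a) := by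
    obtain ⟨F, hF⟩ := lift_on (Λ := Λ) (A := A) (H := GrP Λ' (fun t => ↥(Q t))) (R : Set V)
      (fun v h =>
        { toFun := fun a => ofQ Λ' Q (ι ⟨v, h⟩) ((g' ^ k v)⁻¹ * inc v a * g' ^ k v) (hmF v h a)
          map_one' := by
            refine Eq.trans ?_ (map_one (GrP.of Λ' (fun t => ↥(Q t)) (ι ⟨v, h⟩)))
            refine congrArg (GrP.of Λ' (fun t => ↥(Q t)) (ι ⟨v, h⟩)) (Subtype.ext ?_)
            show (g' ^ k v)⁻¹ * inc v 1 * g' ^ k v = 1
            rw [map_one]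
            group
          map_mul' := fun a b => by
            refine Eq.trans ?_ (map_mul (GrP.of Λ' (fun t => ↥(Q t)) (ι ⟨v, h⟩)) _ _)
            refine congrArg (GrP.of Λ' (fun t => ↥(Q t)) (ι ⟨v, h⟩)) (Subtype.ext ?_)
            show (g' ^ k v)⁻¹ * inc v (a * b) * g' ^ k v =
              (g' ^ k v)⁻¹ * inc v a * g' ^ k v * ((g' ^ k v)⁻¹ * inc v b * g' ^ k v)
            rw [map_mul]
            group }) (by
        intro v w h h' hvw a b
        exact comm ((hΛι ⟨v, h⟩ ⟨w, h'⟩).2 hvw) _ _)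
    exact ⟨F, fun v h a => hF v h a⟩
  -- the way back
  have hmB : ∀ (v : {v // v ∈ R}) (x : G), x ∈ Q (ι v) →
      g' ^ k v.1 * x * (g' ^ k v.1)⁻¹ ∈ P v.1 := by
    intro v x hx
    rw [hQι] at hx
    have h1 := hPz (k v.1) (rep v.1) x hx
    rwa [hk] at h1
  have hPcomm : ∀ v w, Λ.Adj v w → ∀ x ∈ P v, ∀ y ∈ P w, x * y = y * x := by
    intro v w hvw x hx y hy
    obtain ⟨a, rfl⟩ := (hincP v x).1 hx
    obtain ⟨b, rfl⟩ := (hincP w y).1 hy
    rw [hinc0, hinc0, ← Subgroup.coe_mul, ← Subgroup.coe_mul, ← map_mul, ← map_mul, comm hvw]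
  obtain ⟨Bk, hBk⟩ : ∃ Bk : GrP Λ' (fun t => ↥(Q t)) →* G, ∀ (v : {v // v ∈ R}) x
      (hx : x ∈ Q (ι v)), Bk (ofQ Λ' Q (ι v) x hx) = g' ^ k v.1 * x * (g' ^ k v.1)⁻¹ := by
    obtain ⟨Bk, hBk⟩ := lift_on (Λ := Λ') (A := fun t => ↥(Q t)) (H := G) (Set.range ι)
      (fun t h =>
        { toFun := fun x => g' ^ k h.choose.1 * x.1 * (g' ^ k h.choose.1)⁻¹
          map_one' := by
            show g' ^ k h.choose.1 * 1 * (g' ^ k h.choose.1)⁻¹ = 1
            group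
          map_mul' := fun a b => by
            show g' ^ k h.choose.1 * (a.1 * b.1) * (g' ^ k h.choose.1)⁻¹ =
              g' ^ k h.choose.1 * a.1 * (g' ^ k h.choose.1)⁻¹ *
                (g' ^ k h.choose.1 * b.1 * (g' ^ k h.choose.1)⁻¹)
            group }) (by
        intro s t h h' hst a b
        refine hPcomm h.choose.1 h'.choose.1 ?_ _ (hmB h.choose a.1 ?_) _ (hmB h'.choose b.1 ?_)
        · rw [← hΛι, h.choose_spec, h'.choose_spec]
          exact hst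
        · rw [h.choose_spec]
          exact a.2
        · rw [h'.choose_spec]
          exact b.2)
    refine ⟨Bk, ?_⟩
    intro v x hx
    have h : ι v ∈ Set.range ι := ⟨v, rfl⟩
    have h1 : h.choose = v := hι h.choose_spec
    have h2 := hBk (ι v) h ⟨x, hx⟩
    refine Eq.trans h2 ?_
    show g' ^ k h.choose.1 * x * (g' ^ k h.choose.1)⁻¹ = _
    rw [h1]
  have hBF : ∀ u ∈ (sub (R : Set V) : Subgroup (GrP Λ A)), Bk (F u) = ((e u : N) : G) := by
    intro u hu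
    refine eqOn (f := Bk.comp F) (g := N.subtype.comp e.toMonoidHom) ?_ u hu
    intro v hv a
    show Bk (F (GrP.of Λ A v a)) = ((e (GrP.of Λ A v a) : N) : G)
    rw [hF v hv a, hBk, ← hinc0]
    group
  -- the conjugation
  obtain ⟨κ, hκ⟩ : ∃ κ : GrP Λ A →* GrP Λ A, ∀ u, ((e (κ u) : N) : G) = g' * ((e u : N) : G) * g'⁻¹ := by
    refine ⟨(e.symm.toMonoidHom.comp (MulAut.conjNormal g' : MulAut N).toMonoidHom).comp
      e.toMonoidHom, ?_⟩
    intro u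
    show ((e (e.symm (MulAut.conjNormal g' (e u))) : N) : G) = _
    rw [e.apply_symm_apply]
    exact MulAut.conjNormal_apply _ _
  have hκof : ∀ v a, ∃ a' : A (τ v), κ (GrP.of Λ A v a) = GrP.of Λ A (τ v) a' ∧
      inc (τ v) a' = g' * inc v a * g'⁻¹ := by
    intro v a
    obtain ⟨a', ha'⟩ := (hincP _ _).1 (hP1 v _ (hinc v a))
    refine ⟨a', ?_, ha'⟩
    apply e.injective
    apply Subtype.ext
    rw [hκ, ← hinc0, ← hinc0]
    exact ha'.symm
  have hκsub : ∀ u ∈ (sub (A0 : Set V) : Subgroup (GrP Λ A)),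
      κ u ∈ (sub (R : Set V) : Subgroup (GrP Λ A)) := by
    intro u hu
    refine map_mem ?_ u hu
    intro v hv a
    obtain ⟨a', h1, -⟩ := hκof v a
    rw [h1]
    exact of_mem (hτR v hv) a'
  have hΘF : ∀ u ∈ (sub (A0 : Set V) : Subgroup (GrP Λ A)), Θ (F u) = F (κ u) := by
    intro u hu
    refine eqOn (f := Θ.toMonoidHom.comp F) (g := F.comp κ) ?_ u hu
    intro v hv a
    obtain ⟨a', h1, h2⟩ := hκof v a
    show Θ (F (GrP.of Λ A v a)) = F (κ (GrP.of Λ A v a))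
    have hvR : v ∈ R := hAR v hv
    have m1 : g' ^ j (ι ⟨v, hvR⟩) * ((g' ^ k v)⁻¹ * inc v a * g' ^ k v) *
        (g' ^ j (ι ⟨v, hvR⟩))⁻¹ ∈ Q (σ (ι ⟨v, hvR⟩)) := by
      rw [hQσ]
      exact hfw _ _ (hmF v hvR a)
    rw [h1, hF v hvR a, hF (τ v) (hτR v hv) a', hΘ _ _ _ m1]
    apply ofQ_congr
    · exact hισ v hvR hv
    · rw [h2, hjι v hvR hv]
      have h3 : g' ^ (k v + 1 - k (τ v)) = (g' ^ k (τ v))⁻¹ * g' * g' ^ k v := by
        rw [← zpow_neg, ← zpow_add_one, ← zpow_add]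
        congr 1
        ring
      rw [h3]
      group
  have hggx : ∀ z : G, g * z * g⁻¹ = n * (g' * z * g'⁻¹) * n⁻¹ := by
    intro z
    rw [hgg]
    group
  -- the final step
  obtain ⟨ψ, hψ0⟩ : ∃ ψ : GrP Λ A →* G, ∀ u, ψ u = ((e u : N) : G) :=
    ⟨N.subtype.comp e.toMonoidHom, fun u => rfl⟩
  have hcl : Subgroup.closure (E ∪ (fun x => g * x * g⁻¹) '' E) ≤
      (sub (R : Set V) : Subgroup (GrP Λ A)).map ψ := by
    rw [Subgroup.closure_le]
    have hsubR : (sub (A0 : Set V) : Subgroup (GrP Λ A)) ≤ sub (R : Set V) :=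
      sub_mono (fun v hv => hAR v hv)
    rintro x (hx | ⟨y, hy, rfl⟩)
    · refine ⟨_, hsubR (hE' x hx), ?_⟩
      rw [hψ0, e.apply_symm_apply]
    · refine ⟨e.symm ⟨n, hn⟩ * κ (e.symm ⟨y, hEN hy⟩) * (e.symm ⟨n, hn⟩)⁻¹,
        Subgroup.mul_mem _ (Subgroup.mul_mem _ (hsubR hn') (hκsub _ (hE' y hy)))
          (Subgroup.inv_mem _ (hsubR hn')), ?_⟩
      rw [map_mul, map_mul, map_inv, hψ0, hψ0, hκ, e.apply_symm_apply, e.apply_symm_apply]
      show n * (g' * y * g'⁻¹) * n⁻¹ = g * y * g⁻¹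
      rw [hgg]
      group
  have hψ : Function.Injective ψ := by
    intro a b hab
    rw [hψ0, hψ0] at hab
    exact e.injective (Subtype.ext hab)
  have hclr : Subgroup.closure (E ∪ (fun x => g * x * g⁻¹) '' E) ≤ ψ.range := by
    refine hcl.trans ?_
    rintro _ ⟨u, -, rfl⟩
    exact ⟨u, rfl⟩
  obtain ⟨back, hback⟩ : ∃ back : ψ.range →* GrP Λ A, ∀ z (hz : ψ z ∈ ψ.range),
      back ⟨ψ z, hz⟩ = z := by
    refine ⟨(MonoidHom.ofInjective hψ).symm.toMonoidHom, ?_⟩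
    intro z hz
    show (MonoidHom.ofInjective hψ).symm ⟨ψ z, hz⟩ = z
    rw [MulEquiv.symm_apply_eq]
    rfl
  refine ⟨GrP Λ' (fun t => ↥(Q t)) ⋊[zpowersHom (MulAut (GrP Λ' (fun t => ↥(Q t)))) Θ]
    Multiplicative ℤ, inferInstance,
    (SemidirectProduct.inl.comp (F.comp back)).comp (Subgroup.inclusion hclr),
    SemidirectProduct.inl (F (e.symm ⟨n, hn⟩)) * SemidirectProduct.inr (Multiplicative.ofAdd 1),
    hCΘ, ?_, ?_⟩
  · rw [injective_iff_map_eq_one]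
    rintro ⟨x, hx⟩ h1
    obtain ⟨u, hu, rfl⟩ := hcl hx
    have h2 : F (back ⟨ψ u, hclr hx⟩) = 1 := SemidirectProduct.inl_injective
      (h1.trans (map_one SemidirectProduct.inl).symm)
    rw [hback] at h2
    have h3 := hBF u hu
    rw [h2, map_one, ← hψ0] at h3
    exact Subtype.ext h3.symm
  · intro x y hx hy
    have hxx : back (Subgroup.inclusion hclr x) = e.symm ⟨(x : G), hEN hx⟩ := by
      have h1 : Subgroup.inclusion hclr x = ⟨ψ (e.symm ⟨(x : G), hEN hx⟩), ⟨_, rfl⟩⟩ := by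
        apply Subtype.ext
        show (x : G) = ψ (e.symm ⟨(x : G), hEN hx⟩)
        rw [hψ0, e.apply_symm_apply]
      rw [h1]
      exact hback _ _
    have hyy : back (Subgroup.inclusion hclr y) =
        e.symm ⟨n, hn⟩ * κ (e.symm ⟨(x : G), hEN hx⟩) * (e.symm ⟨n, hn⟩)⁻¹ := by
      have h1 : Subgroup.inclusion hclr y =
          ⟨ψ (e.symm ⟨n, hn⟩ * κ (e.symm ⟨(x : G), hEN hx⟩) * (e.symm ⟨n, hn⟩)⁻¹), ⟨_, rfl⟩⟩ := by
        apply Subtype.ext
        refine hy.trans ?_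
        show g * (x : G) * g⁻¹ = ψ _
        rw [map_mul, map_mul, map_inv, hψ0, hψ0, hκ, e.apply_symm_apply, e.apply_symm_apply]
        exact hggx _
      rw [h1]
      exact hback _ _
    show (SemidirectProduct.inl (F (back (Subgroup.inclusion hclr y))) :
        GrP Λ' (fun t => ↥(Q t)) ⋊[zpowersHom (MulAut (GrP Λ' (fun t => ↥(Q t)))) Θ]
          Multiplicative ℤ) =
      SemidirectProduct.inl (F (e.symm ⟨n, hn⟩)) * SemidirectProduct.inr (Multiplicative.ofAdd 1) *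
        SemidirectProduct.inl (F (back (Subgroup.inclusion hclr x))) *
          (SemidirectProduct.inl (F (e.symm ⟨n, hn⟩)) *
            SemidirectProduct.inr (Multiplicative.ofAdd 1))⁻¹
    rw [hxx, hyy]
    have h3 : (SemidirectProduct.inr (Multiplicative.ofAdd 1) :
          GrP Λ' (fun t => ↥(Q t)) ⋊[zpowersHom (MulAut (GrP Λ' (fun t => ↥(Q t)))) Θ]
            Multiplicative ℤ) *
        SemidirectProduct.inl (F (e.symm ⟨(x : G), hEN hx⟩)) *
          (SemidirectProduct.inr (Multiplicative.ofAdd 1))⁻¹ =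
        SemidirectProduct.inl (Θ (F (e.symm ⟨(x : G), hEN hx⟩))) := by
      rw [← map_inv, ← SemidirectProduct.inl_aut]
      congr 1
    rw [map_mul F, map_mul F, map_inv F, map_mul, map_mul, map_inv,
      ← hΘF _ (hE' _ hx), ← h3]
    group

end Pool.Agent.R779.FJ.Tw
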