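import Pool.Agent.R779.FJ.Ports
import Pool.Agent.R779.FJ.TwThm

set_option autoImplicit false

namespace Pool.Agent.R779.FJ.Ports

open Pool.Agent.Y110.FJ Pool.Agent.R779.FJ

/-- the vertex group of `v`, as a subgroup of `G`, where the normal subgroup `N` of `G` is the graph
product of the groups `A v` over the graph `Λ` -/
def vertexGroup {V : Type} {Λ : SimpleGraph V} {A : V → Type} [∀ v, Group (A v)]
    {G : Type} [Group G] {N : Subgroup G} (e : GrP Λ A ≃* N) (v : V) : Subgroup G :=
  ((N.subtype.comp e.toMonoidHom).comp (GrP.of Λ A v)).range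

/-- for each `g` in `G` there are an automorphism `τ` of the graph and `n` in `N` such that the
conjugation by `g` maps the vertex group of `v` onto the conjugate by `n` of the vertex group
of `τ v`, for all `v` -/
def Permutes {V : Type} {Λ : SimpleGraph V} {A : V → Type} [∀ v, Group (A v)]
    {G : Type} [Group G] {N : Subgroup G} (e : GrP Λ A ≃* N) : Prop :=
  ∀ g : G, ∃ (τ : Equiv.Perm V) (n : G), n ∈ N ∧
    (∀ v w, Λ.Adj (τ v) (τ w) ↔ Λ.Adj v w) ∧
    ∀ v, (vertexGroup e v).map (MulAut.conj g).toMonoidHom =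
      (vertexGroup e (τ v)).map (MulAut.conj n).toMonoidHom

/-- the subgroup generated by the vertex group of `v` and `g` is in `C`, for all `v` and all `g`
normalizing it -/
def NormalizersIn (C : ∀ (G : Type) [Group G], Prop) {V : Type} {Λ : SimpleGraph V} {A : V → Type}
    [∀ v, Group (A v)] {G : Type} [Group G] {N : Subgroup G} (e : GrP Λ A ≃* N) : Prop :=
  ∀ (v : V) (g : G), (vertexGroup e v).map (MulAut.conj g).toMonoidHom = vertexGroup e v →
    C ↥(vertexGroup e v ⊔ Subgroup.zpowers g)

theorem thmD (C : ∀ (G : Type) [Group G], Prop) (hC : ClosedE C)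
    (V : Type) (Λ : SimpleGraph V) (A : V → Type) [∀ v, Group (A v)]
    (G : Type) [Group G] (N : Subgroup G) [N.Normal] (hQ : C (G ⧸ N)) (e : GrP Λ A ≃* N)
    (hact : Permutes e) (hloc : NormalizersIn C e) : C G := by
  have hperm : S_PERM := Pool.Agent.Y961.FJ.t_perm Pool.Agent.Y529.FJ.t_ext
  exact Tw.t_tw (Pool.Agent.Y417.FJ.t_am hperm) (t_crit Pool.Agent.Y529.FJ.t_ext hperm) C hC Λ A G N
    hQ e (vertexGroup e) (fun v => rfl) hact hloc

end Pool.Agent.R779.FJ.Ports
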