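import Pool.Agent.R779.FJ.Gp
import Pool.Agent.R779.FJ.EppaL

/-!
# Extensions by graph products, with arbitrary isomorphisms between the vertex groups
-/

set_option autoImplicit false

namespace Pool.Agent.R779.FJ.Tw

open Pool.Agent.Y110.FJ
open Pool.Agent.Y462.SS (Closed)

section lft

variable {M T : Type} [Group M] [Group T] (φ : T →* MulAut M)

/-- the subgroup `X ⋊ T` -/
def lft (X : Subgroup M) (hX : ∀ t, ∀ x ∈ X, φ t x ∈ X) : Subgroup (M ⋊[φ] T) where
  carrier := {s | s.left ∈ X}
  mul_mem' {a b} ha hb := by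
    show (a * b).left ∈ X
    rw [SemidirectProduct.mul_left]
    exact X.mul_mem ha (hX _ _ hb)
  one_mem' := X.one_mem
  inv_mem' {a} ha := by
    show (a⁻¹).left ∈ X
    rw [SemidirectProduct.inv_left]
    exact hX _ _ (X.inv_mem ha)

theorem mem_lft {X : Subgroup M} {hX : ∀ t, ∀ x ∈ X, φ t x ∈ X} {s : M ⋊[φ] T} :
    s ∈ lft φ X hX ↔ s.left ∈ X := Iff.rfl

/-- the semidirect product of an amalgamated product -/
theorem amg_semi (U A B K : Subgroup M) (hU : ∀ t, ∀ x ∈ U, φ t x ∈ U)
    (hA : ∀ t, ∀ x ∈ A, φ t x ∈ A) (hB : ∀ t, ∀ x ∈ B, φ t x ∈ B) (hK : ∀ t, ∀ x ∈ K, φ t x ∈ K)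
    (hAU : A ≤ U) (hBU : B ≤ U)
    (h : Amg (A.subgroupOf U) (B.subgroupOf U) (K.subgroupOf U)) :
    Amg ((lft φ A hA).subgroupOf (lft φ U hU)) ((lft φ B hB).subgroupOf (lft φ U hU))
      ((lft φ K hK).subgroupOf (lft φ U hU)) := by
  have hmem : ∀ x : M, x ∈ U → (SemidirectProduct.inl x : M ⋊[φ] T) ∈ lft φ U hU := fun x hx => hx
  have hmemr : ∀ t : T, (SemidirectProduct.inr t : M ⋊[φ] T) ∈ lft φ U hU := fun t => U.one_mem
  have hdec : ∀ s : lft φ U hU, s = (⟨SemidirectProduct.inl s.1.left, hmem _ s.2⟩ : lft φ U hU) *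
      ⟨SemidirectProduct.inr s.1.right, hmemr _⟩ := by
    intro s
    apply Subtype.ext
    exact (SemidirectProduct.inl_left_mul_inr_right s.1).symm
  refine ⟨?_, ?_, ?_, ?_⟩
  · intro s hs
    exact h.le_left (show (⟨s.1.left, s.2⟩ : U) ∈ K.subgroupOf U from hs)
  · intro s hs
    exact h.le_right (show (⟨s.1.left, s.2⟩ : U) ∈ K.subgroupOf U from hs)
  · rw [eq_top_iff]
    rintro s -
    rw [hdec s]
    refine Subgroup.mul_mem _ ?_ ?_
    · have h1 : ∀ x : U, (⟨SemidirectProduct.inl (x : M), hmem _ x.2⟩ : lft φ U hU) ∈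
          (lft φ A hA).subgroupOf (lft φ U hU) ⊔ (lft φ B hB).subgroupOf (lft φ U hU) := by
        intro x
        have hx : x ∈ A.subgroupOf U ⊔ B.subgroupOf U := by rw [h.gen]; trivial
        let ι : U →* lft φ U hU :=
          { toFun := fun x => ⟨SemidirectProduct.inl (x : M), hmem _ x.2⟩
            map_one' := Subtype.ext (map_one _)
            map_mul' := fun a b => Subtype.ext (map_mul _ _ _) }
        have h2 : A.subgroupOf U ⊔ B.subgroupOf U ≤ ((lft φ A hA).subgroupOf (lft φ U hU) ⊔
            (lft φ B hB).subgroupOf (lft φ U hU)).comap ι := by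
          refine sup_le ?_ ?_
          · intro y hy
            exact (le_sup_left : (lft φ A hA).subgroupOf (lft φ U hU) ≤ _) hy
          · intro y hy
            exact (le_sup_right : (lft φ B hB).subgroupOf (lft φ U hU) ≤ _) hy
        exact h2 hx
      exact h1 ⟨s.1.left, s.2⟩
    · exact (le_sup_left : (lft φ A hA).subgroupOf (lft φ U hU) ≤ _) (A.one_mem)
  · intro H _ f g hfg
    let ιA : A.subgroupOf U →* (lft φ A hA).subgroupOf (lft φ U hU) :=
      { toFun := fun x => ⟨⟨SemidirectProduct.inl (x.1 : M), hmem _ x.1.2⟩, x.2⟩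
        map_one' := Subtype.ext (Subtype.ext (map_one _))
        map_mul' := fun a b => Subtype.ext (Subtype.ext (map_mul _ _ _)) }
    let ιB : B.subgroupOf U →* (lft φ B hB).subgroupOf (lft φ U hU) :=
      { toFun := fun x => ⟨⟨SemidirectProduct.inl (x.1 : M), hmem _ x.1.2⟩, x.2⟩
        map_one' := Subtype.ext (Subtype.ext (map_one _))
        map_mul' := fun a b => Subtype.ext (Subtype.ext (map_mul _ _ _)) }
    let rA : T →* (lft φ A hA).subgroupOf (lft φ U hU) :=
      { toFun := fun t => ⟨⟨SemidirectProduct.inr t, hmemr _⟩, A.one_mem⟩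
        map_one' := Subtype.ext (Subtype.ext (map_one _))
        map_mul' := fun a b => Subtype.ext (Subtype.ext (map_mul _ _ _)) }
    let rB : T →* (lft φ B hB).subgroupOf (lft φ U hU) :=
      { toFun := fun t => ⟨⟨SemidirectProduct.inr t, hmemr _⟩, B.one_mem⟩
        map_one' := Subtype.ext (Subtype.ext (map_one _))
        map_mul' := fun a b => Subtype.ext (Subtype.ext (map_mul _ _ _)) }
    have hr : ∀ t, f (rA t) = g (rB t) := fun t =>
      hfg ⟨SemidirectProduct.inr t, hmemr _⟩ K.one_mem
    obtain ⟨h', h1, h2⟩ := h.univ H (f.comp ιA) (g.comp ιB) (by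
      intro c hc
      exact hfg ⟨SemidirectProduct.inl (c : M), hmem _ c.2⟩ hc)
    -- the action on `U`
    let aU : T → (U →* U) := fun t =>
      { toFun := fun x => ⟨φ t x, hU t x x.2⟩
        map_one' := Subtype.ext (map_one _)
        map_mul' := fun a b => Subtype.ext (map_mul _ _ _) }
    have hact : ∀ (t : T) (x : U), h' (aU t x) = f (rA t) * h' x * (f (rA t))⁻¹ := by
      intro t
      have h3 : h'.comp (aU t) = (MulAut.conj (f (rA t))).toMonoidHom.comp h' := by
        apply MonoidHom.eq_of_eqOn_top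
        rw [← h.gen]
        have h4 : A.subgroupOf U ⊔ B.subgroupOf U ≤
            (h'.comp (aU t)).eqLocus ((MulAut.conj (f (rA t))).toMonoidHom.comp h') := by
          refine sup_le ?_ ?_
          · intro x hx
            show h' (aU t x) = f (rA t) * h' x * (f (rA t))⁻¹
            have hx2 : aU t x ∈ A.subgroupOf U := hA t _ hx
            have e1 := h1 ⟨x, hx⟩
            have e2 := h1 ⟨aU t x, hx2⟩
            change h' (aU t x) = f (ιA ⟨aU t x, hx2⟩) at e2
            change h' x = f (ιA ⟨x, hx⟩) at e1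
            rw [e2, e1, ← map_mul, ← map_inv, ← map_mul]
            congr 1
            apply Subtype.ext
            apply Subtype.ext
            show (SemidirectProduct.inl (φ t (x : M)) : M ⋊[φ] T) =
              SemidirectProduct.inr t * SemidirectProduct.inl (x : M) * (SemidirectProduct.inr t)⁻¹
            rw [SemidirectProduct.inl_aut, map_inv]
          · intro x hx
            show h' (aU t x) = f (rA t) * h' x * (f (rA t))⁻¹
            have hx2 : aU t x ∈ B.subgroupOf U := hB t _ hx
            have e1 := h2 ⟨x, hx⟩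
            have e2 := h2 ⟨aU t x, hx2⟩
            change h' (aU t x) = g (ιB ⟨aU t x, hx2⟩) at e2
            change h' x = g (ιB ⟨x, hx⟩) at e1
            rw [hr, e2, e1, ← map_mul, ← map_inv, ← map_mul]
            congr 1
            apply Subtype.ext
            apply Subtype.ext
            show (SemidirectProduct.inl (φ t (x : M)) : M ⋊[φ] T) =
              SemidirectProduct.inr t * SemidirectProduct.inl (x : M) * (SemidirectProduct.inr t)⁻¹
            rw [SemidirectProduct.inl_aut, map_inv]
        intro x hx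
        exact h4 hx
      intro x
      exact DFunLike.congr_fun h3 x
    let h0 : lft φ U hU →* H :=
      { toFun := fun s => h' ⟨s.1.left, s.2⟩ * f (rA s.1.right)
        map_one' := by
          show h' ⟨(1 : M), _⟩ * f (rA 1) = 1
          rw [map_one rA, map_one, mul_one]
          exact map_one h'
        map_mul' := by
          intro a b
          have e1 : (⟨(a * b).1.left, (a * b).2⟩ : U) =
              ⟨a.1.left, a.2⟩ * aU a.1.right ⟨b.1.left, b.2⟩ := rfl
          have e2 : (a * b).1.right = a.1.right * b.1.right := rfl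
          show h' ⟨(a * b).1.left, (a * b).2⟩ * f (rA (a * b).1.right) =
            h' ⟨a.1.left, a.2⟩ * f (rA a.1.right) * (h' ⟨b.1.left, b.2⟩ * f (rA b.1.right))
          rw [e1, e2, map_mul, map_mul rA, map_mul, hact]
          group }
    refine ⟨h0, ?_, ?_⟩
    · rintro ⟨s, hs⟩
      have e1 := h1 ⟨⟨s.1.left, s.2⟩, hs⟩
      show h' ⟨s.1.left, s.2⟩ * f (rA s.1.right) = f ⟨s, hs⟩
      rw [e1]
      show f (ιA _) * f (rA s.1.right) = _
      rw [← map_mul]
      congr 1
      apply Subtype.ext
      exact (hdec s).symm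
    · rintro ⟨s, hs⟩
      have e1 := h2 ⟨⟨s.1.left, s.2⟩, hs⟩
      show h' ⟨s.1.left, s.2⟩ * f (rA s.1.right) = g ⟨s, hs⟩
      rw [e1, hr]
      show g (ιB _) * g (rB s.1.right) = _
      rw [← map_mul]
      congr 1
      apply Subtype.ext
      exact (hdec s).symm

end lft

open Gp

section fin

variable {V : Type} {Λ : SimpleGraph V} {A : V → Type} [∀ v, Group (A v)] {T : Type} [Group T]

theorem sub_inv (φ : T →* MulAut (GrP Λ A)) (α : ∀ v, T →* MulAut (A v))
    (h : ∀ t v a, φ t (GrP.of Λ A v a) = GrP.of Λ A v (α v t a)) (U : Set V) (t : T)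
    (x : GrP Λ A) (hx : x ∈ (sub U : Subgroup (GrP Λ A))) : φ t x ∈ (sub U : Subgroup (GrP Λ A)) := by
  refine map_mem (f := (φ t).toMonoidHom) ?_ x hx
  intro v hv a
  show φ t (GrP.of Λ A v a) ∈ _
  rw [h]
  exact of_mem hv _

theorem ret_act (φ : T →* MulAut (GrP Λ A)) (α : ∀ v, T →* MulAut (A v))
    (h : ∀ t v a, φ t (GrP.of Λ A v a) = GrP.of Λ A v (α v t a)) (U : Set V) (t : T)
    (x : GrP Λ A) : ret U (φ t x) = φ t (ret U x) := by
  have h1 : (ret U).comp (φ t).toMonoidHom = (φ t).toMonoidHom.comp (ret U) := by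
    apply hom_ext
    intro v a
    show ret U (φ t (GrP.of Λ A v a)) = φ t (ret U (GrP.of Λ A v a))
    rw [h]
    by_cases hv : v ∈ U
    · rw [ret_of_mem hv, ret_of_mem hv, h]
    · rw [ret_of_not_mem hv, ret_of_not_mem hv, map_one]
  exact DFunLike.congr_fun h1 x

theorem prj_act (φ : T →* MulAut (GrP Λ A)) (α : ∀ v, T →* MulAut (A v))
    (h : ∀ t v a, φ t (GrP.of Λ A v a) = GrP.of Λ A v (α v t a)) (v : V) (t : T)
    (x : GrP Λ A) : prj v (φ t x) = α v t (prj v x) := by
  have h1 : (prj v).comp (φ t).toMonoidHom = (α v t).toMonoidHom.comp (prj v : GrP Λ A →* A v) := by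
    apply hom_ext
    intro w a
    show prj v (φ t (GrP.of Λ A w a)) = α v t (prj v (GrP.of Λ A w a))
    rw [h]
    by_cases hw : w = v
    · subst hw
      rw [prj_of, prj_of]
    · rw [prj_of_ne hw, prj_of_ne hw, map_one]
  exact DFunLike.congr_fun h1 x

theorem fin_semi (ham : S_AM) {C : ∀ (G : Type) [Group G], Prop} (hC : ClosedE C)
    (φ : T →* MulAut (GrP Λ A)) (α : ∀ v, T →* MulAut (A v))
    (h : ∀ t v a, φ t (GrP.of Λ A v a) = GrP.of Λ A v (α v t a)) (hT : C T)
    (hA : ∀ v, C (A v ⋊[α v] T)) (U : Finset V) :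
    C ↥(lft φ (sub (U : Set V)) (fun t x hx => sub_inv φ α h (U : Set V) t x hx)) := by
  classical
  induction U using Finset.induction_on with
  | empty =>
    have h0 : (sub ((∅ : Finset V) : Set V) : Subgroup (GrP Λ A)) = ⊥ := by
      rw [eq_bot_iff, sub, Subgroup.closure_le]
      rintro _ ⟨v, hv, -⟩
      simp at hv
    refine hC.base.of_injective _ _ ((SemidirectProduct.rightHom).comp (Subgroup.subtype _)) ?_ hT
    rw [injective_iff_map_eq_one]
    rintro ⟨s, hs⟩ h1
    have h2 : s.left ∈ (sub ((∅ : Finset V) : Set V) : Subgroup (GrP Λ A)) := hs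
    rw [h0, Subgroup.mem_bot] at h2
    have h3 : s.right = 1 := h1
    exact Subtype.ext (SemidirectProduct.ext h2 h3)
  | insert v U hv ih =>
    have hv' : v ∉ (U : Set V) := by simpa using hv
    have hins : ((insert v U : Finset V) : Set V) = insert v (U : Set V) := Finset.coe_insert v U
    have key : C ↥(lft φ (sub (insert v (U : Set V)))
        (fun t x hx => sub_inv φ α h (insert v (U : Set V)) t x hx)) := by
      let L : Set V := {u | u ∈ (U : Set V) ∧ Λ.Adj v u}
      have hLU : L ⊆ (U : Set V) := fun u hu => hu.1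
      let R : GrP Λ A ⋊[φ] T →* GrP Λ A ⋊[φ] T :=
        SemidirectProduct.map (ret (U : Set V)) (MonoidHom.id T) (fun t => by
          apply MonoidHom.ext
          intro x
          exact ret_act φ α h _ t x)
      let Q : GrP Λ A ⋊[φ] T →* A v ⋊[α v] T :=
        SemidirectProduct.map (prj v) (MonoidHom.id T) (fun t => by
          apply MonoidHom.ext
          intro x
          exact prj_act φ α h v t x)
      have hR : ∀ s, R s ∈ lft φ (sub (U : Set V)) (fun t x hx => sub_inv φ α h (U : Set V) t x hx) :=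
        fun s => ret_mem _ s.left
      refine ham C hC _ (↥(lft φ (sub (U : Set V))
        (fun t x hx => sub_inv φ α h (U : Set V) t x hx)) × (A v ⋊[α v] T)) _ _ _
        (amg_semi φ (sub (insert v (U : Set V))) (sub (U : Set V)) (sub (insert v L)) (sub L)
          (fun t x hx => sub_inv φ α h _ t x hx) (fun t x hx => sub_inv φ α h _ t x hx)
          (fun t x hx => sub_inv φ α h _ t x hx) (fun t x hx => sub_inv φ α h _ t x hx)
          (sub_mono (Set.subset_insert v _)) (sub_mono (Set.insert_subset_insert hLU))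
          (amg (U : Set V) v hv' L rfl))
        (((R.codRestrict _ hR).prod Q).comp (Subgroup.subtype _)) ?_ ?_ (hC.base.prod _ _ ih (hA v))
      · rintro ⟨s, hs⟩ hs' h1
        have h2 : R s = 1 := congrArg (fun z => (z.1 : GrP Λ A ⋊[φ] T)) h1
        have h3 : ret (U : Set V) s.left = 1 := congrArg SemidirectProduct.left h2
        have h4 : s.right = 1 := congrArg SemidirectProduct.right h2
        have h5 : ret (U : Set V) s.left = s.left := ret_eq hs'
        exact Subtype.ext (SemidirectProduct.ext (h5.symm.trans h3) h4)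
      · rintro ⟨s, hs⟩ hs' h1
        have h2 : R s = 1 := congrArg (fun z => (z.1 : GrP Λ A ⋊[φ] T)) h1
        have h2' : Q s = 1 := congrArg (fun z => z.2) h1
        have h3 : ret (U : Set V) s.left = 1 := congrArg SemidirectProduct.left h2
        have h4 : s.right = 1 := congrArg SemidirectProduct.right h2
        have h5 : prj v s.left = 1 := congrArg SemidirectProduct.left h2'
        obtain ⟨y, hy, a, hya⟩ := star_mem (fun u hu => hu.2) hs'
        have hyU : y ∈ (sub (U : Set V) : Subgroup (GrP Λ A)) := sub_mono (fun u hu => hu.1) hy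
        change s.left = y * GrP.of Λ A v a at hya
        rw [hya, map_mul, ret_eq hyU, ret_of_not_mem hv', mul_one] at h3
        rw [hya, map_mul, prj_of, h3, map_one, one_mul] at h5
        refine Subtype.ext (SemidirectProduct.ext ?_ h4)
        show s.left = 1
        rw [hya, h3, h5, map_one, mul_one]
    have : lft φ (sub ((insert v U : Finset V) : Set V))
        (fun t x hx => sub_inv φ α h ((insert v U : Finset V) : Set V) t x hx) =
        lft φ (sub (insert v (U : Set V)))
          (fun t x hx => sub_inv φ α h (insert v (U : Set V)) t x hx) := by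
      ext s
      show s.left ∈ sub ((insert v U : Finset V) : Set V) ↔ s.left ∈ sub (insert v (U : Set V))
      rw [hins]
    rw [this]
    exact key

/-- all of it, for a finite graph -/
theorem fin_all (ham : S_AM) {C : ∀ (G : Type) [Group G], Prop} (hC : ClosedE C) [Finite V]
    (φ : T →* MulAut (GrP Λ A)) (α : ∀ v, T →* MulAut (A v))
    (h : ∀ t v a, φ t (GrP.of Λ A v a) = GrP.of Λ A v (α v t a)) (hT : C T)
    (hA : ∀ v, C (A v ⋊[α v] T)) : C (GrP Λ A ⋊[φ] T) := by
  classical
  have : Fintype V := Fintype.ofFinite V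
  have h1 := fin_semi ham hC φ α h hT hA (Finset.univ : Finset V)
  refine hC.base.of_injective _ _ ((MonoidHom.id (GrP Λ A ⋊[φ] T)).codRestrict _ (fun s => ?_)) ?_ h1
  · show s.left ∈ sub ((Finset.univ : Finset V) : Set V)
    rw [Finset.coe_univ, sub_univ]
    trivial
  · intro s t hst
    exact congrArg Subtype.val hst

end fin

end Pool.Agent.R779.FJ.Tw
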