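import Pool.Agent.R779.FJ.Tw

/-!
# Extensions by graph products, with arbitrary isomorphisms between the vertex groups: the theorem
-/

set_option autoImplicit false

namespace Pool.Agent.R779.FJ.Tw

open Pool.Agent.Y110.FJ
open Pool.Agent.Y462.SS (Closed)
open Gp

theorem perm_apply_inv {X : Type} (σ : Equiv.Perm X) (x : X) : σ (σ⁻¹ x) = x :=
  σ.apply_symm_apply x

theorem perm_inv_apply {X : Type} (σ : Equiv.Perm X) (x : X) : σ⁻¹ (σ x) = x :=
  σ.symm_apply_apply x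

theorem zpow_comm {X M : Type} [Group X] [Group M] (i : X →* M) (Φ : MulAut M) (β : MulAut X)
    (h : ∀ x, Φ (i x) = i (β x)) (z : ℤ) (x : X) : (Φ ^ z) (i x) = i ((β ^ z) x) := by
  have hinv : ∀ x, Φ⁻¹ (i x) = i (β⁻¹ x) := by
    intro x
    have h1 := h (β⁻¹ x)
    rw [MulAut.apply_inv_self] at h1
    rw [← h1, MulAut.inv_apply_self]
  induction z using Int.induction_on generalizing x with
  | zero => simp
  | succ n ih => rw [zpow_add_one, zpow_add_one, MulAut.mul_apply, MulAut.mul_apply, h, ih]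
  | pred n ih => rw [zpow_sub_one, zpow_sub_one, MulAut.mul_apply, MulAut.mul_apply, hinv, ih]

/-- the semidirect product with `ℤ`, from the one for a power of the automorphism -/
theorem z_power {C : ∀ (G : Type) [Group G], Prop} (hC : ClosedE C) (M : Type) [Group M]
    (Θ : MulAut M) (m : ℕ) (hm : 0 < m)
    (h : C (M ⋊[zpowersHom (MulAut M) (Θ ^ m)] Multiplicative ℤ)) :
    C (M ⋊[zpowersHom (MulAut M) Θ] Multiplicative ℤ) := by
  have hcompat : ∀ z : Multiplicative ℤ, (MonoidHom.id M).comp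
      ((zpowersHom (MulAut M) (Θ ^ m)) z).toMonoidHom =
      ((zpowersHom (MulAut M) Θ) (powMonoidHom m z)).toMonoidHom.comp (MonoidHom.id M) := by
    intro z
    apply MonoidHom.ext
    intro x
    show (zpowersHom (MulAut M) (Θ ^ m)) z x = (zpowersHom (MulAut M) Θ) (z ^ m) x
    have e1 : (zpowersHom (MulAut M) (Θ ^ m)) z = (zpowersHom (MulAut M) Θ) (z ^ m) := by
      rw [zpowersHom_apply, zpowersHom_apply, toAdd_pow, ← zpow_natCast, ← zpow_mul, nsmul_eq_mul]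
    rw [e1]
  let F : M ⋊[zpowersHom (MulAut M) (Θ ^ m)] Multiplicative ℤ →*
      M ⋊[zpowersHom (MulAut M) Θ] Multiplicative ℤ :=
    SemidirectProduct.map (MonoidHom.id M) (powMonoidHom m) hcompat
  have hFl : ∀ s, (F s).left = s.left := fun s => rfl
  have hFr : ∀ s, (F s).right = s.right ^ m := fun s => rfl
  have hpow : Function.Injective (fun z : Multiplicative ℤ => z ^ m) := by
    intro a b hab
    have h1 : m • Multiplicative.toAdd a = m • Multiplicative.toAdd b :=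
      congrArg Multiplicative.toAdd hab
    rw [nsmul_eq_mul, nsmul_eq_mul] at h1
    have h2 : (m : ℤ) ≠ 0 := by exact_mod_cast hm.ne'
    exact Multiplicative.toAdd.injective (mul_left_cancel₀ h2 h1)
  have hF : Function.Injective F := by
    intro a b hab
    apply SemidirectProduct.ext
    · rw [← hFl, ← hFl, hab]
    · apply hpow
      show a.right ^ m = b.right ^ m
      rw [← hFr, ← hFr, hab]
  have hK : C ↥F.range :=
    hC.base.of_injective _ _ (MonoidHom.ofInjective hF).symm.toMonoidHom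
      (MonoidHom.ofInjective hF).symm.injective h
  have : NeZero m := ⟨hm.ne'⟩
  let δ : M ⋊[zpowersHom (MulAut M) Θ] Multiplicative ℤ →* Multiplicative (ZMod m) :=
    (AddMonoidHom.toMultiplicative (Int.castAddHom (ZMod m))).comp SemidirectProduct.rightHom
  have hle : δ.ker ≤ F.range := by
    intro s hs
    have h1 : ((Multiplicative.toAdd s.right : ℤ) : ZMod m) = 0 := hs
    rw [ZMod.intCast_zmod_eq_zero_iff_dvd] at h1
    obtain ⟨d, hd⟩ := h1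
    refine ⟨⟨s.left, Multiplicative.ofAdd d⟩, ?_⟩
    apply SemidirectProduct.ext
    · rfl
    · rw [hFr]
      apply Multiplicative.toAdd.injective
      show m • d = _
      rw [hd, nsmul_eq_mul]
  have hfi : F.range.FiniteIndex := by
    have h1 : δ.ker.FiniteIndex := inferInstance
    exact Subgroup.finiteIndex_of_le hle
  exact hC.base.finiteIndex _ _ hfi hK

/-- `X ⋊ ℤ` for the conjugation by `y` on a subgroup `X` -/
theorem sd_conj {C : ∀ (G : Type) [Group G], Prop} (hC : ClosedE C) {G : Type} [Group G]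
    (X : Subgroup G) (y : G) (β : MulAut X) (hβ : ∀ x : X, ((β x : X) : G) = y * x * y⁻¹)
    (h : C ↥(X ⊔ Subgroup.zpowers y)) :
    C (X ⋊[zpowersHom (MulAut X) β] Multiplicative ℤ) := by
  let iX : X →* ↥(X ⊔ Subgroup.zpowers y) := Subgroup.inclusion le_sup_left
  let y' : ↥(X ⊔ Subgroup.zpowers y) :=
    ⟨y, (le_sup_right : Subgroup.zpowers y ≤ _) (Subgroup.mem_zpowers y)⟩
  have hcompat : ∀ z : Multiplicative ℤ, iX.comp ((zpowersHom (MulAut X) β) z).toMonoidHom =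
      (MulAut.conj ((zpowersHom _ y') z)).toMonoidHom.comp iX := by
    intro z
    apply MonoidHom.ext
    intro x
    show iX ((zpowersHom (MulAut X) β) z x) = MulAut.conj ((zpowersHom _ y') z) (iX x)
    rw [zpowersHom_apply, zpowersHom_apply, map_zpow]
    refine (zpow_comm iX (MulAut.conj y') β ?_ _ x).symm
    intro x
    apply Subtype.ext
    exact (hβ x).symm
  let F : X ⋊[zpowersHom (MulAut X) β] Multiplicative ℤ →* ↥(X ⊔ Subgroup.zpowers y) :=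
    SemidirectProduct.lift iX (zpowersHom _ y') hcompat
  refine hC.base.of_injective _ _ (F.prod SemidirectProduct.rightHom) ?_
    (hC.base.prod _ _ h hC.base.int)
  rw [injective_iff_map_eq_one]
  intro s hs
  have h1 : F s = 1 := congrArg Prod.fst hs
  have h2 : s.right = 1 := congrArg Prod.snd hs
  have h3 : F s = iX s.left * (zpowersHom _ y') s.right := rfl
  rw [h3, h2, map_one, mul_one] at h1
  have h4 : s.left = 1 := Subgroup.inclusion_injective _ (h1.trans (map_one iX).symm)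
  exact SemidirectProduct.ext h4 h2

theorem loc_case {C : ∀ (G : Type) [Group G], Prop} (hC : ClosedE C) {G V : Type} [Group G]
    (P : V → Subgroup G)
    (hloc : ∀ (v : V) (g : G), (P v).map (MulAut.conj g).toMonoidHom = P v →
      C ↥(P v ⊔ Subgroup.zpowers g))
    (X : Subgroup G) (hX : X = ⊥ ∨ ∃ v, X = P v) (y : G) (β : MulAut X)
    (hβ : ∀ x : X, ((β x : X) : G) = y * x * y⁻¹) :
    C (X ⋊[zpowersHom (MulAut X) β] Multiplicative ℤ) := by
  rcases hX with rfl | ⟨v, rfl⟩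
  · refine hC.base.of_injective _ _ SemidirectProduct.rightHom ?_ hC.base.int
    rw [injective_iff_map_eq_one]
    intro s hs
    refine SemidirectProduct.ext ?_ hs
    exact Subsingleton.elim _ _
  · refine sd_conj hC (P v) y β hβ (hloc v y ?_)
    apply le_antisymm
    · rintro _ ⟨x, hx, rfl⟩
      show y * x * y⁻¹ ∈ P v
      rw [← hβ ⟨x, hx⟩]
      exact (β ⟨x, hx⟩).2
    · intro x hx
      refine ⟨(β.symm ⟨x, hx⟩ : P v), (β.symm ⟨x, hx⟩).2, ?_⟩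
      show y * ((β.symm ⟨x, hx⟩ : P v) : G) * y⁻¹ = x
      rw [← hβ, β.apply_symm_apply]

/-! ### a finite graph -/

section finT

variable {G : Type} [Group G] {T : Type} (Λ' : SimpleGraph T) (Q : T → Subgroup G)

/-- the element `x` of the vertex group of `t` -/
def ofQ (t : T) (x : G) (hx : x ∈ Q t) : GrP Λ' (fun t => ↥(Q t)) :=
  GrP.of Λ' (fun t => ↥(Q t)) t ⟨x, hx⟩

theorem ofQ_congr {t s : T} {x y : G} {hx : x ∈ Q t} {hy : y ∈ Q s} (h1 : t = s) (h2 : x = y) :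
    ofQ Λ' Q t x hx = ofQ Λ' Q s y hy := by
  subst h1
  subst h2
  rfl

/-- the homomorphism given by a map of the vertices and conjugations -/
theorem exists_hom (σ : T → T) (hσ : ∀ s t, Λ'.Adj s t → Λ'.Adj (σ s) (σ t)) (y : T → G)
    (hy : ∀ t x, x ∈ Q t → y t * x * (y t)⁻¹ ∈ Q (σ t)) :
    ∃ Θ : GrP Λ' (fun t => ↥(Q t)) →* GrP Λ' (fun t => ↥(Q t)),
      ∀ t x (hx : x ∈ Q t) (hx' : y t * x * (y t)⁻¹ ∈ Q (σ t)),
        Θ (ofQ Λ' Q t x hx) = ofQ Λ' Q (σ t) (y t * x * (y t)⁻¹) hx' := by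
  refine ⟨lift (fun t =>
    { toFun := fun x => ofQ Λ' Q (σ t) (y t * x.1 * (y t)⁻¹) (hy t _ x.2)
      map_one' := by
        refine Eq.trans ?_ (map_one (GrP.of Λ' (fun t => ↥(Q t)) (σ t)))
        refine congrArg (GrP.of Λ' (fun t => ↥(Q t)) (σ t)) (Subtype.ext ?_)
        show y t * 1 * (y t)⁻¹ = 1
        group
      map_mul' := fun a b => by
        refine Eq.trans ?_ (map_mul (GrP.of Λ' (fun t => ↥(Q t)) (σ t)) _ _)
        refine congrArg (GrP.of Λ' (fun t => ↥(Q t)) (σ t)) (Subtype.ext ?_)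
        show y t * (a.1 * b.1) * (y t)⁻¹ = y t * a.1 * (y t)⁻¹ * (y t * b.1 * (y t)⁻¹)
        group }) ?_, ?_⟩
  · intro s t h a b
    exact comm (hσ s t h) _ _
  · intro t x hx hx'
    exact lift_of (Λ := Λ') (A := fun t => ↥(Q t)) _ _ t ⟨x, hx⟩

/-- the twisted automorphism -/
theorem exists_aut (σ : Equiv.Perm T) (hσ : ∀ s t, Λ'.Adj (σ s) (σ t) ↔ Λ'.Adj s t) (y : T → G)
    (hQσ : ∀ t, Q (σ t) = Q t)
    (hfw : ∀ t x, x ∈ Q t → y t * x * (y t)⁻¹ ∈ Q t)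
    (hbw : ∀ t x, x ∈ Q t → (y t)⁻¹ * x * y t ∈ Q t) :
    ∃ Θ : MulAut (GrP Λ' (fun t => ↥(Q t))),
      ∀ t x (hx : x ∈ Q t) (hx' : y t * x * (y t)⁻¹ ∈ Q (σ t)),
        Θ (ofQ Λ' Q t x hx) = ofQ Λ' Q (σ t) (y t * x * (y t)⁻¹) hx' := by
  have hQσi : ∀ t, Q (σ⁻¹ t) = Q t := by
    intro t
    rw [← hQσ (σ⁻¹ t), perm_apply_inv]
  obtain ⟨Θ1, hΘ1⟩ := exists_hom Λ' Q σ (fun s t h => (hσ s t).2 h) y
    (fun t x hx => by rw [hQσ]; exact hfw t x hx)
  obtain ⟨Θ2, hΘ2⟩ := exists_hom Λ' Q (⇑σ⁻¹) (fun s t h => by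
    rw [← hσ, perm_apply_inv, perm_apply_inv]
    exact h) (fun t => (y (σ⁻¹ t))⁻¹) (fun t x hx => by
    rw [inv_inv]
    refine hbw _ _ ?_
    rw [hQσi]
    exact hx)
  have h12 : Θ2.comp Θ1 = MonoidHom.id _ := by
    apply hom_ext
    rintro t ⟨x, hx⟩
    show Θ2 (Θ1 (ofQ Λ' Q t x hx)) = ofQ Λ' Q t x hx
    have m1 : y t * x * (y t)⁻¹ ∈ Q (σ t) := by rw [hQσ]; exact hfw t _ hx
    rw [hΘ1 t x hx m1]
    have m2 : (y (σ⁻¹ (σ t)))⁻¹ * (y t * x * (y t)⁻¹) * ((y (σ⁻¹ (σ t)))⁻¹)⁻¹ ∈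
        Q (σ⁻¹ (σ t)) := by
      rw [inv_inv]
      refine hbw _ _ ?_
      rw [hQσi]
      exact m1
    rw [hΘ2 (σ t) _ m1 m2]
    apply ofQ_congr
    · rw [perm_inv_apply]
    · rw [perm_inv_apply]
      group
  have h21 : Θ1.comp Θ2 = MonoidHom.id _ := by
    apply hom_ext
    rintro t ⟨x, hx⟩
    show Θ1 (Θ2 (ofQ Λ' Q t x hx)) = ofQ Λ' Q t x hx
    have m1 : (y (σ⁻¹ t))⁻¹ * x * ((y (σ⁻¹ t))⁻¹)⁻¹ ∈ Q (σ⁻¹ t) := by
      rw [inv_inv]
      refine hbw _ _ ?_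
      rw [hQσi]
      exact hx
    rw [hΘ2 t x hx m1]
    have m2 : y (σ⁻¹ t) * ((y (σ⁻¹ t))⁻¹ * x * ((y (σ⁻¹ t))⁻¹)⁻¹) * (y (σ⁻¹ t))⁻¹ ∈
        Q (σ (σ⁻¹ t)) := by
      rw [hQσ]
      exact hfw _ _ m1
    rw [hΘ1 (σ⁻¹ t) _ m1 m2]
    apply ofQ_congr
    · rw [perm_apply_inv]
    · group
  exact ⟨MonoidHom.toMulEquiv Θ1 Θ2 h12 h21, hΘ1⟩

/-- powers of the twisted automorphism -/
theorem pow_aut (σ : Equiv.Perm T) (g' : G) (j : T → ℤ)
    (hQσ : ∀ t, Q (σ t) = Q t)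
    (hfw : ∀ t x, x ∈ Q t → g' ^ j t * x * (g' ^ j t)⁻¹ ∈ Q t)
    (hbw : ∀ t x, x ∈ Q t → (g' ^ j t)⁻¹ * x * g' ^ j t ∈ Q t)
    (Θ : MulAut (GrP Λ' (fun t => ↥(Q t))))
    (hΘ : ∀ t x (hx : x ∈ Q t) (hx' : g' ^ j t * x * (g' ^ j t)⁻¹ ∈ Q (σ t)),
        Θ (ofQ Λ' Q t x hx) = ofQ Λ' Q (σ t) (g' ^ j t * x * (g' ^ j t)⁻¹) hx')
    (z : ℕ) : ∀ (t s : T), s = (σ ^ z) t → ∃ i : ℤ,
      (∀ x, x ∈ Q t → g' ^ i * x * (g' ^ i)⁻¹ ∈ Q t) ∧
      (∀ x, x ∈ Q t → (g' ^ i)⁻¹ * x * g' ^ i ∈ Q t) ∧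
      ∀ x (hx : x ∈ Q t) (hx' : g' ^ i * x * (g' ^ i)⁻¹ ∈ Q s),
        (Θ ^ z) (ofQ Λ' Q t x hx) = ofQ Λ' Q s (g' ^ i * x * (g' ^ i)⁻¹) hx' := by
  have hQσz : ∀ (z : ℕ) t, Q ((σ ^ z) t) = Q t := by
    intro z
    induction z with
    | zero => intro t; rfl
    | succ z ih => intro t; rw [pow_succ', Equiv.Perm.mul_apply, hQσ, ih]
  induction z with
  | zero =>
    intro t s hs
    refine ⟨0, ?_, ?_, ?_⟩
    · intro x hx
      simpa using hx
    · intro x hx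
      simpa using hx
    · intro x hx hx'
      rw [pow_zero]
      show ofQ Λ' Q t x hx = _
      apply ofQ_congr
      · rw [hs, pow_zero]
        rfl
      · rw [zpow_zero]; group
  | succ z ih =>
    intro t s hs
    obtain ⟨i, hi1, hi2, hi'⟩ := ih t _ rfl
    have hst : s = σ ((σ ^ z) t) := by rw [hs, pow_succ', Equiv.Perm.mul_apply]
    have hl : Q ((σ ^ z) t) = Q t := hQσz z t
    refine ⟨j ((σ ^ z) t) + i, ?_, ?_, ?_⟩
    · intro x hx
      have h1 := hfw ((σ ^ z) t) (g' ^ i * x * (g' ^ i)⁻¹) (by rw [hl]; exact hi1 x hx)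
      rw [hl] at h1
      rw [zpow_add, mul_inv_rev]
      simpa only [mul_assoc] using h1
    · intro x hx
      have h1 := hbw ((σ ^ z) t) x (by rw [hl]; exact hx)
      rw [hl] at h1
      have h2 := hi2 _ h1
      rw [zpow_add, mul_inv_rev]
      simpa only [mul_assoc] using h2
    · intro x hx hx'
      have m1 : g' ^ i * x * (g' ^ i)⁻¹ ∈ Q ((σ ^ z) t) := by
        rw [hl]
        exact hi1 x hx
      have m2 : g' ^ j ((σ ^ z) t) * (g' ^ i * x * (g' ^ i)⁻¹) * (g' ^ j ((σ ^ z) t))⁻¹ ∈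
          Q (σ ((σ ^ z) t)) := by
        rw [hQσ]
        exact hfw _ _ m1
      rw [pow_succ', MulAut.mul_apply, hi' x hx m1, hΘ _ _ m1 m2]
      apply ofQ_congr
      · exact hst.symm
      · rw [zpow_add]; group

/-- the semidirect product with `ℤ` -/
theorem sd_aut (ham : S_AM) {C : ∀ (G : Type) [Group G], Prop} (hC : ClosedE C) [Finite T]
    (σ : Equiv.Perm T) (hσ : ∀ s t, Λ'.Adj (σ s) (σ t) ↔ Λ'.Adj s t) (g' : G) (j : T → ℤ)
    (hQσ : ∀ t, Q (σ t) = Q t)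
    (hfw : ∀ t x, x ∈ Q t → g' ^ j t * x * (g' ^ j t)⁻¹ ∈ Q t)
    (hbw : ∀ t x, x ∈ Q t → (g' ^ j t)⁻¹ * x * g' ^ j t ∈ Q t)
    (hQC : ∀ t (y : G) (β : MulAut (Q t)), (∀ x : Q t, ((β x : Q t) : G) = y * x * y⁻¹) →
      C (Q t ⋊[zpowersHom (MulAut (Q t)) β] Multiplicative ℤ)) :
    ∃ Θ : MulAut (GrP Λ' (fun t => ↥(Q t))),
      (∀ t x (hx : x ∈ Q t) (hx' : g' ^ j t * x * (g' ^ j t)⁻¹ ∈ Q (σ t)),
        Θ (ofQ Λ' Q t x hx) = ofQ Λ' Q (σ t) (g' ^ j t * x * (g' ^ j t)⁻¹) hx') ∧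
      C (GrP Λ' (fun t => ↥(Q t)) ⋊[zpowersHom (MulAut (GrP Λ' (fun t => ↥(Q t)))) Θ]
        Multiplicative ℤ) := by
  obtain ⟨Θ, hΘ⟩ := exists_aut Λ' Q σ hσ (fun t => g' ^ j t) hQσ hfw hbw
  refine ⟨Θ, hΘ, ?_⟩
  have hper : ∀ t, ∃ i : ℤ, (∀ x, x ∈ Q t → g' ^ i * x * (g' ^ i)⁻¹ ∈ Q t) ∧
      (∀ x, x ∈ Q t → (g' ^ i)⁻¹ * x * g' ^ i ∈ Q t) ∧
      ∀ x (hx : x ∈ Q t) (hx' : g' ^ i * x * (g' ^ i)⁻¹ ∈ Q t),
        (Θ ^ (orderOf σ)) (ofQ Λ' Q t x hx) = ofQ Λ' Q t (g' ^ i * x * (g' ^ i)⁻¹) hx' := by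
    intro t
    exact pow_aut Λ' Q σ g' j hQσ hfw hbw Θ hΘ (orderOf σ) t t
      (by rw [pow_orderOf_eq_one σ]; rfl)
  choose i hi1 hi2 hi3 using hper
  let β : ∀ t, MulAut (Q t) := fun t =>
    { toFun := fun x => ⟨g' ^ i t * x.1 * (g' ^ i t)⁻¹, hi1 t _ x.2⟩
      invFun := fun x => ⟨(g' ^ i t)⁻¹ * x.1 * g' ^ i t, hi2 t _ x.2⟩
      left_inv := fun x => Subtype.ext (by
        show (g' ^ i t)⁻¹ * (g' ^ i t * x.1 * (g' ^ i t)⁻¹) * g' ^ i t = x.1
        group)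
      right_inv := fun x => Subtype.ext (by
        show g' ^ i t * ((g' ^ i t)⁻¹ * x.1 * g' ^ i t) * (g' ^ i t)⁻¹ = x.1
        group)
      map_mul' := fun x y => Subtype.ext (by
        show g' ^ i t * (x.1 * y.1) * (g' ^ i t)⁻¹ =
          g' ^ i t * x.1 * (g' ^ i t)⁻¹ * (g' ^ i t * y.1 * (g' ^ i t)⁻¹)
        group) }
  refine z_power hC _ Θ (orderOf σ) (orderOf_pos σ) ?_
  refine fin_all ham hC _ (fun t => zpowersHom (MulAut (Q t)) (β t)) ?_ hC.base.int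
    (fun t => hQC t (g' ^ i t) (β t) (fun x => rfl))
  intro z t a
  rw [zpowersHom_apply, zpowersHom_apply]
  refine zpow_comm (GrP.of Λ' (fun t => ↥(Q t)) t) (Θ ^ (orderOf σ)) (β t) ?_ _ a
  rintro ⟨x, hx⟩
  exact hi3 t x hx (hi1 t x hx)

end finT

/-- homomorphisms given on some of the vertex groups -/
theorem lift_on {V : Type} {Λ : SimpleGraph V} {A : V → Type} [∀ v, Group (A v)] {H : Type}
    [Group H] (U : Set V) (f : ∀ v, v ∈ U → (A v →* H))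
    (hf : ∀ v w (hv : v ∈ U) (hw : w ∈ U), Λ.Adj v w → ∀ a b,
      f v hv a * f w hw b = f w hw b * f v hv a) :
    ∃ F : GrP Λ A →* H, ∀ v (hv : v ∈ U) a, F (GrP.of Λ A v a) = f v hv a := by
  classical
  let fam : ∀ v, A v →* H := fun v => if h : v ∈ U then f v h else 1
  have h1 : ∀ v (hv : v ∈ U), fam v = f v hv := fun v hv => dif_pos hv
  have h2 : ∀ v, v ∉ U → fam v = 1 := fun v hv => dif_neg hv
  refine ⟨lift fam ?_, ?_⟩
  · intro v w hvw a b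
    by_cases hv : v ∈ U
    · by_cases hw : w ∈ U
      · rw [h1 v hv, h1 w hw]
        exact hf v w hv hw hvw a b
      · rw [h2 w hw, MonoidHom.one_apply, mul_one, one_mul]
    · rw [h2 v hv, MonoidHom.one_apply, mul_one, one_mul]
  · intro v hv a
    rw [lift_of, h1 v hv]

end Pool.Agent.R779.FJ.Tw
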